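import Pool.Agent.PVA.Stm

/-!
# Project PVA (helper21), piece BRU: the bracket of `Q` with the `u η t`
-/

set_option autoImplicit false

open MvPolynomial

namespace Pool.Agent.PVA

noncomputable section

namespace BRU

variable {K : Type} [Field K]

theorem om_neg (ε η : Bool) : om K η ε = -om K ε η := by
  cases ε <;> cases η <;> simp [om]

theorem ann_X (ε : Bool) (s : ℕ) (i : Bool × ℕ) :
    ann K ε s (X i) = if i.2 = s then C (om K ε i.1) else 0 := by
  rw [ann, mkDerivation_X]

theorem der_C (D : Derivation K (R K) (R K)) (a : K) : D (C a) = 0 := by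
  rw [← MvPolynomial.algebraMap_eq]
  exact D.map_algebraMap a

theorem ann_crt (η ε : Bool) (t : ℕ) (s : ℤ) :
    ann K η t (crt K ε s) = if s = -t - 1 then C (om K η ε) else 0 := by
  unfold crt
  by_cases hs : s < 0
  · rw [if_pos hs, ann_X]
    by_cases h : s = -t - 1
    · rw [if_pos h, if_pos]
      show (-s - 1).toNat = t
      omega
    · rw [if_neg h, if_neg]
      show ¬ (-s - 1).toNat = t
      omega
  · rw [if_neg hs, map_zero, if_neg]
    omega

theorem ann_comm (ε η : Bool) (s t : ℕ) (P : R K) :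
    ann K ε s (ann K η t P) = ann K η t (ann K ε s P) := by
  have h : ⁅ann K ε s, ann K η t⁆ = 0 := by
    apply MvPolynomial.derivation_ext
    intro i
    rw [Derivation.commutator_apply, ann_X, ann_X, Derivation.zero_apply]
    split_ifs <;> simp
  have h1 := congrArg (fun D : Derivation K (R K) (R K) => D P) h
  simp only [Derivation.commutator_apply, Derivation.zero_apply] at h1
  exact sub_eq_zero.mp h1

theorem Q_apply (ε ε' : Bool) (c : ℤ → K) (n : ℤ) (P : R K) :
    Q ε ε' c n P = qq ε ε' c n * P + xi ε ε' c n P + tau ε ε' c n P := rfl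

theorem tau_apply (ε ε' : Bool) (c : ℤ → K) (n : ℤ) (P : R K) :
    tau ε ε' c n P = ∑ s ∈ Finset.range n.toNat,
      c s • ann K ε s (ann K ε' (n - 1 - s).toNat P) := by
  unfold tau
  rw [LinearMap.sum_apply]
  rfl

theorem xi_X (ε ε' : Bool) (c : ℤ → K) (n : ℤ) (i : Bool × ℕ) :
    xi ε ε' c n (X i) = (om K ε' i.1 * c (n - i.2 - 1)) • crt K ε (n - i.2 - 1) +
      (om K ε i.1 * c i.2) • crt K ε' (n - i.2 - 1) := by
  rw [xi, mkDerivation_X]

theorem u_neg (ε : Bool) {s : ℤ} (hs : s < 0) (P : R K) : u K ε s P = crt K ε s * P := by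
  rw [u, if_pos hs]
  rfl

theorem u_nonneg (ε : Bool) {s : ℤ} (hs : ¬ s < 0) (P : R K) :
    u K ε s P = ann K ε s.toNat P := by
  rw [u, if_neg hs]
  rfl

theorem crt_nonneg (ε : Bool) {s : ℤ} (hs : ¬ s < 0) : crt K ε s = 0 := by
  rw [crt, if_neg hs]

/-- the case `t < 0` -/
theorem case_neg (ε ε' η : Bool) (c : ℤ → K) (n : ℤ) (k : ℕ) (P : R K) :
    Q ε ε' c n (X (η, k) * P) - X (η, k) * Q ε ε' c n P =
      (om K ε' η * c (n + (-k - 1))) • u K ε (n + (-k - 1)) P +
        (om K ε η * c k) • u K ε' (n + (-k - 1)) P := by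
  have hxi : xi ε ε' c n (X (η, k) * P) = X (η, k) * xi ε ε' c n P + xi ε ε' c n (X (η, k)) * P := by
    rw [Derivation.leibniz, smul_eq_mul, smul_eq_mul]
    ring
  have htau : tau ε ε' c n (X (η, k) * P) - X (η, k) * tau ε ε' c n P =
      ∑ s ∈ Finset.range n.toNat, c s •
        ((if k = s then C (om K ε η) else 0) * ann K ε' (n - 1 - s).toNat P +
          (if k = (n - 1 - s).toNat then C (om K ε' η) else 0) * ann K ε s P) := by
    rw [tau_apply, tau_apply, Finset.mul_sum, ← Finset.sum_sub_distrib]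
    refine Finset.sum_congr rfl fun s _ => ?_
    have h1 : ann K ε s (ann K ε' (n - 1 - s).toNat (X (η, k) * P)) =
        X (η, k) * ann K ε s (ann K ε' (n - 1 - s).toNat P) +
          ((if k = s then C (om K ε η) else 0) * ann K ε' (n - 1 - s).toNat P +
            (if k = (n - 1 - s).toNat then C (om K ε' η) else 0) * ann K ε s P) := by
      have h2 : ann K ε s (if k = (n - 1 - s).toNat then C (om K ε' η) else 0) = 0 := by
        split_ifs
        · exact der_C _ _
        · exact map_zero _
      rw [Derivation.leibniz, map_add, smul_eq_mul, smul_eq_mul, Derivation.leibniz,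
        Derivation.leibniz, ann_X, ann_X, smul_eq_mul, smul_eq_mul, smul_eq_mul, smul_eq_mul, h2]
      ring
    rw [h1, smul_add, mul_smul_comm]
    ring
  have hxiX := xi_X ε ε' c n (η, k)
  have hmain : Q ε ε' c n (X (η, k) * P) - X (η, k) * Q ε ε' c n P =
      xi ε ε' c n (X (η, k)) * P +
        (tau ε ε' c n (X (η, k) * P) - X (η, k) * tau ε ε' c n P) := by
    rw [Q_apply, Q_apply, hxi]
    ring
  rw [hmain, htau, hxiX]
  have he : n - (k : ℤ) - 1 = n + (-k - 1) := by ring
  simp only [he]
  by_cases hnt : n + (-(k : ℤ) - 1) < 0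
  · rw [u_neg _ hnt, u_neg _ hnt, Finset.sum_eq_zero, add_zero, add_mul, smul_mul_assoc,
      smul_mul_assoc]
    intro s hs
    rw [Finset.mem_range] at hs
    rw [if_neg (by omega), if_neg (by omega), zero_mul, zero_mul, add_zero, smul_zero]
  · rw [u_nonneg _ hnt, u_nonneg _ hnt, crt_nonneg _ hnt, crt_nonneg _ hnt, smul_zero, smul_zero,
      add_zero, zero_mul, zero_add]
    obtain ⟨m, hm⟩ : ∃ m : ℕ, n + (-(k : ℤ) - 1) = m :=
      ⟨(n + (-(k : ℤ) - 1)).toNat, by omega⟩
    have hn : n = m + k + 1 := by omega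
    have hN : n.toNat = m + k + 1 := by omega
    rw [hm, Int.toNat_natCast]
    simp only [smul_add]
    rw [Finset.sum_add_distrib, Finset.sum_eq_single k, Finset.sum_eq_single m]
    · have h1 : (n - 1 - (k : ℤ)).toNat = m := by omega
      have h2 : k = (n - 1 - (m : ℤ)).toNat := by omega
      rw [if_pos rfl, if_pos h2, h1, ← smul_eq_C_mul, ← smul_eq_C_mul, smul_smul, smul_smul,
        mul_comm (c k), mul_comm (c m), add_comm]
    · intro s hs hsm
      rw [Finset.mem_range] at hs
      rw [if_neg (by omega), zero_mul, smul_zero]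
    · intro h
      exact absurd (Finset.mem_range.mpr (by omega)) h
    · intro s hs hsk
      rw [if_neg (fun h => hsk h.symm), zero_mul, smul_zero]
    · intro h
      exact absurd (Finset.mem_range.mpr (by omega)) h

theorem ann_qq (ε ε' η : Bool) (c : ℤ → K) (n : ℤ) (t : ℕ) :
    ann K η t (qq ε ε' c n) = -((om K ε' η * c (n + t)) • crt K ε (n + t) +
      (om K ε η * c (-t - 1)) • crt K ε' (n + t)) := by
  have h1 : ann K η t (qq ε ε' c n) = ∑ i ∈ Finset.range (-n).toNat, c (-i - 1) •
      (crt K ε (-i - 1) * (if n + (i : ℤ) = -t - 1 then C (om K η ε') else 0) +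
        crt K ε' (n + i) * (if -(i : ℤ) - 1 = -t - 1 then C (om K η ε) else 0)) := by
    rw [qq, map_sum]
    refine Finset.sum_congr rfl fun i _ => ?_
    rw [Derivation.map_smul, Derivation.leibniz, ann_crt, ann_crt, smul_eq_mul, smul_eq_mul]
  rw [h1]
  by_cases hnt : n + (t : ℤ) < 0
  · obtain ⟨m, hm⟩ : ∃ m : ℕ, n + (t : ℤ) = -m - 1 := ⟨(-(n + t) - 1).toNat, by omega⟩
    simp only [smul_add]
    rw [Finset.sum_add_distrib, Finset.sum_eq_single m, Finset.sum_eq_single t]
    · have e1 : n + (m : ℤ) = -t - 1 := by omega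
      have e2 : (-(m : ℤ) - 1) = n + t := by omega
      rw [if_pos e1, if_pos rfl, e2, om_neg ε' η, om_neg ε η, mul_comm (crt K ε _),
        mul_comm (crt K ε' _), ← smul_eq_C_mul, ← smul_eq_C_mul, smul_smul, smul_smul, neg_add,
        ← neg_smul, ← neg_smul]
      congr 1 <;> ring_nf
    · intro i _ hi
      rw [if_neg (by omega), mul_zero, smul_zero]
    · intro h
      exact absurd (Finset.mem_range.mpr (by omega)) h
    · intro i _ hi
      rw [if_neg (by omega), mul_zero, smul_zero]
    · intro h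
      exact absurd (Finset.mem_range.mpr (by omega)) h
  · rw [crt_nonneg _ hnt, crt_nonneg _ hnt, smul_zero, smul_zero, add_zero, neg_zero]
    apply Finset.sum_eq_zero
    intro i hi
    rw [Finset.mem_range] at hi
    rw [if_neg (by omega), if_neg (by omega), mul_zero, mul_zero, add_zero, smul_zero]

theorem xi_comm (ε ε' η : Bool) (c : ℤ → K) (n : ℤ) (t : ℕ) (P : R K) :
    xi ε ε' c n (ann K η t P) - ann K η t (xi ε ε' c n P) =
      if n + (t : ℤ) < 0 then 0 else (om K ε' η * c (n + t)) • ann K ε (n + t).toNat P +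
        (om K ε η * c (-t - 1)) • ann K ε' (n + t).toNat P := by
  have key : ⁅xi ε ε' c n, ann K η t⁆ = if n + (t : ℤ) < 0 then 0 else
      (om K ε' η * c (n + t)) • ann K ε (n + t).toNat +
        (om K ε η * c (-t - 1)) • ann K ε' (n + t).toNat := by
    apply MvPolynomial.derivation_ext
    rintro ⟨ζ, k⟩
    have h1 : xi ε ε' c n (ann K η t (X (ζ, k))) = 0 := by
      rw [ann_X]
      split_ifs
      · exact der_C _ _
      · exact map_zero _
    rw [Derivation.commutator_apply, h1, zero_sub, xi_X, map_add, Derivation.map_smul,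
      Derivation.map_smul, ann_crt, ann_crt]
    dsimp only
    by_cases hnt : n + (t : ℤ) < 0
    · rw [if_pos hnt, if_neg (by omega), if_neg (by omega), smul_zero, smul_zero, add_zero, neg_zero,
        Derivation.zero_apply]
    · rw [if_neg hnt, Derivation.add_apply, Derivation.smul_apply, Derivation.smul_apply, ann_X,
        ann_X]
      by_cases hk : k = (n + (t : ℤ)).toNat
      · have e1 : n - (k : ℤ) - 1 = -t - 1 := by omega
        have e2 : (k : ℤ) = n + t := by omega
        rw [if_pos e1, if_pos e1, if_pos hk, if_pos hk, e1, e2, om_neg ε η, om_neg ε' η, smul_eq_C_mul,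
          smul_eq_C_mul, smul_eq_C_mul, smul_eq_C_mul, ← C_mul, ← C_mul, ← C_mul, ← C_mul, ← C_add,
          ← C_add, ← C_neg]
        congr 1
        ring
      · rw [if_neg (by omega), if_neg (by omega), if_neg hk, if_neg hk]
        simp
  have h1 := congrArg (fun D : Derivation K (R K) (R K) => D P) key
  simp only [Derivation.commutator_apply] at h1
  rw [h1]
  split_ifs
  · rfl
  · rfl

/-- the case `t ≥ 0` -/
theorem case_nonneg (ε ε' η : Bool) (c : ℤ → K) (n : ℤ) (t : ℕ) (P : R K) :
    Q ε ε' c n (ann K η t P) - ann K η t (Q ε ε' c n P) =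
      (om K ε' η * c (n + t)) • u K ε (n + t) P +
        (om K ε η * c (-t - 1)) • u K ε' (n + t) P := by
  have htau : tau ε ε' c n (ann K η t P) = ann K η t (tau ε ε' c n P) := by
    rw [tau_apply, tau_apply, map_sum]
    refine Finset.sum_congr rfl fun s _ => ?_
    rw [Derivation.map_smul, ann_comm ε' η, ann_comm ε η]
  have hmain : Q ε ε' c n (ann K η t P) - ann K η t (Q ε ε' c n P) =
      -(ann K η t (qq ε ε' c n)) * P +
        (xi ε ε' c n (ann K η t P) - ann K η t (xi ε ε' c n P)) := by
    rw [Q_apply, Q_apply, htau, map_add, map_add, Derivation.leibniz, smul_eq_mul, smul_eq_mul]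
    ring
  rw [hmain, ann_qq, xi_comm, neg_neg]
  by_cases hnt : n + (t : ℤ) < 0
  · rw [if_pos hnt, add_zero, u_neg _ hnt, u_neg _ hnt, add_mul, smul_mul_assoc, smul_mul_assoc]
  · rw [if_neg hnt, u_nonneg _ hnt, u_nonneg _ hnt, crt_nonneg _ hnt, crt_nonneg _ hnt, smul_zero,
      smul_zero, add_zero, zero_mul, zero_add]

end BRU

open BRU in
theorem t_BRU : S_BRU := by
  intro K _ ε ε' η c n t P
  by_cases ht : t < 0
  · obtain ⟨k, hk⟩ : ∃ k : ℕ, t = -k - 1 := ⟨(-t - 1).toNat, by omega⟩
    have h1 : ∀ P : R K, u K η t P = X (η, k) * P := by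
      intro P
      rw [u_neg _ ht, crt, if_pos ht]
      congr 2
      rw [hk]
      congr 1
      omega
    have h2 : -t - 1 = k := by omega
    rw [h1, h1, h2, hk]
    exact case_neg ε ε' η c n k P
  · obtain ⟨k, hk⟩ : ∃ k : ℕ, t = k := ⟨t.toNat, by omega⟩
    rw [u_nonneg η ht, u_nonneg η ht, hk, Int.toNat_natCast]
    exact case_nonneg ε ε' η c n k P

end

end Pool.Agent.PVA
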