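import Pool.Agent.PVA.Stm

/-!
# Piece CEN: the operator `D^p` commutes with the `x_n`
-/

set_option autoImplicit false

namespace Pool.Agent.PVA

theorem t_CEN : S_CEN := by
  intro K _ p hpf hch κ D hp hD a b c n hn
  have hpp : p.Prime := hpf.out
  obtain ⟨cf, hcf⟩ : ∃ cf : ℕ → K, cf = fun j => ∏ i ∈ Finset.range j,
      (-(2 * (κ + 2) * ((n - 2 * i : ℤ) : K))) := ⟨_, rfl⟩
  have hcf0 : cf 0 = 1 := by rw [hcf]; simp
  have hcfs : ∀ j, cf (j + 1) = cf j * (-(2 * (κ + 2) * ((n - 2 * j : ℤ) : K))) := by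
    intro j
    rw [hcf]
    exact Finset.prod_range_succ _ _
  have key : ∀ (k : ℕ) (v : V κ), (D ^ k) (xx a b c n • v) =
      ∑ ij ∈ Finset.HasAntidiagonal.antidiagonal k,
        k.choose ij.1 • (cf ij.1 • (xx a b c (n - 2 * ij.1) • (D ^ ij.2) v)) := by
    intro k v
    induction k with
    | zero => simp [hcf0]
    | succ k ih =>
      rw [pow_succ', Module.End.mul_apply, ih, map_sum,
        Finset.sum_antidiagonal_choose_succ_nsmul
          (fun i j => cf i • (xx a b c (n - 2 * i) • (D ^ j) v)) k, ← Finset.sum_add_distrib]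
      refine Finset.sum_congr rfl fun ij hij => ?_
      have hij' : ij.1 + ij.2 = k := Finset.HasAntidiagonal.mem_antidiagonal.1 hij
      have hch' : k.choose ij.2 = k.choose ij.1 :=
        Nat.choose_symm_of_eq_add (by omega)
      rw [map_nsmul, map_smul, hD.2, hch', ← smul_add]
      congr 1
      have h1 : (D ^ (ij.2 + 1)) v = D ((D ^ ij.2) v) := by
        rw [pow_succ', Module.End.mul_apply]
      have h2 : n - 2 * (ij.1 : ℤ) - 2 = n - 2 * ((ij.1 + 1 : ℕ) : ℤ) := by
        push_cast
        ring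
      rw [h1, smul_sub, hcfs, sub_eq_add_neg, h2]
      congr 1
      rw [← neg_smul, smul_smul]
      congr 1
      ring
  -- the terms for `k = p`
  have hterm : ∀ ij ∈ Finset.HasAntidiagonal.antidiagonal p, ij ≠ (0, p) →
      p.choose ij.1 • (cf ij.1 • (xx a b c (n - 2 * ij.1) • (D ^ ij.2) (vac κ))) = 0 := by
    intro ij hij hne
    have hij' : ij.1 + ij.2 = p := Finset.HasAntidiagonal.mem_antidiagonal.1 hij
    have h0 : ij.1 ≠ 0 := by
      intro h
      exact hne (Prod.ext h (by simpa [h] using hij'))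
    by_cases h1 : ij.1 = p
    · have hcp : cf p = 0 := by
        rw [hcf]
        -- some factor vanishes
        have h2 : ((2 : ℕ) : ZMod p) ≠ 0 := by
          intro h
          rw [ZMod.natCast_eq_zero_iff] at h
          have := Nat.le_of_dvd (by norm_num) h
          omega
        obtain ⟨i, hi⟩ : ∃ i : ZMod p, i = (n : ZMod p) * (((2 : ℕ) : ZMod p))⁻¹ := ⟨_, rfl⟩
        refine Finset.prod_eq_zero (i := i.val) (Finset.mem_range.2 (ZMod.val_lt i)) ?_
        have h3 : ((n - 2 * (i.val : ℤ) : ℤ) : ZMod p) = 0 := by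
          push_cast
          rw [ZMod.natCast_zmod_val, hi]
          have h4 : (2 : ZMod p) = ((2 : ℕ) : ZMod p) := by norm_num
          rw [h4]
          field_simp
          ring
        have h5 : (p : ℤ) ∣ n - 2 * (i.val : ℤ) := (ZMod.intCast_zmod_eq_zero_iff_dvd _ p).1 h3
        have h6 : ((n - 2 * (i.val : ℤ) : ℤ) : K) = 0 := (CharP.intCast_eq_zero_iff K p _).2 h5
        rw [h6, mul_zero, neg_zero]
      rw [h1, hcp, zero_smul, smul_zero]
    · have h2 : p ∣ p.choose ij.1 := hpp.dvd_choose_self h0 (by omega)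
      have h3 : ((p.choose ij.1 : ℕ) : K) = 0 := (CharP.cast_eq_zero_iff K p _).2 h2
      rw [← Nat.cast_smul_eq_nsmul K, h3, zero_smul]
  have hp1 := key p (vac κ)
  have hvac : xx a b c n • vac κ = 0 := by
    change Submodule.Quotient.mk (xx a b c n • (1 : U K)) = 0
    rw [Submodule.Quotient.mk_eq_zero, smul_eq_mul, mul_one]
    exact Submodule.subset_span (Or.inl ⟨a, b, c, n, hn, rfl⟩)
  rw [hvac, map_zero, Finset.sum_eq_single (0, p) hterm (fun h => absurd
    (Finset.HasAntidiagonal.mem_antidiagonal.2 (zero_add p)) h)] at hp1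
  simp only [Nat.choose_zero_right, one_smul, hcf0, Nat.cast_zero, mul_zero, sub_zero] at hp1
  exact hp1.symm

end Pool.Agent.PVA
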