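import Pool.Agent.PVA.Stm

/-!
# Piece SUG: the Sugawara operator on the vacuum module
-/

open LaurentPolynomial

namespace Pool.Agent.PVA

attribute [local instance 100] LieRing.ofAssociativeRing

noncomputable section

variable {K : Type*} [Field K]

/-- induction principle for the enveloping algebra -/
theorem uea_ind {P : U K → Prop} (hι : ∀ x, P (UniversalEnvelopingAlgebra.ι K x))
    (halg : ∀ r, P (algebraMap K (U K) r)) (hadd : ∀ x y, P x → P y → P (x + y))
    (hmul : ∀ x y, P x → P y → P (x * y)) (z : U K) : P z := by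
  let S : Subalgebra K (U K) :=
    { carrier := {z | P z}
      mul_mem' := fun {a b} ha hb => hmul a b ha hb
      add_mem' := fun {a b} ha hb => hadd a b ha hb
      algebraMap_mem' := halg }
  let f : Aff K →ₗ⁅K⁆ S :=
    { toFun := fun x => ⟨UniversalEnvelopingAlgebra.ι K x, hι x⟩
      map_add' := fun x y => by ext; simp
      map_smul' := fun r x => by ext; simp
      map_lie' := fun {x y} => by
        apply Subtype.ext
        simp [LieRing.of_associative_ring_bracket] }
  have h : (S.val.comp (UniversalEnvelopingAlgebra.lift K f)) = AlgHom.id K (U K) := by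
    apply UniversalEnvelopingAlgebra.hom_ext
    ext x
    simp [f]
  have h2 := DFunLike.congr_fun h z
  simp only [AlgHom.comp_apply, AlgHom.id_apply] at h2
  rw [← h2]
  exact (UniversalEnvelopingAlgebra.lift K f z).2

/-- the derivation -/
def dl (μ : K) : Aff K →ₗ[K] Aff K where
  toFun x := ⟨C μ * (T (-2) * theta K x.e), C μ * (T (-2) * theta K x.h),
    C μ * (T (-2) * theta K x.f), 0⟩
  map_add' x y := by ext1 <;> simp <;> ring
  map_smul' r x := by
    ext1
    · simp only [Aff.smul_e, map_smul]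
      simp only [smul_eq_C_mul, RingHom.id_apply]; ring
    · simp only [Aff.smul_h, map_smul]
      simp only [smul_eq_C_mul, RingHom.id_apply]; ring
    · simp only [Aff.smul_f, map_smul]
      simp only [smul_eq_C_mul, RingHom.id_apply]; ring
    · simp

theorem dl_mono (μ a b c : K) (n : ℤ) :
    dl μ (Aff.mono a b c n) = (μ * n) • Aff.mono a b c (n - 2) := by
  have h : (T (n - 2) : K[T;T⁻¹]) = T (-2) * T n := by rw [← T_add]; congr 1; ring
  ext1
  · simp only [dl, Aff.mono, LinearMap.coe_mk, AddHom.coe_mk, Aff.smul_e, map_smul, theta_T]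
    simp only [h, smul_eq_C_mul, map_mul]
    ring
  · simp only [dl, Aff.mono, LinearMap.coe_mk, AddHom.coe_mk, Aff.smul_h, map_smul, theta_T]
    simp only [h, smul_eq_C_mul, map_mul]
    ring
  · simp only [dl, Aff.mono, LinearMap.coe_mk, AddHom.coe_mk, Aff.smul_f, map_smul, theta_T]
    simp only [h, smul_eq_C_mul, map_mul]
    ring
  · simp [dl, Aff.mono]

theorem dl_lie (μ : K) (x y : Aff K) : dl μ ⁅x, y⁆ = ⁅dl μ x, y⁆ + ⁅x, dl μ y⁆ := by
  ext1
  · simp only [dl, LinearMap.coe_mk, AddHom.coe_mk, Aff.lie_e, Aff.add_e, Aff.theta_two_mul,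
      map_sub]
    simp only [theta_mul]
    ring
  · simp only [dl, LinearMap.coe_mk, AddHom.coe_mk, Aff.lie_h, Aff.add_h, Aff.theta_two_mul,
      map_sub]
    simp only [theta_mul]
    ring
  · simp only [dl, LinearMap.coe_mk, AddHom.coe_mk, Aff.lie_f, Aff.add_f, Aff.theta_two_mul,
      map_sub]
    simp only [theta_mul]
    ring
  · rw [Aff.add_z, Aff.lie_z, Aff.lie_z, ← map_add]
    have h := ct_theta ((dl μ x).e * y.f + (dl μ x).f * y.e + 2 * ((dl μ x).h * y.h))
    change (0 : K) = _
    rw [← h]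
    congr 1
    rw [map_add, map_add, Aff.theta_two_mul, theta_mul, theta_mul, theta_mul]
    simp only [dl, LinearMap.coe_mk, AddHom.coe_mk]
    ring

theorem ι_lie (x y : Aff K) : UniversalEnvelopingAlgebra.ι K ⁅x, y⁆ =
    UniversalEnvelopingAlgebra.ι K x * UniversalEnvelopingAlgebra.ι K y -
      UniversalEnvelopingAlgebra.ι K y * UniversalEnvelopingAlgebra.ι K x := by
  rw [LieHom.map_lie, LieRing.of_associative_ring_bracket]

variable (κ : K)

/-- the action -/
def pv : U K →ₐ[K] Module.End K (V κ) := Algebra.lsmul K K (V κ)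

theorem pv_apply (z : U K) (v : V κ) : pv κ z v = z • v := rfl

/-- the representation on the product -/
def rho (μ : K) : Aff K →ₗ⁅K⁆ Module.End K (V κ × V κ) where
  toFun x := ((pv κ (UniversalEnvelopingAlgebra.ι K x)) ∘ₗ LinearMap.fst K _ _).prod
    ((pv κ (UniversalEnvelopingAlgebra.ι K x)) ∘ₗ LinearMap.snd K _ _ +
      (pv κ (UniversalEnvelopingAlgebra.ι K (dl μ x))) ∘ₗ LinearMap.fst K _ _)
  map_add' x y := by
    refine LinearMap.ext fun w => Prod.ext ?_ ?_
    · simp
    · simp; abel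
  map_smul' r x := by
    refine LinearMap.ext fun w => Prod.ext ?_ ?_
    · simp
    · simp
  map_lie' {x y} := by
    refine LinearMap.ext fun w => Prod.ext ?_ ?_
    · change UniversalEnvelopingAlgebra.ι K ⁅x, y⁆ • w.1 =
        UniversalEnvelopingAlgebra.ι K x • (UniversalEnvelopingAlgebra.ι K y • w.1) -
        UniversalEnvelopingAlgebra.ι K y • (UniversalEnvelopingAlgebra.ι K x • w.1)
      rw [ι_lie, sub_smul, mul_smul, mul_smul]
    · change UniversalEnvelopingAlgebra.ι K ⁅x, y⁆ • w.2 +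
          UniversalEnvelopingAlgebra.ι K (dl μ ⁅x, y⁆) • w.1 =
        (UniversalEnvelopingAlgebra.ι K x • (UniversalEnvelopingAlgebra.ι K y • w.2 +
            UniversalEnvelopingAlgebra.ι K (dl μ y) • w.1) +
          UniversalEnvelopingAlgebra.ι K (dl μ x) • (UniversalEnvelopingAlgebra.ι K y • w.1)) -
        (UniversalEnvelopingAlgebra.ι K y • (UniversalEnvelopingAlgebra.ι K x • w.2 +
            UniversalEnvelopingAlgebra.ι K (dl μ x) • w.1) +
          UniversalEnvelopingAlgebra.ι K (dl μ y) • (UniversalEnvelopingAlgebra.ι K x • w.1))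
      rw [dl_lie, map_add, ι_lie, ι_lie, ι_lie]
      simp only [add_smul, sub_smul, mul_smul, smul_add]
      abel

theorem rho_fst (μ : K) (x : Aff K) (w : V κ × V κ) :
    (rho κ μ x w).1 = UniversalEnvelopingAlgebra.ι K x • w.1 := rfl

theorem rho_snd (μ : K) (x : Aff K) (w : V κ × V κ) :
    (rho κ μ x w).2 = UniversalEnvelopingAlgebra.ι K x • w.2 +
      UniversalEnvelopingAlgebra.ι K (dl μ x) • w.1 := rfl

/-- the lifted representation -/
def Phi (μ : K) : U K →ₐ[K] Module.End K (V κ × V κ) :=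
  UniversalEnvelopingAlgebra.lift K (rho κ μ)

theorem Phi_ι (μ : K) (x : Aff K) : Phi κ μ (UniversalEnvelopingAlgebra.ι K x) = rho κ μ x :=
  UniversalEnvelopingAlgebra.lift_ι_apply K (rho κ μ) x

theorem Phi_fst (μ : K) (z : U K) : ∀ w : V κ × V κ, (Phi κ μ z w).1 = z • w.1 := by
  refine uea_ind (P := fun z => ∀ w : V κ × V κ, (Phi κ μ z w).1 = z • w.1) ?_ ?_ ?_ ?_ z
  · intro x w
    rw [Phi_ι, rho_fst]
  · intro r w
    rw [AlgHom.commutes, Module.algebraMap_end_apply, Prod.smul_fst, algebraMap_smul]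
  · intro x y hx hy w
    rw [map_add, LinearMap.add_apply, Prod.fst_add, hx, hy, add_smul]
  · intro x y hx hy w
    rw [map_mul, Module.End.mul_apply, hx, hy, mul_smul]

theorem xx_vac (a b c : K) (n : ℤ) (hn : 0 ≤ n) : xx a b c n • vac κ = 0 := by
  unfold vac
  rw [← Submodule.Quotient.mk_smul, smul_eq_mul, mul_one, Submodule.Quotient.mk_eq_zero]
  exact Submodule.subset_span (Or.inl ⟨a, b, c, n, hn, rfl⟩)

theorem cc_vac : cc K • vac κ = κ • vac κ := by
  unfold vac
  rw [← sub_eq_zero, ← algebraMap_smul (U K) κ, ← Submodule.Quotient.mk_smul,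
    ← Submodule.Quotient.mk_smul, ← Submodule.Quotient.mk_sub, Submodule.Quotient.mk_eq_zero]
  simp only [smul_eq_mul, mul_one]
  exact Submodule.subset_span (Or.inr rfl)

theorem cc_comm (z : U K) : cc K * z = z * cc K := by
  refine uea_ind (P := fun z => cc K * z = z * cc K) ?_ ?_ ?_ ?_ z
  · intro x
    have h := (UniversalEnvelopingAlgebra.ι K).map_lie (Aff.cen K) x
    rw [Aff.lie_cen, map_zero, LieRing.of_associative_ring_bracket] at h
    exact (sub_eq_zero.1 h.symm)
  · intro r
    exact (Algebra.commutes r _).symm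
  · intro x y hx hy
    rw [mul_add, add_mul, hx, hy]
  · intro x y hx hy
    rw [← mul_assoc, hx, mul_assoc, hy, mul_assoc]

theorem cc_smul (v : V κ) : cc K • v = κ • v := by
  obtain ⟨z, rfl⟩ := Submodule.Quotient.mk_surjective _ v
  have h : (Submodule.Quotient.mk z : V κ) = z • vac κ := by
    unfold vac
    rw [← Submodule.Quotient.mk_smul, smul_eq_mul, mul_one]
  rw [h, ← mul_smul, cc_comm, mul_smul, cc_vac, smul_comm]

/-- commutation -/
theorem xx_comm (a b c a' b' c' : K) (m n : ℤ) (v : V κ) :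
    xx a b c m • (xx a' b' c' n • v) = xx a' b' c' n • (xx a b c m • v) +
      xx (2 * (b * a' - a * b')) (a * c' - c * a') (2 * (c * b' - b * c')) (m + n) • v +
      (if m + n = 0 then (m : K) * (a * c' + c * a' + 2 * (b * b')) * κ else 0) • v := by
  have h := (UniversalEnvelopingAlgebra.ι K).map_lie (Aff.mono a b c m) (Aff.mono a' b' c' n)
  rw [Aff.lie_mono, LieRing.of_associative_ring_bracket, map_add, map_smul] at h
  change xx _ _ _ _ + _ • cc K = xx a b c m * xx a' b' c' n - xx a' b' c' n * xx a b c m at h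
  have h2 := congrArg (fun z : U K => z • v) h
  simp only [add_smul, sub_smul, mul_smul, smul_assoc, cc_smul] at h2
  have h3 : xx a b c m • (xx a' b' c' n • v) - xx a' b' c' n • (xx a b c m • v) =
    xx (2 * (b * a' - a * b')) (a * c' - c * a') (2 * (c * b' - b * c')) (m + n) • v +
      (if m + n = 0 then (m : K) * (a * c' + c * a' + 2 * (b * b')) * κ else 0) • v := by
    rw [← h2]
    congr 1
    by_cases hmn : m + n = 0
    · simp only [hmn, if_true, smul_smul]
    · simp only [hmn, if_false, zero_smul]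
  rw [add_assoc, ← h3]
  abel

theorem xx_lin (a b c : K) (n : ℤ) :
    xx a b c n = a • xx 1 0 0 n + b • xx 0 1 0 n + c • xx 0 0 1 n := by
  unfold xx
  rw [← map_smul, ← map_smul, ← map_smul, ← map_add, ← map_add]
  congr 1
  ext1 <;> simp [Aff.mono]

/-- `e_n` -/
def eE (K : Type*) [Field K] (n : ℤ) : U K := xx 1 0 0 n
/-- `h_n` -/
def eH (K : Type*) [Field K] (n : ℤ) : U K := xx 0 1 0 n
/-- `f_n` -/
def eF (K : Type*) [Field K] (n : ℤ) : U K := xx 0 0 1 n

theorem xx_lin_smul (a b c : K) (n : ℤ) (v : V κ) :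
    xx a b c n • v = a • (eE K n • v) + b • (eH K n • v) + c • (eF K n • v) := by
  rw [xx_lin a b c n, add_smul, add_smul, smul_assoc, smul_assoc, smul_assoc]
  rfl

theorem smul_swap (r : K) (v : V κ) (z : U K) : z • (r • v) = r • (z • v) :=
  smul_comm _ _ _

/-- one factor -/
theorem one_key (a b c a' b' c' : K) (n : ℤ) (hn : 0 ≤ n) :
    xx a b c n • (xx a' b' c' (-1) • vac κ) =
      xx (2 * (b * a' - a * b')) (a * c' - c * a') (2 * (c * b' - b * c')) (n - 1) • vac κ +
      (if n = 1 then (a * c' + c * a' + 2 * (b * b')) * κ else 0) • vac κ := by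
  rw [xx_comm, xx_vac κ a b c n hn, smul_zero, zero_add, ← sub_eq_add_neg]
  congr 2
  by_cases h : n = 1
  · subst h; simp
  · rw [if_neg h, if_neg (by omega)]

/-- two factors -/
theorem two_key (a b c a' b' c' a2 b2 c2 : K) (n : ℤ) (hn : 0 ≤ n) :
    xx a b c n • (xx a' b' c' (-1) • (xx a2 b2 c2 (-1) • vac κ)) =
      xx a' b' c' (-1) •
        (xx (2 * (b * a2 - a * b2)) (a * c2 - c * a2) (2 * (c * b2 - b * c2)) (n - 1) • vac κ) +
      (if n = 1 then (a * c2 + c * a2 + 2 * (b * b2)) * κ else 0) •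
        (xx a' b' c' (-1) • vac κ) +
      xx (2 * (b * a' - a * b')) (a * c' - c * a') (2 * (c * b' - b * c')) (n - 1) •
        (xx a2 b2 c2 (-1) • vac κ) +
      (if n = 1 then (a * c' + c * a' + 2 * (b * b')) * κ else 0) •
        (xx a2 b2 c2 (-1) • vac κ) := by
  rw [xx_comm, one_key κ a b c a2 b2 c2 n hn, smul_add, smul_swap, ← sub_eq_add_neg]
  congr 2
  by_cases h : n = 1
  · subst h; simp
  · rw [if_neg h, if_neg (by omega)]

theorem sug_vac : sug K • vac κ = xx (1 : K) 0 0 (-1) • (xx (0 : K) 0 1 (-1) • vac κ) +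
    xx (0 : K) 0 1 (-1) • (xx (1 : K) 0 0 (-1) • vac κ) +
    (1 / 2 : K) • (xx (0 : K) 1 0 (-1) • (xx (0 : K) 1 0 (-1) • vac κ)) := by
  unfold sug
  rw [add_smul, add_smul, mul_smul, mul_smul, smul_assoc, mul_smul]

theorem eE_vac (n : ℤ) (hn : 0 ≤ n) : eE K n • vac κ = 0 := xx_vac κ _ _ _ n hn
theorem eH_vac (n : ℤ) (hn : 0 ≤ n) : eH K n • vac κ = 0 := xx_vac κ _ _ _ n hn
theorem eF_vac (n : ℤ) (hn : 0 ≤ n) : eF K n • vac κ = 0 := xx_vac κ _ _ _ n hn

theorem sug_key (h2 : (2 : K) ≠ 0) (a b c : K) (n : ℤ) (hn : 0 ≤ n) :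
    xx a b c n • (sug K • vac κ) = (2 * (κ + 2) * n) • (xx a b c (n - 2) • vac κ) := by
  rw [sug_vac, smul_add, smul_add, smul_swap, two_key κ _ _ _ _ _ _ _ _ _ n hn,
    two_key κ _ _ _ _ _ _ _ _ _ n hn, two_key κ _ _ _ _ _ _ _ _ _ n hn]
  by_cases h0 : n = 0
  · subst h0
    simp only [zero_sub, Int.cast_zero, mul_zero, zero_smul,
      if_neg (show ¬ ((0 : ℤ) = 1) by norm_num)]
    simp only [xx_lin_smul, smul_add, smul_swap]
    generalize eE K (-1) • (eE K (-1) • vac κ) = v1
    generalize eE K (-1) • (eH K (-1) • vac κ) = v2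
    generalize eE K (-1) • (eF K (-1) • vac κ) = v3
    generalize eH K (-1) • (eE K (-1) • vac κ) = v4
    generalize eH K (-1) • (eH K (-1) • vac κ) = v5
    generalize eH K (-1) • (eF K (-1) • vac κ) = v6
    generalize eF K (-1) • (eE K (-1) • vac κ) = v7
    generalize eF K (-1) • (eH K (-1) • vac κ) = v8
    generalize eF K (-1) • (eF K (-1) • vac κ) = v9
    match_scalars <;> field_simp <;> ring
  · have hn1 : 0 ≤ n - 1 := by omega
    rw [xx_vac κ _ _ _ (n - 1) hn1, xx_vac κ _ _ _ (n - 1) hn1, xx_vac κ _ _ _ (n - 1) hn1,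
      one_key κ _ _ _ _ _ _ (n - 1) hn1, one_key κ _ _ _ _ _ _ (n - 1) hn1,
      one_key κ _ _ _ _ _ _ (n - 1) hn1]
    by_cases h1 : n = 1
    · subst h1
      simp only [if_true, if_neg (show ¬ ((1 : ℤ) - 1 = 1) by norm_num), zero_sub,
        smul_zero, zero_smul, add_zero, zero_add, Int.cast_one, mul_one,
        show (1 : ℤ) - 1 - 1 = -1 by norm_num, show (1 : ℤ) - 2 = -1 by norm_num]
      simp only [xx_lin_smul, smul_add]
      generalize eE K (-1) • vac κ = v1
      generalize eH K (-1) • vac κ = v2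
      generalize eF K (-1) • vac κ = v3
      match_scalars <;> field_simp <;> ring
    · have hn2 : 0 ≤ n - 2 := by omega
      have hn3 : 0 ≤ n - 1 - 1 := by omega
      rw [xx_vac κ _ _ _ (n - 2) hn2, xx_vac κ _ _ _ (n - 1 - 1) hn3,
        xx_vac κ _ _ _ (n - 1 - 1) hn3, xx_vac κ _ _ _ (n - 1 - 1) hn3]
      simp only [if_neg h1, smul_zero, zero_smul, add_zero, zero_add]
      by_cases h3 : n - 1 = 1
      · simp only [if_pos h3]
        generalize vac κ = v1
        match_scalars
        field_simp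
        ring
      · simp only [if_neg h3, zero_smul, smul_zero, add_zero]

theorem t_SUG : S_SUG := by
  intro K _ κ h2
  set μ : K := -(2 * (κ + 2)) with hμ
  let w0 : V κ × V κ := (vac κ, sug K • vac κ)
  have hkill : ∀ z ∈ lid κ, Phi κ μ z w0 = 0 := by
    intro z hz
    refine Submodule.span_induction ?_ ?_ ?_ ?_ hz
    · rintro _ (⟨a, b, c, n, hn, rfl⟩ | h)
      · rw [xx, Phi_ι]
        refine Prod.ext ?_ ?_
        · rw [rho_fst]; exact xx_vac κ a b c n hn
        · rw [rho_snd, dl_mono, map_smul]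
          change xx a b c n • (sug K • vac κ) + ((μ * n) • xx a b c (n - 2)) • vac κ = 0
          rw [sug_key κ h2 a b c n hn, smul_assoc, ← add_smul, hμ]
          ring_nf
          simp
      · rw [Set.mem_singleton_iff.1 h, map_sub, LinearMap.sub_apply, cc, Phi_ι, AlgHom.commutes,
          Module.algebraMap_end_apply, sub_eq_zero]
        refine Prod.ext ?_ ?_
        · rw [rho_fst]; exact cc_vac κ
        · rw [rho_snd]
          have : dl μ (Aff.cen K) = 0 := by ext1 <;> simp [dl, Aff.cen]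
          rw [this, map_zero, zero_smul, add_zero]
          exact cc_smul κ _
    · rw [map_zero, LinearMap.zero_apply]
    · intro x y _ _ hx hy
      rw [map_add, LinearMap.add_apply, hx, hy, add_zero]
    · intro x y _ hy
      rw [smul_eq_mul, map_mul, Module.End.mul_apply, hy, map_zero]
  let D0 : U K →ₗ[K] V κ :=
    { toFun := fun z => (Phi κ μ z w0).2
      map_add' := fun x y => by simp
      map_smul' := fun r x => by simp }
  let D : V κ →ₗ[K] V κ :=
    (((lid κ).restrictScalars K).liftQ D0 (fun z hz => by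
      change (Phi κ μ z w0).2 = 0
      rw [hkill z hz]; rfl)) ∘ₗ (Submodule.Quotient.restrictScalarsEquiv K (lid κ)).symm.toLinearMap
  have hD : ∀ z : U K, D (z • vac κ) = (Phi κ μ z w0).2 := by
    intro z
    have h : z • vac κ = Submodule.Quotient.mk z := by
      unfold vac
      rw [← Submodule.Quotient.mk_smul, smul_eq_mul, mul_one]
    rw [h]
    rfl
  refine ⟨D, ?_, ?_⟩
  · have := hD 1
    rw [one_smul] at this
    rw [this, map_one]
    rfl
  · intro a b c n v
    obtain ⟨z, rfl⟩ := Submodule.Quotient.mk_surjective _ v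
    have h : (Submodule.Quotient.mk z : V κ) = z • vac κ := by
      unfold vac
      rw [← Submodule.Quotient.mk_smul, smul_eq_mul, mul_one]
    rw [h, ← mul_smul, hD, hD, map_mul, Module.End.mul_apply, xx, Phi_ι, rho_snd, Phi_fst,
      dl_mono, map_smul, smul_assoc, hμ]
    change _ + (-(2 * (κ + 2)) * n) • (xx a b c (n - 2) • z • vac κ) = _
    rw [neg_mul, neg_smul, ← sub_eq_add_neg]

end

end Pool.Agent.PVA
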