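import Pool.Agent.PVA.Stm2
import Pool.Agent.PVA.SUG

/-!
# Piece CEZ (helper61)
-/

set_option autoImplicit false

namespace Pool.Agent.PVA

attribute [local instance 100] LieRing.ofAssociativeRing

namespace CEZP

variable {K : Type} [Field K]

/-- the mode of a matrix -/
noncomputable def el (N : Matrix (Fin 2) (Fin 2) K) (m : ℤ) : U K :=
  xx (N 0 1) (N 0 0) (N 1 0) m

theorem xx_congr {a b c a' b' c' : K} {n n' : ℤ} (h1 : a = a') (h2 : b = b') (h3 : c = c')
    (h4 : n = n') : xx a b c n = xx a' b' c' n' := by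
  subst h1 h2 h3 h4; rfl

theorem step (P N : Matrix (Fin 2) (Fin 2) K) (hP : P 1 1 = - P 0 0) (hN : N 1 1 = - N 0 0)
    (n m : ℤ) : el P n * el N m - el N m * el P n =
      el (P * N - N * P) (n + m) + (if n + m = 0 then (n : K) * (P * N).trace else 0) • cc K := by
  have h := (UniversalEnvelopingAlgebra.ι K).map_lie (Aff.mono (P 0 1) (P 0 0) (P 1 0) n)
    (Aff.mono (N 0 1) (N 0 0) (N 1 0) m)
  rw [Aff.lie_mono, LieRing.of_associative_ring_bracket, map_add, map_smul] at h
  change xx _ _ _ _ + _ • cc K = el P n * el N m - el N m * el P n at h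
  rw [← h]
  have e1 : (P * N).trace = P 0 1 * N 1 0 + P 1 0 * N 0 1 + 2 * (P 0 0 * N 0 0) := by
    rw [Matrix.trace_fin_two]
    simp only [Matrix.mul_apply, Fin.sum_univ_two, hP, hN]
    ring
  rw [e1]
  congr 1
  unfold el
  refine xx_congr ?_ ?_ ?_ rfl
  · simp only [Matrix.sub_apply, Matrix.mul_apply, Fin.sum_univ_two, hP, hN]
    ring
  · simp only [Matrix.sub_apply, Matrix.mul_apply, Fin.sum_univ_two]
    ring
  · simp only [Matrix.sub_apply, Matrix.mul_apply, Fin.sum_univ_two, hP, hN]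
    ring

theorem cc_comm' (x : U K) : cc K * x = x * cc K := by
  refine uea_ind (P := fun x => cc K * x = x * cc K) ?_ ?_ ?_ ?_ x
  · intro y
    have h := (UniversalEnvelopingAlgebra.ι K).map_lie (Aff.cen K) y
    rw [Aff.lie_cen, map_zero, LieRing.of_associative_ring_bracket] at h
    exact (sub_eq_zero.1 h.symm)
  · intro r
    exact (Algebra.commutes r (cc K)).symm
  · intro x y hx hy
    rw [mul_add, hx, hy, add_mul]
  · intro x y hx hy
    rw [← mul_assoc, hx, mul_assoc, hy, mul_assoc]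

/-- the adjoint operator -/
noncomputable def ad {A : Type} [Ring A] [Algebra K A] (x : A) : Module.End K A :=
  LinearMap.mulLeft K x - LinearMap.mulRight K x

theorem ad_apply {A : Type} [Ring A] [Algebra K A] (x y : A) :
    ad (K := K) x y = x * y - y * x := rfl

theorem ad_pow {A : Type} [Ring A] [Algebra K A] [Nontrivial A] (p : ℕ) [Fact p.Prime]
    [CharP K p] (x y : A) : (ad (K := K) x ^ p) y = x ^ p * y - y * x ^ p := by
  have : CharP (Module.End K A) p :=
    charP_of_injective_algebraMap (algebraMap K (Module.End K A)).injective p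
  have h := sub_pow_char_of_commute (R := Module.End K A) (p := p)
    (LinearMap.commute_mulLeft_right (R := K) (A := A) x x)
  have e : ad (K := K) x = LinearMap.mulLeft K x - LinearMap.mulRight K x := rfl
  rw [e, h, LinearMap.pow_mulLeft, LinearMap.pow_mulRight]
  rfl

theorem tr_ad (M Z : Matrix (Fin 2) (Fin 2) K) : (M * ad (K := K) M Z).trace = 0 := by
  rw [ad_apply, mul_sub, Matrix.trace_sub, ← mul_assoc M Z M, Matrix.trace_mul_comm (M * Z) M,
    sub_self]

theorem ad_11 (M Z : Matrix (Fin 2) (Fin 2) K) :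
    (ad (K := K) M Z) 1 1 = - (ad (K := K) M Z) 0 0 := by
  rw [ad_apply]
  simp only [Matrix.sub_apply, Matrix.mul_apply, Fin.sum_univ_two]
  ring

theorem ad_cc (x : U K) : ad (K := K) x (cc K) = 0 := by
  rw [ad_apply, cc_comm', sub_self]

theorem iter (M N : Matrix (Fin 2) (Fin 2) K) (hM : M 1 1 = - M 0 0) (hN : N 1 1 = - N 0 0)
    (n m : ℤ) (k : ℕ) : (ad (K := K) (el M n) ^ (k + 2)) (el N m) =
      el ((ad (K := K) M ^ (k + 2)) N) ((k + 2 : ℕ) * n + m) := by
  induction k with
  | zero =>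
    rw [zero_add, pow_two, pow_two, Module.End.mul_apply, Module.End.mul_apply, ad_apply _ (el N m),
      step M N hM hN, map_add, map_smul, ad_cc, smul_zero, add_zero, ad_apply,
      step M (M * N - N * M) hM (ad_11 M N)]
    have h0 : (M * (M * N - N * M)).trace = 0 := tr_ad M N
    rw [h0, mul_zero, ite_self, zero_smul, add_zero]
    have e : n + (n + m) = ((2 : ℕ) : ℤ) * n + m := by push_cast; ring
    rw [e]
    rfl
  | succ k ih =>
    rw [pow_succ', Module.End.mul_apply, ih, ad_apply]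
    have e1 : (ad (K := K) M ^ (k + 2)) N = ad (K := K) M ((ad (K := K) M ^ (k + 1)) N) := by
      rw [pow_succ' _ (k + 1), Module.End.mul_apply]
    have h11 : ((ad (K := K) M ^ (k + 2)) N) 1 1 = - ((ad (K := K) M ^ (k + 2)) N) 0 0 := by
      rw [e1]; exact ad_11 _ _
    rw [step M _ hM h11]
    have h0 : (M * (ad (K := K) M ^ (k + 2)) N).trace = 0 := by
      rw [e1]; exact tr_ad _ _
    rw [h0, mul_zero, ite_self, zero_smul, add_zero]
    have e : n + (((k + 2 : ℕ) : ℤ) * n + m) = ((k + 1 + 2 : ℕ) : ℤ) * n + m := by push_cast; ring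
    rw [e, show k + 1 + 2 = (k + 2) + 1 from rfl, pow_succ' (ad (K := K) M) (k + 2),
      Module.End.mul_apply, ad_apply]

theorem trace_pow (a b c : K) (k : ℕ) :
    (!![b, a; c, -b] ^ (2 * k + 1) : Matrix (Fin 2) (Fin 2) K) 1 1 =
      -(!![b, a; c, -b] ^ (2 * k + 1) : Matrix (Fin 2) (Fin 2) K) 0 0 := by
  have h : (!![b, a; c, -b] ^ 2 : Matrix (Fin 2) (Fin 2) K) = (b ^ 2 + a * c) • 1 := by
    rw [sq]
    ext i j
    fin_cases i <;> fin_cases j <;> simp [Matrix.mul_apply, Fin.sum_univ_two] <;> ring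
  rw [pow_succ, pow_mul, h, smul_pow, one_pow, Matrix.smul_mul, Matrix.one_mul]
  simp

end CEZP

open CEZP in
theorem t_CEZ : S_CEZ := by
  intro K _ p _ _ hp a b c n u
  have hodd : ∃ j, p = 2 * j + 1 := by
    have := (Fact.out : p.Prime).eq_two_or_odd'
    rcases this with h | h
    · omega
    · exact h
  obtain ⟨j, hj⟩ := hodd
  let M : Matrix (Fin 2) (Fin 2) K := !![b, a; c, -b]
  have hM : M 1 1 = - M 0 0 := rfl
  have hMp : (M ^ p) 1 1 = - (M ^ p) 0 0 := by
    rw [hj]; exact trace_pow a b c j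
  have hX : xx a b c n = el M n := rfl
  have hpm : pmap p a b c n = el (M ^ p) (p * n) := rfl
  rw [hX, hpm]
  rcases subsingleton_or_nontrivial (U K) with hs | hs
  · exact Subsingleton.elim _ _
  obtain ⟨q, hq⟩ : ∃ q, p = q + 2 := ⟨p - 2, by omega⟩
  have key : ∀ (N : Matrix (Fin 2) (Fin 2) K) (hN : N 1 1 = - N 0 0) (m : ℤ),
      el N m * (el M n ^ p - el (M ^ p) (p * n)) = (el M n ^ p - el (M ^ p) (p * n)) * el N m := by
    intro N hN m
    have e1 := ad_pow (K := K) p (el M n) (el N m)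
    have e2 := iter M N hM hN n m q
    rw [← hq] at e2
    rw [e2, ad_pow (K := K) p M N] at e1
    have e3 := step (M ^ p) N hMp hN (p * n) m
    have e4 : (((p : ℤ) * n : ℤ) : K) = 0 := by
      push_cast
      rw [CharP.cast_eq_zero K p, zero_mul]
    rw [e4, zero_mul, ite_self, zero_smul, add_zero, e1] at e3
    rw [mul_sub, sub_mul, sub_eq_sub_iff_sub_eq_sub, ← neg_inj, neg_sub, neg_sub]
    exact e3.symm
  refine uea_ind (P := fun u => u * (el M n ^ p - el (M ^ p) (p * n)) =
    (el M n ^ p - el (M ^ p) (p * n)) * u) ?_ ?_ ?_ ?_ u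
  · intro y
    refine Aff.ind (P := fun y => UniversalEnvelopingAlgebra.ι K y *
      (el M n ^ p - el (M ^ p) (p * n)) = (el M n ^ p - el (M ^ p) (p * n)) *
        UniversalEnvelopingAlgebra.ι K y) ?_ ?_ ?_ y
    · intro x y hx hy
      rw [map_add, add_mul, mul_add, hx, hy]
    · intro a' b' c' m
      exact key !![b', a'; c', -b'] rfl m
    · intro r
      rw [map_smul, smul_mul_assoc, mul_smul_comm]
      congr 1
      exact cc_comm' _
  · intro r
    exact Algebra.commutes r _
  · intro x y hx hy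
    rw [add_mul, hx, hy, mul_add]
  · intro x y hx hy
    rw [mul_assoc, hy, ← mul_assoc, hx, mul_assoc]

end Pool.Agent.PVA
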