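import Pool.Agent.PVA.Stm

/-!
# Piece DM1 (helper63)
-/

set_option autoImplicit false

open MvPolynomial

namespace Pool.Agent.PVA

theorem t_DM1 : S_DM1 := by
  intro K _ h2
  have hh : (2 : R K) * C (2⁻¹ : K) = 1 := by
    have e : (2 : R K) = C (2 : K) := (map_ofNat C 2).symm
    rw [e, ← C_mul, mul_inv_cancel₀ h2, C_1]
  have h32 : (C (3 / 2 : K) : R K) = 3 * C (2⁻¹ : K) := by
    have e : (3 : R K) = C (3 : K) := (map_ofNat C 3).symm
    rw [e, ← C_mul, div_eq_mul_inv]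
  have h3 : (C (3 : K) : R K) = 3 := map_ofNat C 3
  have ha : (Int.toNat 2) = 2 := rfl
  have hb : (Int.toNat (-1)) = 0 := rfl
  simp only [DM, XM, Q, qq, xi, tau, crt, om, LinearMap.add_apply, LinearMap.mulLeft_apply, one_smul, zero_smul, add_zero, zero_add]
  norm_num [Finset.sum_range_succ, smul_eq_C_mul]
  rw [ha, hb]
  simp only [Finset.sum_range_succ, Finset.sum_range_zero]
  norm_num [h32, h3]
  rw [ha]
  linear_combination (X (true, 0) * X (false, 1) * (3 - 2 * C (2⁻¹ : K)) +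
    X (true, 1) * X (false, 0) * (2 * C (2⁻¹ : K) + 6) +
    X (true, 0) ^ 2 * X (false, 0) ^ 2 * C (2⁻¹ : K)) * hh

end Pool.Agent.PVA
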