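import Pool.Agent.PVA.Stm

/-!
# Project PVA, piece DMP (helper55): `ell (DM^p 1) ≠ 0` for `p ≥ 5`
-/

open MvPolynomial

namespace Pool.Agent.PVA

namespace DMPx

variable {K : Type*} [Field K]

theorem crt_hom (ε : Bool) (s : ℤ) : (crt K ε s).IsHomogeneous 1 := by
  unfold crt
  split_ifs
  · exact isHomogeneous_X _ _
  · exact isHomogeneous_zero _ _ _

theorem xi_hom (ε ε' : Bool) (c : ℤ → K) (n : ℤ) (i : Bool × ℕ) :
    (xi ε ε' c n (X i)).IsHomogeneous 1 := by
  unfold xi
  rw [mkDerivation_X]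
  have h : ∀ (r : K) (P : R K), P.IsHomogeneous 1 → (r • P).IsHomogeneous 1 := by
    intro r P hP
    rw [smul_eq_C_mul]
    have := (isHomogeneous_C (Bool × ℕ) r).mul hP
    simpa using this
  exact (h _ _ (crt_hom _ _)).add (h _ _ (crt_hom _ _))

theorem qq_hom (ε ε' : Bool) (c : ℤ → K) (n : ℤ) : (qq ε ε' c n).IsHomogeneous 2 := by
  unfold qq
  refine IsHomogeneous.sum _ _ _ fun i _ => ?_
  rw [smul_eq_C_mul]
  have := (isHomogeneous_C (Bool × ℕ) (c (-i - 1))).mul
    ((crt_hom (K := K) ε (-i - 1)).mul (crt_hom ε' (n + i)))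
  simpa using this

theorem tau_neg (ε ε' : Bool) (c : ℤ → K) (n : ℤ) (hn : n ≤ 0) : tau ε ε' c n = 0 := by
  unfold tau
  rw [Int.toNat_of_nonpos hn]
  simp

theorem DM_q (h2 : (2 : K) ≠ 0) : qq true false (fun s : ℤ => 3 * ((s : K) + 3 / 2)) (-2) =
    monomial (Finsupp.single (true, 0) 1 + Finsupp.single (false, 1) 1) (3 / 2 : K) +
      monomial (Finsupp.single (true, 1) 1 + Finsupp.single (false, 0) 1) (-(3 / 2) : K) := by
  have e1 : ∀ (i j : Bool × ℕ) (r : K), monomial (Finsupp.single i 1 + Finsupp.single j 1) r =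
      r • (X i * X j : R K) := by
    intro i j r
    rw [X, X, monomial_mul, smul_monomial]
    simp
  have c1 : crt K true (-1) = X (true, 0) := by
    unfold crt; rw [if_pos (by norm_num)]; rfl
  have c2 : crt K true (-2) = X (true, 1) := by
    unfold crt; rw [if_pos (by norm_num)]; rfl
  have c3 : crt K false (-1) = X (false, 0) := by
    unfold crt; rw [if_pos (by norm_num)]; rfl
  have c4 : crt K false (-2) = X (false, 1) := by
    unfold crt; rw [if_pos (by norm_num)]; rfl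
  rw [e1, e1]
  unfold qq
  have h3 : (-(-2 : ℤ)).toNat = 2 := rfl
  rw [h3, Finset.sum_range_succ, Finset.sum_range_one]
  have h4 : (-((0 : ℕ) : ℤ) - 1) = -1 := rfl
  have h5 : (-2 + ((0 : ℕ) : ℤ)) = -2 := rfl
  have h6 : (-((1 : ℕ) : ℤ) - 1) = -2 := rfl
  have h7 : (-2 + ((1 : ℕ) : ℤ)) = -1 := rfl
  rw [h4, h5, h6, h7, c1, c2, c3, c4]
  have h8 : (3 * (((-1 : ℤ) : K) + 3 / 2) : K) = 3 / 2 := by
    push_cast; field_simp; norm_num
  have h9 : (3 * (((-2 : ℤ) : K) + 3 / 2) : K) = -(3 / 2) := by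
    push_cast; field_simp; norm_num
  show (3 * (((-1 : ℤ) : K) + 3 / 2) : K) • _ + (3 * (((-2 : ℤ) : K) + 3 / 2) : K) • _ = _
  rw [h8, h9]

end DMPx

open DMPx in
theorem t_DMP (h : S_TOP) : S_DMP := by
  intro K _ p _ _ hp
  have hpp : p.Prime := Fact.out
  have h2 : (2 : K) ≠ 0 := by
    intro h0
    have : ((2 : ℕ) : K) = 0 := by exact_mod_cast h0
    rw [CharP.cast_eq_zero_iff K p] at this
    have := Nat.le_of_dvd (by norm_num) this
    omega
  have h3 : (3 : K) ≠ 0 := by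
    intro h0
    have : ((3 : ℕ) : K) = 0 := by exact_mod_cast h0
    rw [CharP.cast_eq_zero_iff K p] at this
    have := Nat.le_of_dvd (by norm_num) this
    omega
  have hodd : Odd p := hpp.odd_of_ne_two (by omega)
  obtain ⟨q, hq⟩ : ∃ q, q = qq true false (fun s : ℤ => 3 * ((s : K) + 3 / 2)) (-2) := ⟨_, rfl⟩
  obtain ⟨x, hx⟩ : ∃ x, x = xi true false (fun s : ℤ => 3 * ((s : K) + 3 / 2)) (-2) := ⟨_, rfl⟩
  have hDM : DM K = LinearMap.mulLeft K q + x.toLinearMap := by
    rw [hq, hx]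
    unfold DM Q
    rw [tau_neg _ _ _ _ (by norm_num), add_zero]
  have hT := h K q x (hq ▸ qq_hom _ _ _ _) (fun i => hx ▸ xi_hom _ _ _ _ i) p hpp.one_le
  have hc : ∀ d : Bool × ℕ →₀ ℕ, d.degree = 2 * p → coeff d ((DM K ^ p) 1) = coeff d (q ^ p) := by
    intro d hd
    by_contra hne
    have h4 := hT d (by rw [← hDM, coeff_sub]; exact sub_ne_zero.mpr hne)
    omega
  have hdeg : ∀ i j : Bool × ℕ, (Finsupp.single i p + Finsupp.single j p).degree = 2 * p := by
    intro i j
    rw [map_add, Finsupp.degree_single, Finsupp.degree_single]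
    ring
  have hqp : q ^ p =
      monomial (Finsupp.single (true, 0) p + Finsupp.single (false, 1) p) ((3 / 2 : K) ^ p) +
      monomial (Finsupp.single (true, 1) p + Finsupp.single (false, 0) p) ((-(3 / 2) : K) ^ p) := by
    rw [hq, DM_q h2, add_pow_char, monomial_pow, monomial_pow]
    simp [smul_add]
  have hne : (Finsupp.single ((true, 0) : Bool × ℕ) p + Finsupp.single (false, 1) p) ≠
      Finsupp.single (true, 1) p + Finsupp.single (false, 0) p := by
    intro h0
    have := DFunLike.congr_fun h0 (true, 0)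
    simp at this
    omega
  unfold ell
  rw [hc _ (hdeg _ _), hc _ (hdeg _ _), hqp, coeff_add, coeff_add, coeff_monomial, coeff_monomial,
    coeff_monomial, coeff_monomial, if_neg hne, if_pos rfl, if_pos rfl, if_neg hne.symm,
    hodd.neg_pow]
  intro h0
  have h5 : (2 : K) * (3 / 2) ^ p = 0 := by linear_combination -h0
  exact mul_ne_zero h2 (pow_ne_zero _ (div_ne_zero h3 h2)) h5

end Pool.Agent.PVA
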