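import Mathlib

/-!
# The affine Lie algebra of `sl_2`, its vacuum modules, their centres and `p`-centres

`Aff K` is the affine Lie algebra of `sl_2` over `K`: an element `(e, h, f, z)` is the matrix
`[[h, e], [f, -h]]` in `sl_2(K[T, T⁻¹])` together with the multiple `z` of the central element.
-/

open LaurentPolynomial

namespace Pool.Agent.PVA

variable {K : Type*} [Field K]

/-- The derivation `T d/dT` of the ring of Laurent polynomials. -/
noncomputable def theta (K : Type*) [Field K] : K[T;T⁻¹] →ₗ[K] K[T;T⁻¹] :=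
  (AddMonoidAlgebra.basis ℤ K).constr K fun n => (n : K) • (T n : K[T;T⁻¹])

theorem theta_T (n : ℤ) : theta K (T n) = (n : K) • (T n : K[T;T⁻¹]) := by
  have := (AddMonoidAlgebra.basis ℤ K).constr_basis K (fun n : ℤ => (n : K) • (T n : K[T;T⁻¹])) n
  rw [← this]
  rfl

/-- The constant coefficient. -/
noncomputable def ct (K : Type*) [Field K] : K[T;T⁻¹] →ₗ[K] K where
  toFun a := a.coeff 0
  map_add' _ _ := rfl
  map_smul' _ _ := rfl

theorem ct_T (n : ℤ) : ct K (T n) = if n = 0 then 1 else 0 := by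
  change (T n : K[T;T⁻¹]).coeff 0 = _
  simp

theorem lin_ext {M : Type*} [AddCommGroup M] [Module K M] {a b : K[T;T⁻¹] →ₗ[K] M}
    (h : ∀ n : ℤ, a (T n) = b (T n)) : a = b :=
  (AddMonoidAlgebra.basis ℤ K).ext fun n => h n

theorem theta_mul (a b : K[T;T⁻¹]) :
    theta K (a * b) = theta K a * b + a * theta K b := by
  induction a using LaurentPolynomial.induction_on' with
  | add a a' ha ha' => simp only [add_mul, map_add, ha, ha']; ring
  | C_mul_T n c =>
    induction b using LaurentPolynomial.induction_on' with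
    | add b b' hb hb' => simp only [mul_add, map_add, hb, hb']; ring
    | C_mul_T m d =>
      have h1 : ∀ (c : K) (n : ℤ), (C c * T n : K[T;T⁻¹]) = c • T n := fun c n => by
        rw [smul_eq_C_mul]
      simp only [h1, smul_mul_assoc, mul_smul_comm, map_smul, ← T_add, theta_T]
      push_cast
      module

theorem ct_theta (a : K[T;T⁻¹]) : ct K (theta K a) = 0 := by
  have : (ct K) ∘ₗ (theta K) = 0 := lin_ext fun n => by
    simp only [LinearMap.comp_apply, theta_T, map_smul, ct_T, LinearMap.zero_apply]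
    by_cases h : n = 0 <;> simp [h]
  exact LinearMap.congr_fun this a

/-- The affine Lie algebra of `sl_2`, as a vector space. -/
@[ext] structure Aff (K : Type*) [Field K] where
  /-- coefficient of `e` -/
  e : K[T;T⁻¹]
  /-- coefficient of `h` -/
  h : K[T;T⁻¹]
  /-- coefficient of `f` -/
  f : K[T;T⁻¹]
  /-- coefficient of the central element -/
  z : K

noncomputable section

namespace Aff

/-- coordinates -/
def toProd (x : Aff K) : K[T;T⁻¹] × K[T;T⁻¹] × K[T;T⁻¹] × K := (x.e, x.h, x.f, x.z)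

theorem toProd_injective : Function.Injective (toProd (K := K)) := by
  intro x y h
  simp only [toProd, Prod.mk.injEq] at h
  exact Aff.ext h.1 h.2.1 h.2.2.1 h.2.2.2

instance : Zero (Aff K) := ⟨⟨0, 0, 0, 0⟩⟩
instance : Add (Aff K) := ⟨fun x y => ⟨x.e + y.e, x.h + y.h, x.f + y.f, x.z + y.z⟩⟩
instance : Neg (Aff K) := ⟨fun x => ⟨-x.e, -x.h, -x.f, -x.z⟩⟩
instance : Sub (Aff K) := ⟨fun x y => ⟨x.e - y.e, x.h - y.h, x.f - y.f, x.z - y.z⟩⟩
instance {S : Type*} [Monoid S] [DistribMulAction S K[T;T⁻¹]] [DistribMulAction S K] :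
    SMul S (Aff K) := ⟨fun r x => ⟨r • x.e, r • x.h, r • x.f, r • x.z⟩⟩

instance : AddCommGroup (Aff K) :=
  toProd_injective.addCommGroup toProd rfl (fun _ _ => rfl) (fun _ => rfl) (fun _ _ => rfl)
    (fun _ _ => rfl) (fun _ _ => rfl)

/-- coordinates, additively -/
def toProdHom : Aff K →+ K[T;T⁻¹] × K[T;T⁻¹] × K[T;T⁻¹] × K where
  toFun := toProd
  map_zero' := rfl
  map_add' _ _ := rfl

instance : Module K (Aff K) :=
  toProd_injective.module K toProdHom (fun _ _ => rfl)

@[simp] theorem add_e (x y : Aff K) : (x + y).e = x.e + y.e := rfl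
@[simp] theorem add_h (x y : Aff K) : (x + y).h = x.h + y.h := rfl
@[simp] theorem add_f (x y : Aff K) : (x + y).f = x.f + y.f := rfl
@[simp] theorem add_z (x y : Aff K) : (x + y).z = x.z + y.z := rfl
@[simp] theorem zero_e : (0 : Aff K).e = 0 := rfl
@[simp] theorem zero_h : (0 : Aff K).h = 0 := rfl
@[simp] theorem zero_f : (0 : Aff K).f = 0 := rfl
@[simp] theorem zero_z : (0 : Aff K).z = 0 := rfl
@[simp] theorem smul_e (r : K) (x : Aff K) : (r • x).e = r • x.e := rfl
@[simp] theorem smul_h (r : K) (x : Aff K) : (r • x).h = r • x.h := rfl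
@[simp] theorem smul_f (r : K) (x : Aff K) : (r • x).f = r • x.f := rfl
@[simp] theorem smul_z (r : K) (x : Aff K) : (r • x).z = r • x.z := rfl

/-- The bracket of the affine Lie algebra: the commutator of matrices over `K[T, T⁻¹]`, and the
cocycle `Res tr (dx y)`, which is `m <x, y>` on `(x T^m, y T^(-m))`. -/
noncomputable instance : Bracket (Aff K) (Aff K) where
  bracket x y :=
    ⟨2 * (x.h * y.e - x.e * y.h), x.e * y.f - x.f * y.e, 2 * (x.f * y.h - x.h * y.f),
      ct K (theta K x.e * y.f + theta K x.f * y.e + 2 * (theta K x.h * y.h))⟩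

@[simp] theorem lie_e (x y : Aff K) : ⁅x, y⁆.e = 2 * (x.h * y.e - x.e * y.h) := rfl
@[simp] theorem lie_h (x y : Aff K) : ⁅x, y⁆.h = x.e * y.f - x.f * y.e := rfl
@[simp] theorem lie_f (x y : Aff K) : ⁅x, y⁆.f = 2 * (x.f * y.h - x.h * y.f) := rfl
@[simp] theorem lie_z (x y : Aff K) : ⁅x, y⁆.z =
    ct K (theta K x.e * y.f + theta K x.f * y.e + 2 * (theta K x.h * y.h)) := rfl

theorem C_two : (C (2 : K) : K[T;T⁻¹]) = 2 := map_ofNat C 2

theorem theta_two_mul (a : K[T;T⁻¹]) : theta K (2 * a) = 2 * theta K a := by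
  rw [two_mul, map_add, two_mul]

noncomputable instance : LieRing (Aff K) where
  add_lie x y w := by
    ext1
    · simp; ring
    · simp; ring
    · simp; ring
    · rw [add_z, lie_z, lie_z, lie_z, ← map_add]
      congr 1
      rw [add_e, add_f, add_h, map_add, map_add, map_add]; ring
  lie_add x y w := by
    ext1
    · simp; ring
    · simp; ring
    · simp; ring
    · rw [add_z, lie_z, lie_z, lie_z, ← map_add]
      congr 1
      rw [add_e, add_f, add_h]; ring
  lie_self x := by
    ext1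
    · rw [lie_e, zero_e]; ring
    · rw [lie_h, zero_h]; ring
    · rw [lie_f, zero_f]; ring
    · rw [lie_z, zero_z]
      have : theta K x.e * x.f + theta K x.f * x.e + 2 * (theta K x.h * x.h) =
          theta K (x.e * x.f + x.h * x.h) := by
        rw [map_add, theta_mul, theta_mul]; ring
      rw [this, ct_theta]
  leibniz_lie x y w := by
    ext1
    · simp; ring
    · simp; ring
    · simp; ring
    · rw [add_z, lie_z, lie_z, lie_z, ← map_add]
      congr 1
      simp only [lie_e, lie_h, lie_f, theta_two_mul, map_sub]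
      simp only [theta_mul]
      ring

noncomputable instance : LieAlgebra K (Aff K) where
  lie_smul r x y := by
    ext1
    · simp [smul_eq_C_mul]; ring
    · simp [smul_eq_C_mul]; ring
    · simp [smul_eq_C_mul]; ring
    · rw [smul_z, lie_z, lie_z, ← map_smul]
      congr 1
      simp [smul_eq_C_mul]; ring

/-- The element `x_n = T^n x` for `x = a e + b h + c f`. -/
noncomputable def mono (a b c : K) (n : ℤ) : Aff K := ⟨a • T n, b • T n, c • T n, 0⟩

/-- The central element `c`. -/
noncomputable def cen (K : Type*) [Field K] : Aff K := ⟨0, 0, 0, 1⟩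

/-- The relations `[x_m, y_n] = [x, y]_{m+n} + m δ_{m+n,0} <x, y> c`. -/
theorem lie_mono (a b c a' b' c' : K) (m n : ℤ) :
    ⁅mono a b c m, mono a' b' c' n⁆ =
      mono (2 * (b * a' - a * b')) (a * c' - c * a') (2 * (c * b' - b * c')) (m + n) +
        (if m + n = 0 then (m : K) * (a * c' + c * a' + 2 * (b * b')) else 0) • cen K := by
  ext1
  · simp only [lie_e, mono, cen, add_e, smul_e, smul_zero, add_zero, T_add, smul_eq_C_mul,
      map_mul, map_sub, C_two]
    ring
  · simp only [lie_h, mono, cen, add_h, smul_h, smul_zero, add_zero, T_add, smul_eq_C_mul,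
      map_mul, map_sub]
    ring
  · simp only [lie_f, mono, cen, add_f, smul_f, smul_zero, add_zero, T_add, smul_eq_C_mul,
      map_mul, map_sub, C_two]
    ring
  · simp only [lie_z, mono, cen, add_z, smul_z, zero_add, map_smul, theta_T]
    have : (a • (m : K) • (T m : K[T;T⁻¹])) * (c' • T n) + (c • (m : K) • T m) * (a' • T n) +
        2 * ((b • (m : K) • T m) * (b' • T n)) =
        ((m : K) * (a * c' + c * a' + 2 * (b * b'))) • T (m + n) := by
      simp only [T_add, smul_eq_C_mul, map_mul, map_add, C_two]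
      ring
    rw [this, map_smul, ct_T]
    by_cases h : m + n = 0 <;> simp [h]

theorem lie_cen (x : Aff K) : ⁅cen K, x⁆ = 0 := by
  ext1 <;> simp [cen]

/-- induction principle -/
theorem ind {P : Aff K → Prop} (hadd : ∀ x y, P x → P y → P (x + y))
    (hm : ∀ a b c n, P (mono a b c n)) (hc : ∀ r : K, P (r • cen K)) (x : Aff K) : P x := by
  have h1 : ∀ a : K[T;T⁻¹], P ⟨a, 0, 0, 0⟩ := fun a => by
    induction a using LaurentPolynomial.induction_on' with
    | add a b ha hb =>
      have := hadd _ _ ha hb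
      have h2 : (⟨a, 0, 0, 0⟩ : Aff K) + ⟨b, 0, 0, 0⟩ = ⟨a + b, 0, 0, 0⟩ := by ext1 <;> simp
      rwa [h2] at this
    | C_mul_T n r =>
      have := hm r 0 0 n
      have h2 : mono r 0 0 n = ⟨C r * T n, 0, 0, 0⟩ := by ext1 <;> simp [mono, smul_eq_C_mul]
      rwa [h2] at this
  have h2 : ∀ a : K[T;T⁻¹], P ⟨0, a, 0, 0⟩ := fun a => by
    induction a using LaurentPolynomial.induction_on' with
    | add a b ha hb =>
      have := hadd _ _ ha hb
      have h2 : (⟨0, a, 0, 0⟩ : Aff K) + ⟨0, b, 0, 0⟩ = ⟨0, a + b, 0, 0⟩ := by ext1 <;> simp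
      rwa [h2] at this
    | C_mul_T n r =>
      have := hm 0 r 0 n
      have h2 : mono 0 r 0 n = ⟨0, C r * T n, 0, 0⟩ := by ext1 <;> simp [mono, smul_eq_C_mul]
      rwa [h2] at this
  have h3 : ∀ a : K[T;T⁻¹], P ⟨0, 0, a, 0⟩ := fun a => by
    induction a using LaurentPolynomial.induction_on' with
    | add a b ha hb =>
      have := hadd _ _ ha hb
      have h2 : (⟨0, 0, a, 0⟩ : Aff K) + ⟨0, 0, b, 0⟩ = ⟨0, 0, a + b, 0⟩ := by ext1 <;> simp
      rwa [h2] at this
    | C_mul_T n r =>
      have := hm 0 0 r n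
      have h2 : mono 0 0 r n = ⟨0, 0, C r * T n, 0⟩ := by ext1 <;> simp [mono, smul_eq_C_mul]
      rwa [h2] at this
  have h4 : x = ⟨x.e, 0, 0, 0⟩ + ⟨0, x.h, 0, 0⟩ + ⟨0, 0, x.f, 0⟩ + x.z • cen K := by
    ext1 <;> simp [cen]
  rw [h4]
  exact hadd _ _ (hadd _ _ (hadd _ _ (h1 _) (h2 _)) (h3 _)) (hc _)

end Aff

/-- The enveloping algebra of the affine Lie algebra. -/
abbrev U (K : Type*) [Field K] := UniversalEnvelopingAlgebra K (Aff K)

/-- The element `x_n` of the enveloping algebra, for `x = a e + b h + c f`. -/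
noncomputable def xx (a b c : K) (n : ℤ) : U K :=
  UniversalEnvelopingAlgebra.ι K (Aff.mono a b c n)

/-- The central element `c` in the enveloping algebra. -/
noncomputable def cc (K : Type*) [Field K] : U K := UniversalEnvelopingAlgebra.ι K (Aff.cen K)

/-- The left ideal generated by `x_n` (`n ≥ 0`) and `c - κ`. -/
def lid (κ : K) : Submodule (U K) (U K) :=
  Submodule.span (U K) ({u | ∃ a b c : K, ∃ n : ℤ, 0 ≤ n ∧ u = xx a b c n} ∪
    {cc K - algebraMap K (U K) κ})

/-- The vacuum module `V^κ`, that is the quotient of `U(g)` by the left ideal generated by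
`x_n` (`n ≥ 0`) and `c - κ`, which is the module induced from the character of
`K[t] ⊗ sl_2 + K c` given by `0` and `κ`. -/
abbrev V (κ : K) := U K ⧸ lid κ

/-- The vacuum vector. -/
def vac (κ : K) : V κ := Submodule.Quotient.mk 1

/-- The `l`-th product of the field `X(z) = ∑ x_n z^(-n-1)`, `x = a e + b h + c f`, with a field
`Y(z) = ∑ Y_n z^(-n-1)`:
`(X_(l) Y)_n = ∑_(j ≥ 0) (-1)^j (l choose j) (x_(l-j) Y_(n+j) - (-1)^l Y_(n+l-j) x_j)`. -/
noncomputable def nprod (κ : K) (a b c : K) (l : ℤ) (Y : ℤ → V κ → V κ) : ℤ → V κ → V κ :=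
  fun n v => ∑ᶠ j : ℕ, ((-1) ^ j * Ring.choose l j : ℤ) •
    (xx a b c (l - j) • Y (n + j) v -
      ((Int.negOnePow l : ℤˣ) : ℤ) • Y (n + l - j) (xx a b c j • v))

/-- `StateField κ u Y` says that `Y(z) = ∑ Y_n z^(-n-1)` is the field of the vector `u` of the
vertex algebra `V^κ`: the field of the vacuum is the identity, the field of `x_l u` is the `l`-th
product of `X(z)` with the field of `u`, and the field is linear in the vector. -/
inductive StateField (κ : K) : V κ → (ℤ → V κ → V κ) → Prop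
  | vac : StateField κ (vac κ) (fun n v => if n = -1 then v else 0)
  | act (a b c : K) (l : ℤ) {u : V κ} {Y : ℤ → V κ → V κ} :
      StateField κ u Y → StateField κ (xx a b c l • u) (nprod κ a b c l Y)
  | add {u u' : V κ} {Y Y' : ℤ → V κ → V κ} : StateField κ u Y → StateField κ u' Y' →
      StateField κ (u + u') (fun n v => Y n v + Y' n v)
  | smul (r : K) {u : V κ} {Y : ℤ → V κ → V κ} : StateField κ u Y →
      StateField κ (r • u) (fun n v => r • Y n v)

/-- The centre of the vertex algebra `V^κ`: the `v` with `Y(u, z) v ∈ V[[z]]` for all `u`. -/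
def centre (κ : K) : Set (V κ) :=
  {v | ∀ u Y, StateField κ u Y → ∀ n : ℤ, 0 ≤ n → Y n v = 0}

/-- The element `(x^[p])_(pn)`, for `x = a e + b h + c f`, where `x^[p]` is the `p`-th power of the
matrix `x`. -/
noncomputable def pmap (p : ℕ) (a b c : K) (n : ℤ) : U K :=
  let M : Matrix (Fin 2) (Fin 2) K := !![b, a; c, -b] ^ p
  xx (M 0 1) (M 0 0) (M 1 0) (p * n)

/-- The subalgebra generated by the elements `(x_n)^p - (x_n)^[p]`. -/
noncomputable def Z0 (K : Type*) [Field K] (p : ℕ) : Subalgebra K (U K) :=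
  Algebra.adjoin K {u | ∃ a b c : K, ∃ n : ℤ, u = xx a b c n ^ p - pmap p a b c n}

/-- The `p`-centre of `V^κ`. -/
def pCentre (p : ℕ) (κ : K) : Set (V κ) := {v | ∃ z ∈ Z0 K p, v = z • vac κ}

end

end Pool.Agent.PVA
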