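import Pool.Agent.PVA.Stm

/-!
# Second part: every level `κ ≠ -2` and every odd `p`

Non-membership of `D^p |0>` in the `p`-centre by a map `V^κ → W`, `W = K[X] × K[X]`, which is
linear over the negative modes: `e_(-1)` acts by `d/dX`, `f_(-1)` by `X`, `h_(-1)` by `0`, `h_(-2)`
by `1`, all other negative modes by `0`.
-/

open Polynomial

namespace Pool.Agent.PVA

noncomputable section

/-- Operators of the negative modes on `K[X]`. -/
def op (K : Type*) [Field K] (a b c : K) (n : ℤ) : K[X] →ₗ[K] K[X] :=
  if n = -1 then a • Polynomial.derivative + c • LinearMap.mulLeft K (X : K[X])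
  else if n = -2 then b • LinearMap.id else 0

/-- **Piece MUL** (150 lines). Complementary subalgebras and the enveloping algebra (PBW).
Proof. Take bases of `A` and `B` (`Module.Basis.ofVectorSpace`, with linear orders on the index
types, `IsWellOrder`/`linearOrderOfSTO` of `WellOrderingRel`), and the basis of `L` indexed by
`IA ⊕ₗ IB` (from `Submodule.prodEquivOfIsCompl`).  Apply
`Pool.Agent.R693.PBW.exists_basis` (file Pool/Agent/R693/R/PBW.lean, starting file) to `A`, `B`, `L`.
A sorted list over `IA ⊕ₗ IB` is `l₁.map inl ++ l₂.map inr` with `l₁`, `l₂` sorted, so the basis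
vector of `L` is (image of the basis vector `l₁` of `U A`) * (image of the basis vector `l₂` of
`U B`).  Define `F` on this basis by `F = χ (β_B l₂) • Φ (β_A l₁) w`; by bilinearity
`F (map a * map b) = χ b • Φ a w` for all `a : U A`, `b : U B`; the products `map a * map b` span,
and left multiplication by `A`, right multiplication by `B` are visible on them. -/
def S_MUL : Prop := ∀ (K : Type) [Field K] (L : Type) [LieRing L] [LieAlgebra K L]
  (A B : LieSubalgebra K L), IsCompl A.toSubmodule B.toSubmodule →
  ∀ (χ : UniversalEnvelopingAlgebra K B →ₐ[K] K) (W : Type) [AddCommGroup W] [Module K W]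
    (Φ : UniversalEnvelopingAlgebra K A →ₐ[K] Module.End K W) (w : W),
    ∃ F : UniversalEnvelopingAlgebra K L →ₗ[K] W, F 1 = w ∧
      (∀ (a : A) (u : UniversalEnvelopingAlgebra K L),
        F (UniversalEnvelopingAlgebra.ι K (a : L) * u) =
          Φ (UniversalEnvelopingAlgebra.ι K a) (F u)) ∧
      ∀ (b : B) (u : UniversalEnvelopingAlgebra K L),
        F (u * UniversalEnvelopingAlgebra.ι K (b : L)) =
          χ (UniversalEnvelopingAlgebra.ι K b) • F u

/-- **Piece THE** (120 lines; uses MUL). The map `V^κ → W`. Proof: in `Aff K` let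
`A` be the span of the `mono a b c n` with `n < 0` and `B` the span of those with `n ≥ 0` and of
`cen K` (subalgebras by `lie_mono`; complementary: use e.g. the linear projection of `Aff K` to the
negative part, cutting the coefficients of the Laurent polynomials); `χ` of `B` is `0` on
`mono`, `κ` on `cen` (that is `κ * z`, a Lie homomorphism `B → K` because `ct`-cocycle of two
nonnegative elements is `0`: `m <x,y>` with `m + n = 0`, `m, n ≥ 0`, so `m = 0`); `Φ` of `A` is given
by `op` on both factors of `K[X] × K[X]` (only the coefficients of `T^(-1)`, `T^(-2)` enter).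
`F` kills the left ideal `lid κ`. -/
def S_THE : Prop := ∀ (K : Type) [Field K] (κ : K) (w : K[X] × K[X]),
  ∃ θ : V κ →ₗ[K] K[X] × K[X], θ (vac κ) = w ∧
    ∀ (a b c : K) (n : ℤ) (v : V κ), n < 0 →
      θ (xx a b c n • v) = (op K a b c n (θ v).1, op K a b c n (θ v).2)

/-- **Piece SPN** (60 lines). `V^κ` is spanned by the products of negative modes applied to the
vacuum. Proof: the intersection `S` of all subspaces `N` containing `vac` and stable under the
negative modes (or `N = ⊤`-criterion below): let `N` be the span of the words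
`x_1 ... x_k vac` with negative modes; by induction on `k`, for all `n : ℤ`, `x_n` maps such a word
into `N` (move `x_n` to the right with `xx_comm` of SUG.lean, which gives
`x_m y_n v = y_n x_m v + [x,y]_(m+n) v + scalar v`); so `N` is stable under all `xx` and under
`cc`, hence under `U K` (`uea_ind`, `Aff.ind`) and `N = ⊤`; finally `N ≤ M`. -/
def S_SPN : Prop := ∀ (K : Type) [Field K] (κ : K) (M : Submodule K (V κ)), vac κ ∈ M →
  (∀ (a b c : K) (n : ℤ) (v : V κ), n < 0 → v ∈ M → xx a b c n • v ∈ M) → M = ⊤

/-- **Piece CEZ** (100 lines). The elements `(x_n)^p - (x_n)^[p]` are central in `U K`.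
Proof: `[x^p, y] = (ad x)^p y` (`sub_pow_char_of_commute` for left and right multiplication);
`(ad x_n)^k y_m = ((ad x)^k y)_(m + k n)` up to a multiple of `cen` for `k = 1` and exactly for
`k ≥ 2` (`<x, [x, ·]> = 0`), by `lie_mono`; `(ad x)^p = ad (x^p)` for matrices; and
`[x^[p]_(pn), y_m]` has central term `p n <..> = 0`. (`Pool/Agent/PVA/ZMU.lean` has similar
computations.) -/
def S_CEZ : Prop := ∀ (K : Type) [Field K] (p : ℕ) [Fact p.Prime] [CharP K p], 3 ≤ p →
  ∀ (a b c : K) (n : ℤ) (u : U K),
    u * (xx a b c n ^ p - pmap p a b c n) = (xx a b c n ^ p - pmap p a b c n) * u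

/-- **Piece ZDI** (80 lines; uses CEZ). On the `p`-centre the map `θ` of THE takes values in the
pairs `(g, X g)`, if `w = (1, X)`.  Proof: `Algebra.adjoin_induction` for the property
`∀ v, (θ v is of the form (g, X g)) and v ∈ (centre-image) ...`; concretely show by
`Algebra.adjoin_induction` that for `z ∈ Z0` and every `v` in
`N = {v | (θ v).2 = X * (θ v).1 ∧ ∀ a b c n, 0 ≤ n → G_n v = 0}` (`G_n` the generators) also
`z • v ∈ N`: for `n < 0`, `θ (G_n v) = T^p (θ v)` with `T = op a b c n` (the modes `p n ≤ -3` act by
`0`) and `T^p` commutes with `X` (`[T, X] = a` is a scalar, `[T^p, X] = p a T^(p-1) = 0`); for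
`n ≥ 0`, `G_n v = 0`; the second condition is preserved because the `G_n` are central (CEZ);
`vac ∈ N`. -/
def S_ZDI : Prop := ∀ (K : Type) [Field K] (p : ℕ) [Fact p.Prime] [CharP K p], 3 ≤ p →
  ∀ (κ : K) (θ : V κ →ₗ[K] K[X] × K[X]), θ (vac κ) = (1, X) →
    (∀ (a b c : K) (n : ℤ) (v : V κ), n < 0 →
      θ (xx a b c n • v) = (op K a b c n (θ v).1, op K a b c n (θ v).2)) →
    ∀ z ∈ Z0 K p, (θ (z • vac κ)).2 = X * (θ (z • vac κ)).1

/-- **Piece FI2** (80 lines; helper21). The theorem for every level `κ ≠ -2`: in fact for `κ = -2`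
too, but there it is not of interest. -/
def S_FI2 : Prop := ∀ (K : Type) [Field K] (p : ℕ) [Fact p.Prime] [CharP K p], 3 ≤ p →
  ∀ κ : K, ∃ v ∈ centre κ, v ∉ pCentre p κ

end

end Pool.Agent.PVA
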