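import Pool.Agent.PVA.SUG
import Pool.Agent.PVA.Stm2

/-!
# Piece FI2: assembly of part 2
-/

open Polynomial

namespace Pool.Agent.PVA

noncomputable section

namespace FI2

/-- linear over the negative modes -/
def Eqv {K : Type} [Field K] (κ : K) (θ : V κ →ₗ[K] K[X] × K[X]) : Prop :=
  ∀ (a b c : K) (n : ℤ) (v : V κ), n < 0 →
      θ (xx a b c n • v) = (op K a b c n (θ v).1, op K a b c n (θ v).2)

/-- the operator -/
def EE (K : Type) [Field K] : Module.End K K[X] :=
  Polynomial.derivative ∘ₗ LinearMap.mulLeft K (X : K[X]) +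
    LinearMap.mulLeft K (X : K[X]) ∘ₗ Polynomial.derivative

theorem step {K : Type} [Field K] (κ : K) (hSPN : S_SPN) (D : V κ →ₗ[K] V κ) (hD : IsD κ D)
    (θ θ' : V κ →ₗ[K] K[X] × K[X]) (h : Eqv κ θ) (h' : Eqv κ θ')
    (hv : θ' (vac κ) = (EE K (θ (vac κ)).1, EE K (θ (vac κ)).2)) (v : V κ) :
    θ (D v) = θ' v := by
  let M : Submodule K (V κ) := LinearMap.eqLocus (θ ∘ₗ D) θ'
  have hM : M = ⊤ := by
    refine hSPN K κ M ?_ ?_
    · change θ (D (vac κ)) = θ' (vac κ)
      have hz : (op K 0 1 0 (-1) : K[X] →ₗ[K] K[X]) = 0 := by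
        unfold op; simp
      have hd : (op K 1 0 0 (-1) : K[X] →ₗ[K] K[X]) = Polynomial.derivative := by
        unfold op; simp
      have hx : (op K 0 0 1 (-1) : K[X] →ₗ[K] K[X]) = LinearMap.mulLeft K (X : K[X]) := by
        unfold op; simp
      rw [hD.1, sug_vac, map_add, map_add, θ.map_smul, h _ _ _ _ _ (by norm_num),
        h _ _ _ _ _ (by norm_num), h _ _ _ _ _ (by norm_num), h _ _ _ _ _ (by norm_num),
        h _ _ _ _ _ (by norm_num), h _ _ _ _ _ (by norm_num), hz, hd, hx, hv]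
      simp [EE]
    · intro a b c n v hn hvM
      change θ (D (xx a b c n • v)) = θ' (xx a b c n • v)
      change θ (D v) = θ' v at hvM
      have hz : (op K a b c (n - 2) : K[X] →ₗ[K] K[X]) = 0 := by
        unfold op
        rw [if_neg (by omega), if_neg (by omega)]
      rw [hD.2, map_sub, θ.map_smul, h _ _ _ _ _ hn, h _ _ _ _ _ (by omega), h' _ _ _ _ _ hn,
        hvM, hz]
      simp
  have : v ∈ M := by rw [hM]; trivial
  exact this

theorem pow {K : Type} [Field K] (κ : K) (hSPN : S_SPN) (hTHE : S_THE) (D : V κ →ₗ[K] V κ)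
    (hD : IsD κ D) (k : ℕ) : ∀ (θ : V κ →ₗ[K] K[X] × K[X]), Eqv κ θ →
    θ ((D ^ k) (vac κ)) = ((EE K ^ k) (θ (vac κ)).1, (EE K ^ k) (θ (vac κ)).2) := by
  induction k with
  | zero => intro θ _; simp
  | succ k ih =>
    intro θ h
    obtain ⟨θ', h1, h2⟩ := hTHE K κ (EE K (θ (vac κ)).1, EE K (θ (vac κ)).2)
    rw [pow_succ', Module.End.mul_apply, step κ hSPN D hD θ θ' h h2 h1, ih θ' h2, h1, pow_succ,
      Module.End.mul_apply, Module.End.mul_apply]

end FI2

open FI2

theorem t_FI2 (hCEN : S_CEN) (hINV : S_INV) (hTHE : S_THE) (hSPN : S_SPN) (hZDI : S_ZDI) :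
    S_FI2 := by
  intro K _ p _ _ hp κ
  have h2 : (2 : K) ≠ 0 := by
    intro h
    have h1 : ((2 : ℕ) : K) = 0 := by exact_mod_cast h
    rw [CharP.cast_eq_zero_iff K p] at h1
    exact absurd (Nat.le_of_dvd (by norm_num) h1) (by omega)
  obtain ⟨D, hD⟩ := t_SUG K κ h2
  refine ⟨(D ^ p) (vac κ), hINV K _ _ (fun a b c n hn => hCEN K p κ D hp hD a b c n hn), ?_⟩
  rintro ⟨z, hz, h⟩
  obtain ⟨θ, hθv, hθ⟩ := hTHE K κ (1, X)
  have h3 := hZDI K p hp κ θ hθv hθ z hz
  rw [← h, pow κ hSPN hTHE D hD p θ hθ, hθv] at h3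
  have e1 : ∀ k : ℕ, (EE K ^ k) (1 : K[X]) = 1 := by
    intro k
    induction k with
    | zero => simp
    | succ k ih =>
      rw [pow_succ', Module.End.mul_apply, ih]
      simp [EE]
  have e3 : ∀ k : ℕ, (EE K ^ k) (X : K[X]) = ((3 : K) ^ k) • X := by
    intro k
    induction k with
    | zero => simp
    | succ k ih =>
      rw [_root_.pow_succ', Module.End.mul_apply, ih, map_smul]
      have : EE K (X : K[X]) = (3 : K) • X := by
        simp only [EE, LinearMap.add_apply, LinearMap.comp_apply, LinearMap.mulLeft_apply,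
          Polynomial.derivative_mul, Polynomial.derivative_X]
        rw [Polynomial.smul_eq_C_mul]
        have : (C (3 : K) : K[X]) = 3 := map_ofNat C 3
        rw [this]
        ring
      rw [this, smul_smul, _root_.pow_succ]
  simp only [e1, e3, mul_one] at h3
  have h4 := congrArg (fun q : K[X] => q.coeff 1) h3
  simp at h4
  have h5 : ((3 : K) - 1) ^ p = 3 ^ p - 1 ^ p := sub_pow_char (3 : K) 1
  rw [h4, one_pow, sub_self] at h5
  have h6 : (3 : K) - 1 = 0 := by
    exact pow_eq_zero_iff (Fact.out : p.Prime).ne_zero |>.1 h5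
  apply h2
  linear_combination h6

end

end Pool.Agent.PVA
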