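import Pool.Agent.PVA.SUG

/-!
# Piece FIN: assembly
-/

namespace Pool.Agent.PVA

attribute [local instance 100] LieRing.ofAssociativeRing

noncomputable section

theorem mk_eq {K : Type*} [Field K] (κ : K) (z : U K) :
    (Submodule.Quotient.mk z : V κ) = z • vac κ := by
  unfold vac
  rw [← Submodule.Quotient.mk_smul, smul_eq_mul, mul_one]

theorem t_FIN (hCEN : S_CEN) (hINV : S_INV) (hPHI : S_PHI) (hRED : S_RED)
    (hDM1 : S_DM1) (hDMP : S_DMP) (hZAL : S_ZAL) : S_FIN := by
  intro K _ p _ _ hp
  have h3 : (3 : K) ≠ 0 := by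
    intro h
    have h1 : ((3 : ℕ) : K) = 0 := by exact_mod_cast h
    rw [CharP.cast_eq_zero_iff K p] at h1
    exact absurd (Nat.le_of_dvd (by norm_num) h1) (by omega)
  have h2 : (2 : K) ≠ 0 := by
    intro h
    have h1 : ((2 : ℕ) : K) = 0 := by exact_mod_cast h
    rw [CharP.cast_eq_zero_iff K p] at h1
    exact absurd (Nat.le_of_dvd (by norm_num) h1) (by omega)
  refine ⟨?_, ?_⟩
  · intro h
    have h4 : (1 : K) / 2 * 2 = 1 := by field_simp
    have h5 : (1 : K) / 2 = 2 := neg_injective h
    rw [h5] at h4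
    apply h3
    linear_combination h4
  · obtain ⟨D, hD⟩ := t_SUG K (-(1 / 2) : K) h2
    obtain ⟨Φ, φ, hΦ, hφ, hφs⟩ := hPHI K p (by omega)
    -- intertwining
    have hk : (2 * (-(1 / 2) + 2) : K) = 3 := by field_simp; ring
    have hint : ∀ z : U K, ∀ v : V (-(1 / 2) : K), φ (D v) = DM K (φ v) →
        φ (D (z • v)) = DM K (φ (z • v)) := by
      intro z
      refine uea_ind (P := fun z => ∀ v : V (-(1 / 2) : K), φ (D v) = DM K (φ v) →
        φ (D (z • v)) = DM K (φ (z • v))) ?_ ?_ ?_ ?_ z
      · intro x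
        refine Aff.ind (P := fun x => ∀ v : V (-(1 / 2) : K), φ (D v) = DM K (φ v) →
          φ (D (UniversalEnvelopingAlgebra.ι K x • v)) =
            DM K (φ (UniversalEnvelopingAlgebra.ι K x • v))) ?_ ?_ ?_ x
        · intro x y hx hy v hv
          rw [map_add, add_smul, map_add, map_add, map_add, map_add, hx v hv, hy v hv]
        · intro a b c n v hv
          change φ (D (xx a b c n • v)) = DM K (φ (xx a b c n • v))
          rw [hD.2, hk, map_sub, φ.map_smul, hφs, hφs, hφs, hΦ, hΦ, hRED K p (by omega), hv]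
        · intro r v hv
          have hι : UniversalEnvelopingAlgebra.ι K (r • Aff.cen K) = r • cc K :=
            map_smul _ _ _
          rw [hι, smul_assoc]
          rw [cc_smul, D.map_smul, D.map_smul, φ.map_smul, φ.map_smul, φ.map_smul, φ.map_smul,
            (DM K).map_smul, (DM K).map_smul, hv]
      · intro r v hv
        rw [algebraMap_smul, map_smul, map_smul, map_smul, map_smul, hv]
      · intro x y hx hy v hv
        rw [add_smul, map_add, map_add, map_add, map_add, hx v hv, hy v hv]
      · intro x y hx hy v hv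
        rw [mul_smul]
        exact hx _ (hy v hv)
    have hvac : φ (D (vac _)) = DM K (φ (vac _)) := by
      rw [hD.1, hφ, hDM1 K h2, hφs, hφ, sug, map_add, map_add, map_mul, map_mul, map_smul,
        map_mul, hΦ, hΦ, hΦ]
      rfl
    have hall : ∀ v, φ (D v) = DM K (φ v) := by
      intro v
      obtain ⟨z, rfl⟩ := Submodule.Quotient.mk_surjective _ v
      rw [mk_eq]
      exact hint z _ hvac
    have hpow : ∀ k : ℕ, φ ((D ^ k) (vac _)) = (DM K ^ k) 1 := by
      intro k
      induction k with
      | zero => simpa using hφ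
      | succ k ih =>
        rw [pow_succ', Module.End.mul_apply, hall, ih, pow_succ', Module.End.mul_apply]
    refine ⟨(D ^ p) (vac _), hINV K _ _ (fun a b c n hn => hCEN K p _ D (by omega) hD a b c n hn),
      ?_⟩
    rintro ⟨z, hz, h⟩
    have h4 := hZAL K p (by omega) Φ hΦ z hz
    have h5 : Φ z 1 = (DM K ^ p) 1 := by
      rw [← hpow p, h, hφs, hφ]
    rw [h5] at h4
    exact hDMP K p hp h4

end

end Pool.Agent.PVA
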