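import Pool.Agent.PVA.Stm

/-!
# Project PVA, piece INV: vectors killed by all `x_n`, `n ≥ 0`, are central
-/

namespace Pool.Agent.PVA

/-- the fields kill the vector `0` -/
theorem StateField.map_zero59 {K : Type} [Field K] {κ : K} {u : V κ} {Y : ℤ → V κ → V κ}
    (h : StateField κ u Y) : ∀ m : ℤ, Y m 0 = 0 := by
  induction h with
  | vac => intro m; simp
  | act a b c l _ ih =>
    intro m
    unfold nprod
    refine (finsum_congr fun j => ?_).trans (finsum_zero (α := ℕ) (M := V κ))
    rw [smul_zero, ih, ih, smul_zero, smul_zero, sub_zero, smul_zero]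
  | add _ _ ih ih' => intro m; simp only [ih, ih', add_zero]
  | smul r _ ih => intro m; simp only [ih, smul_zero]

theorem t_INV : S_INV := by
  intro K _ κ v hv u Y hY
  induction hY with
  | vac =>
    intro n hn
    show (if n = -1 then v else 0) = 0
    rw [if_neg (by omega)]
  | act a b c l hY ih =>
    intro n hn
    unfold nprod
    rw [← finsum_zero (α := ℕ) (M := V κ)]
    refine finsum_congr fun j => ?_
    rw [hv a b c j (by omega), ih (n + j) (by omega), hY.map_zero59, smul_zero, smul_zero,
      sub_zero, smul_zero]
  | add _ _ ih ih' => intro n hn; simp only [ih n hn, ih' n hn, add_zero]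
  | smul r _ ih => intro n hn; simp only [ih n hn, smul_zero]

end Pool.Agent.PVA

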