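import Pool.Agent.PVA.Stm2
import Pool.Agent.R693.R.PBW

/-!
# Piece MUL (helper58): complementary subalgebras and the enveloping algebra
-/

set_option autoImplicit false

namespace Pool.Agent.PVA

attribute [local instance 100] LieRing.ofAssociativeRing

namespace MUL

open UniversalEnvelopingAlgebra

/-- a basis with a linearly ordered index set -/
theorem exists_lin (K : Type) [Field K] (V : Type) [AddCommGroup V] [Module K V] :
    ∃ (I : Type) (_ : LinearOrder I), Nonempty (Module.Basis I K V) := by
  classical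
  refine ⟨Module.Basis.ofVectorSpaceIndex K V, IsWellOrder.linearOrder WellOrderingRel,
    ⟨Module.Basis.ofVectorSpace K V⟩⟩

section

variable {IA IB : Type}

/-- first index -/
def il (i : IA) : IA ⊕ₗ IB := toLex (Sum.inl i)
/-- second index -/
def ir (i : IB) : IA ⊕ₗ IB := toLex (Sum.inr i)

/-- concatenation -/
def cat (l₁ : List IA) (l₂ : List IB) : List (IA ⊕ₗ IB) := l₁.map il ++ l₂.map ir

theorem cat_inj : ∀ (l₁ l₁' : List IA) (l₂ l₂' : List IB), cat l₁ l₂ = cat l₁' l₂' →
    l₁ = l₁' ∧ l₂ = l₂' := by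
  intro l₁
  induction l₁ with
  | nil =>
    intro l₁' l₂ l₂' h
    cases l₁' with
    | nil =>
      refine ⟨rfl, ?_⟩
      unfold cat at h
      simp only [List.map_nil, List.nil_append] at h
      refine List.map_injective_iff.2 (fun a b hab => ?_) h
      exact Sum.inr_injective (toLex.injective hab)
    | cons a t =>
      exfalso
      unfold cat at h
      rw [List.map_nil, List.nil_append, List.map_cons, List.cons_append] at h
      cases l₂ with
      | nil => exact absurd h (by simp)
      | cons b s =>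
        rw [List.map_cons, List.cons.injEq] at h
        have h1 := toLex.injective h.1
        exact absurd h1 (by simp)
  | cons a t ih =>
    intro l₁' l₂ l₂' h
    cases l₁' with
    | nil =>
      exfalso
      unfold cat at h
      rw [List.map_nil, List.nil_append, List.map_cons, List.cons_append] at h
      cases l₂' with
      | nil => exact absurd h (by simp)
      | cons b s =>
        rw [List.map_cons, List.cons.injEq] at h
        have h1 := toLex.injective h.1
        exact absurd h1 (by simp)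
    | cons a' t' =>
      unfold cat at h
      rw [List.map_cons, List.cons_append, List.map_cons, List.cons_append, List.cons.injEq] at h
      have h1 := Sum.inl_injective (toLex.injective h.1)
      obtain ⟨h2, h3⟩ := ih t' l₂ l₂' h.2
      rw [h1, h2]
      exact ⟨rfl, h3⟩

variable [LinearOrder IA] [LinearOrder IB]

theorem cat_sorted (l₁ : List IA) (l₂ : List IB) (h₁ : l₁.Pairwise (· ≤ ·))
    (h₂ : l₂.Pairwise (· ≤ ·)) : (cat l₁ l₂).Pairwise (· ≤ ·) := by
  unfold cat
  rw [List.pairwise_append, List.pairwise_map, List.pairwise_map]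
  refine ⟨h₁.imp fun h => Sum.Lex.inl_le_inl_iff.2 h, h₂.imp fun h => Sum.Lex.inr_le_inr_iff.2 h,
    ?_⟩
  intro a ha b hb
  obtain ⟨i, -, rfl⟩ := List.mem_map.1 ha
  obtain ⟨j, -, rfl⟩ := List.mem_map.1 hb
  exact Sum.Lex.inl_le_inr i j

theorem sorted_cat : ∀ l : List (IA ⊕ₗ IB), l.Pairwise (· ≤ ·) → ∃ l₁ l₂, l = cat l₁ l₂ := by
  intro l
  induction l with
  | nil => intro _; exact ⟨[], [], rfl⟩
  | cons x t ih =>
    intro h
    rw [List.pairwise_cons] at h
    obtain ⟨l₁, l₂, rfl⟩ := ih h.2
    obtain ⟨y, rfl⟩ := toLex.surjective x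
    rcases y with i | j
    · exact ⟨i :: l₁, l₂, rfl⟩
    · cases l₁ with
      | nil => exact ⟨[], j :: l₂, rfl⟩
      | cons a s =>
        exfalso
        have h1 := h.1 (il a) (by simp [cat])
        exact Sum.Lex.not_inr_le_inl h1

end

end MUL

open MUL UniversalEnvelopingAlgebra in
theorem t_MUL : S_MUL := by
  classical
  intro K _ L _ _ A B hAB χ W _ _ Φ w
  obtain ⟨IA, oA, ⟨bA⟩⟩ := exists_lin K A
  obtain ⟨IB, oB, ⟨bB⟩⟩ := exists_lin K B
  let eA : A ≃ₗ[K] A.toSubmodule :=
    { toFun := fun x => ⟨x.1, x.2⟩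
      invFun := fun x => ⟨x.1, x.2⟩
      map_add' := fun _ _ => rfl
      map_smul' := fun _ _ => rfl
      left_inv := fun _ => rfl
      right_inv := fun _ => rfl }
  let eB : B ≃ₗ[K] B.toSubmodule :=
    { toFun := fun x => ⟨x.1, x.2⟩
      invFun := fun x => ⟨x.1, x.2⟩
      map_add' := fun _ _ => rfl
      map_smul' := fun _ _ => rfl
      left_inv := fun _ => rfl
      right_inv := fun _ => rfl }
  let bL : Module.Basis (IA ⊕ₗ IB) K L := (((bA.map eA).prod (bB.map eB)).map
    (Submodule.prodEquivOfIsCompl A.toSubmodule B.toSubmodule hAB)).reindex toLex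
  have hbl : ∀ i, bL (il i) = (bA i : L) := by
    intro i
    have h1 : bL (il i) = (Submodule.prodEquivOfIsCompl A.toSubmodule B.toSubmodule hAB)
        (((bA.map eA).prod (bB.map eB)) (Sum.inl i)) := by
      show (Module.Basis.reindex _ toLex) (il i) = _
      rw [Module.Basis.reindex_apply, Module.Basis.map_apply]
      rfl
    rw [h1, Submodule.coe_prodEquivOfIsCompl', Module.Basis.prod_apply_inl_fst,
      Module.Basis.prod_apply_inl_snd, Module.Basis.map_apply, Submodule.coe_zero, add_zero]
    rfl
  have hbr : ∀ i, bL (ir i) = (bB i : L) := by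
    intro i
    have h1 : bL (ir i) = (Submodule.prodEquivOfIsCompl A.toSubmodule B.toSubmodule hAB)
        (((bA.map eA).prod (bB.map eB)) (Sum.inr i)) := by
      show (Module.Basis.reindex _ toLex) (ir i) = _
      rw [Module.Basis.reindex_apply, Module.Basis.map_apply]
      rfl
    rw [h1, Submodule.coe_prodEquivOfIsCompl', Module.Basis.prod_apply_inr_fst,
      Module.Basis.prod_apply_inr_snd, Module.Basis.map_apply, Submodule.coe_zero, zero_add]
    rfl
  obtain ⟨βA, hβA⟩ := R693.PBW.exists_basis K A IA bA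
  obtain ⟨βB, hβB⟩ := R693.PBW.exists_basis K B IB bB
  obtain ⟨βL, hβL⟩ := R693.PBW.exists_basis K L (IA ⊕ₗ IB) bL
  -- the maps of the enveloping algebras
  let mA : UniversalEnvelopingAlgebra K A →ₐ[K] UniversalEnvelopingAlgebra K L :=
    lift K ((ι K : L →ₗ⁅K⁆ UniversalEnvelopingAlgebra K L).comp A.incl)
  let mB : UniversalEnvelopingAlgebra K B →ₐ[K] UniversalEnvelopingAlgebra K L :=
    lift K ((ι K : L →ₗ⁅K⁆ UniversalEnvelopingAlgebra K L).comp B.incl)
  have hmA : ∀ a : A, mA (ι K a) = ι K (a : L) := fun a => lift_ι_apply K _ a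
  have hmB : ∀ b : B, mB (ι K b) = ι K (b : L) := fun b => lift_ι_apply K _ b
  have hprodA : ∀ l : List IA, mA (l.map fun i => ι K (bA i)).prod =
      ((l.map il).map fun i : IA ⊕ₗ IB => ι K (bL i)).prod := by
    intro l
    rw [map_list_prod, List.map_map, List.map_map]
    refine congrArg List.prod (List.map_congr_left fun i _ => ?_)
    change mA (ι K (bA i)) = ι K (bL (il i))
    rw [hmA, hbl]
  have hprodB : ∀ l : List IB, mB (l.map fun i => ι K (bB i)).prod =
      ((l.map ir).map fun i : IA ⊕ₗ IB => ι K (bL i)).prod := by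
    intro l
    rw [map_list_prod, List.map_map, List.map_map]
    refine congrArg List.prod (List.map_congr_left fun i _ => ?_)
    change mB (ι K (bB i)) = ι K (bL (ir i))
    rw [hmB, hbr]
  -- the index map
  let cc : {l : List IA // l.Pairwise (· ≤ ·)} × {l : List IB // l.Pairwise (· ≤ ·)} →
      {l : List (IA ⊕ₗ IB) // l.Pairwise (· ≤ ·)} := fun q =>
    ⟨cat q.1.1 q.2.1, cat_sorted _ _ q.1.2 q.2.2⟩
  have hcc : Function.Injective cc := by
    rintro ⟨a, b⟩ ⟨a', b'⟩ h
    obtain ⟨h1, h2⟩ := cat_inj _ _ _ _ (congrArg Subtype.val h)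
    exact Prod.ext (Subtype.ext h1) (Subtype.ext h2)
  let F : UniversalEnvelopingAlgebra K L →ₗ[K] W := βL.constr K
    (Function.extend cc (fun q => χ (βB q.2) • Φ (βA q.1) w) 0)
  have hF0 : ∀ l₁ l₂, F (mA (βA l₁) * mB (βB l₂)) = χ (βB l₂) • Φ (βA l₁) w := by
    intro l₁ l₂
    have h1 : mA (βA l₁) * mB (βB l₂) = βL (cc (l₁, l₂)) := by
      rw [hβA, hβB, hβL, hprodA, hprodB, ← List.prod_append, ← List.map_append]
      rfl
    rw [h1, Module.Basis.constr_basis, hcc.extend_apply]
  have hF : ∀ (a : UniversalEnvelopingAlgebra K A) (b : UniversalEnvelopingAlgebra K B),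
      F (mA a * mB b) = χ b • Φ a w := by
    intro a b
    have h1 : ∀ l₁, ∀ b, F (mA (βA l₁) * mB b) = χ b • Φ (βA l₁) w := by
      intro l₁ b
      have h2 : (F.comp ((LinearMap.mulLeft K (mA (βA l₁))).comp mB.toLinearMap)) =
          (LinearMap.toSpanSingleton K W (Φ (βA l₁) w)).comp χ.toLinearMap := by
        refine βB.ext fun l₂ => ?_
        exact hF0 l₁ l₂
      exact LinearMap.congr_fun h2 b
    have h2 : (F.comp ((LinearMap.mulRight K (mB b)).comp mA.toLinearMap)) =
        χ b • ((LinearMap.applyₗ w).comp Φ.toLinearMap) := by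
      refine βA.ext fun l₁ => ?_
      exact h1 l₁ b
    exact LinearMap.congr_fun h2 a
  have hspan : ∀ u : UniversalEnvelopingAlgebra K L,
      u ∈ Submodule.span K {x | ∃ a b, x = mA a * mB b} := by
    intro u
    have h1 : u ∈ Submodule.span K (Set.range βL) := by
      rw [βL.span_eq]
      exact Submodule.mem_top
    refine Submodule.span_mono ?_ h1
    rintro x ⟨l, rfl⟩
    obtain ⟨l₁, l₂, hl⟩ := sorted_cat l.1 l.2
    refine ⟨(l₁.map fun i => ι K (bA i)).prod, (l₂.map fun i => ι K (bB i)).prod, ?_⟩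
    rw [hβL, hl, hprodA, hprodB, ← List.prod_append, ← List.map_append]
    rfl
  refine ⟨F, ?_, ?_, ?_⟩
  · have h1 := hF 1 1
    rw [map_one mA, map_one mB, mul_one, map_one χ, map_one Φ, one_smul] at h1
    exact h1
  · intro a u
    have h1 := hspan u
    induction h1 using Submodule.span_induction with
    | mem x h =>
      obtain ⟨y, z, rfl⟩ := h
      rw [← hmA, ← mul_assoc, ← map_mul, hF, hF, map_mul, map_smul]
      rfl
    | zero => rw [mul_zero, map_zero, map_zero]
    | add x y _ _ hx hy => rw [mul_add, map_add, map_add, map_add, hx, hy]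
    | smul c x _ hx => rw [mul_smul_comm, map_smul, map_smul, map_smul, hx]
  · intro b u
    have h1 := hspan u
    induction h1 using Submodule.span_induction with
    | mem x h =>
      obtain ⟨y, z, rfl⟩ := h
      rw [← hmB, mul_assoc, ← map_mul, hF, hF, map_mul, smul_smul, mul_comm]
    | zero => rw [zero_mul, map_zero, smul_zero]
    | add x y _ _ hx hy => rw [add_mul, map_add, map_add, smul_add, hx, hy]
    | smul c x _ hx => rw [smul_mul_assoc, map_smul, map_smul, hx, smul_comm]

end Pool.Agent.PVA
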