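import Pool.Agent.PVA.Stm

/-!
# PVA, piece PHI (helper70)
-/

open MvPolynomial LaurentPolynomial

namespace Pool.Agent.PVA

noncomputable section

attribute [local instance 100] LieRing.ofAssociativeRing

namespace PHIP

variable {K : Type*} [Field K]

/-- The extension of a family of operators to the Laurent polynomials. -/
def LL (E : ℤ → Module.End K (R K)) : K[T;T⁻¹] →ₗ[K] Module.End K (R K) :=
  (AddMonoidAlgebra.basis ℤ K).constr K E

lemma LL_T (E : ℤ → Module.End K (R K)) (n : ℤ) : LL E (T n) = E n := by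
  have := (AddMonoidAlgebra.basis ℤ K).constr_basis K E n
  rw [← this]
  rfl

/-- The representation. -/
def rho (K : Type*) [Field K] : Aff K →ₗ[K] Module.End K (R K) where
  toFun x := LL (Q true true fun _ => 1 / 2) x.e + LL (Q true false fun _ => -1) x.h +
    LL (Q false false fun _ => -(1 / 2)) x.f + (-(1 / 2) * x.z) • LinearMap.id
  map_add' x y := by
    simp only [Aff.add_e, Aff.add_h, Aff.add_f, Aff.add_z, map_add, mul_add, add_smul]
    abel
  map_smul' r x := by
    simp only [Aff.smul_e, Aff.smul_h, Aff.smul_f, Aff.smul_z, map_smul, RingHom.id_apply,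
      smul_add, smul_eq_mul, smul_smul]
    congr 2
    ring

lemma rho_apply (x : Aff K) : rho K x =
    LL (Q true true fun _ => 1 / 2) x.e + LL (Q true false fun _ => -1) x.h +
    LL (Q false false fun _ => -(1 / 2)) x.f + (-(1 / 2) * x.z) • LinearMap.id := rfl

lemma rho_mono (a b c : K) (n : ℤ) : rho K (Aff.mono a b c n) = XM a b c n := by
  rw [rho_apply]
  unfold Aff.mono
  dsimp only
  rw [map_smul, map_smul, map_smul, LL_T, LL_T, LL_T, mul_zero, zero_smul, add_zero]
  rfl

lemma rho_cen : rho K (Aff.cen K) = (-(1 / 2) : K) • LinearMap.id := by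
  rw [rho_apply]
  unfold Aff.cen
  dsimp only
  rw [map_zero, map_zero, map_zero, mul_one, zero_add, zero_add, zero_add]

lemma rho_lie (p : ℕ) [Fact p.Prime] [CharP K p]
    (hREP : ∀ (a b c a' b' c' : K) (m n : ℤ) (P : R K),
    XM a b c m (XM a' b' c' n P) - XM a' b' c' n (XM a b c m P) =
      XM (2 * (b * a' - a * b')) (a * c' - c * a') (2 * (c * b' - b * c')) (m + n) P +
        (if m + n = 0 then (m : K) * (a * c' + c * a' + 2 * (b * b')) * (-(1 / 2)) else 0) • P)
    (x y : Aff K) : rho K ⁅x, y⁆ = ⁅rho K x, rho K y⁆ := by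
  induction x using Aff.ind with
  | hadd x x' hx hx' => rw [add_lie, map_add, map_add, add_lie, hx, hx']
  | hm a b c m =>
    induction y using Aff.ind with
    | hadd y y' hy hy' => rw [lie_add, map_add, map_add, lie_add, hy, hy']
    | hm a' b' c' n =>
      rw [Aff.lie_mono, map_add, map_smul, rho_mono, rho_mono, rho_mono, rho_cen]
      refine LinearMap.ext fun P => ?_
      rw [Ring.lie_def, LinearMap.sub_apply, Module.End.mul_apply, Module.End.mul_apply, hREP]
      rw [LinearMap.add_apply, LinearMap.smul_apply, LinearMap.smul_apply, LinearMap.id_apply,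
        smul_smul]
      congr 2
      split_ifs
      · rfl
      · rw [zero_mul]
    | hc r =>
      have h1 : ⁅Aff.mono a b c m, r • Aff.cen K⁆ = 0 := by
        rw [lie_smul, ← lie_skew, Aff.lie_cen, neg_zero, smul_zero]
      rw [h1, map_zero, map_smul, rho_cen]
      refine LinearMap.ext fun P => ?_
      rw [Ring.lie_def, LinearMap.sub_apply, Module.End.mul_apply, Module.End.mul_apply]
      simp
  | hc r =>
    have h1 : ⁅r • Aff.cen K, y⁆ = 0 := by
      rw [smul_lie, Aff.lie_cen, smul_zero]
    rw [h1, map_zero, map_smul, rho_cen]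
    refine LinearMap.ext fun P => ?_
    rw [Ring.lie_def, LinearMap.sub_apply, Module.End.mul_apply, Module.End.mul_apply]
    simp

lemma Q_one (ε ε' : Bool) (c : ℤ → K) (n : ℤ) (hn : 0 ≤ n) : Q ε ε' c n 1 = 0 := by
  unfold Q
  rw [LinearMap.add_apply, LinearMap.add_apply, LinearMap.mulLeft_apply]
  have h1 : qq ε ε' c n = 0 := by
    unfold qq
    have : (-n).toNat = 0 := by omega
    rw [this, Finset.range_zero, Finset.sum_empty]
  have h2 : (xi ε ε' c n).toLinearMap (1 : R K) = 0 := (xi ε ε' c n).map_one_eq_zero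
  have h3 : tau ε ε' c n (1 : R K) = 0 := by
    unfold tau
    rw [LinearMap.sum_apply]
    refine Finset.sum_eq_zero fun s _ => ?_
    rw [LinearMap.smul_apply, LinearMap.comp_apply]
    have h4 : (ann K ε' (n - 1 - s).toNat).toLinearMap (1 : R K) = 0 :=
      (ann K ε' (n - 1 - s).toNat).map_one_eq_zero
    rw [h4, map_zero, smul_zero]
  rw [h1, h2, h3, zero_mul, add_zero, add_zero]

lemma XM_one (a b c : K) (n : ℤ) (hn : 0 ≤ n) : XM a b c n (1 : R K) = 0 := by
  unfold XM
  rw [LinearMap.add_apply, LinearMap.add_apply, LinearMap.smul_apply, LinearMap.smul_apply,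
    LinearMap.smul_apply, Q_one _ _ _ _ hn, Q_one _ _ _ _ hn, Q_one _ _ _ _ hn]
  simp

end PHIP

open PHIP in
theorem t_PHI (hREP : S_REP) : S_PHI := by
  intro K _ p _ _ hp
  have hR := hREP K p hp
  set ρ : Aff K →ₗ⁅K⁆ Module.End K (R K) :=
    { rho K with map_lie' := fun {x y} => rho_lie p hR x y } with hρ
  set Φ : U K →ₐ[K] Module.End K (R K) := UniversalEnvelopingAlgebra.lift K ρ with hΦ
  have hι : ∀ x, Φ (UniversalEnvelopingAlgebra.ι K x) = rho K x := by
    intro x
    rw [hΦ, UniversalEnvelopingAlgebra.lift_ι_apply]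
    rfl
  have hxx : ∀ a b c n, Φ (xx a b c n) = XM a b c n := by
    intro a b c n
    unfold xx
    rw [hι, rho_mono]
  set f : U K →ₗ[K] R K :=
    { toFun := fun z => Φ z 1
      map_add' := fun x y => by rw [map_add, LinearMap.add_apply]
      map_smul' := fun r x => by rw [map_smul, LinearMap.smul_apply, RingHom.id_apply] } with hf
  have hker : (lid (-(1 / 2) : K)).restrictScalars K ≤ LinearMap.ker f := by
    intro z hz
    rw [Submodule.restrictScalars_mem] at hz
    rw [LinearMap.mem_ker]
    show Φ z 1 = 0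
    unfold lid at hz
    induction hz using Submodule.span_induction with
    | mem x hx =>
      rcases hx with ⟨a, b, c, n, hn, rfl⟩ | hx
      · rw [hxx, XM_one _ _ _ _ hn]
      · rw [Set.mem_singleton_iff] at hx
        subst hx
        rw [map_sub, AlgHom.commutes]
        unfold cc
        rw [hι, rho_cen]
        rw [LinearMap.sub_apply, LinearMap.smul_apply, LinearMap.id_apply,
          Module.algebraMap_end_apply, sub_self]
    | zero => rw [map_zero, LinearMap.zero_apply]
    | add x y _ _ hx hy => rw [map_add, LinearMap.add_apply, hx, hy, add_zero]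
    | smul a x _ hx =>
      rw [smul_eq_mul, map_mul, Module.End.mul_apply, hx, map_zero]
  set φ : V (-(1 / 2) : K) →ₗ[K] R K :=
    (((lid (-(1 / 2) : K)).restrictScalars K).liftQ f hker) ∘ₗ
      (Submodule.Quotient.restrictScalarsEquiv K (lid (-(1 / 2) : K))).symm.toLinearMap with hφ
  have hmk : ∀ w : U K, φ (Submodule.Quotient.mk w) = Φ w 1 := by
    intro w
    rfl
  refine ⟨Φ, φ, hxx, ?_, ?_⟩
  · unfold vac
    rw [hmk]
    have h1 : Φ 1 = 1 := map_one Φ
    rw [h1]
    rfl
  · intro z v
    obtain ⟨w, rfl⟩ := Submodule.Quotient.mk_surjective _ v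
    rw [← Submodule.Quotient.mk_smul, hmk, hmk, smul_eq_mul, map_mul, Module.End.mul_apply]

end

end Pool.Agent.PVA
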