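import Pool.Agent.PVA.Stm

/-!
# Piece RED of project PVA: the commutator of `DM` with the representation on the Fock space
-/

open MvPolynomial

namespace Pool.Agent.PVA

namespace Red

variable {K : Type} [Field K]

theorem Q_apply (ε ε' : Bool) (c : ℤ → K) (n : ℤ) (P : R K) :
    Q ε ε' c n P = qq ε ε' c n * P + xi ε ε' c n P + tau ε ε' c n P := rfl

theorem XM_apply (a b c : K) (n : ℤ) (P : R K) :
    XM a b c n P = a • Q true true (fun _ => 1 / 2) n P + b • Q true false (fun _ => -1) n P +
      c • Q false false (fun _ => -(1 / 2)) n P := rfl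

theorem tau_one (ε ε' : Bool) (c : ℤ → K) (n : ℤ) : tau ε ε' c n (1 : R K) = 0 := by
  unfold tau
  rw [LinearMap.sum_apply]
  refine Finset.sum_eq_zero fun s _ => ?_
  rw [LinearMap.smul_apply, LinearMap.comp_apply]
  have h : (ann K ε' (n - 1 - s).toNat).toLinearMap (1 : R K) = 0 :=
    Derivation.map_one_eq_zero _
  rw [h, map_zero, smul_zero]

theorem Q_one (ε ε' : Bool) (c : ℤ → K) (n : ℤ) : Q ε ε' c n (1 : R K) = qq ε ε' c n := by
  rw [Q_apply, mul_one, Derivation.map_one_eq_zero, tau_one, add_zero, add_zero]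

theorem crt_hom (ε : Bool) (s : ℤ) : (crt K ε s).IsHomogeneous 1 := by
  unfold crt
  split_ifs
  · exact isHomogeneous_X _ _
  · exact isHomogeneous_zero _ _ _

/-- homogeneity as membership -/
theorem smul_hom (r : K) (P : R K) (n : ℕ) (h : P.IsHomogeneous n) : (r • P).IsHomogeneous n :=
  Submodule.smul_mem (homogeneousSubmodule (Bool × ℕ) K n) r h

theorem qq_hom (ε ε' : Bool) (c : ℤ → K) (n : ℤ) : (qq ε ε' c n).IsHomogeneous 2 := by
  unfold qq
  refine IsHomogeneous.sum _ _ _ fun i _ => smul_hom _ _ _ ?_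
  exact (crt_hom ε _).mul (crt_hom ε' _)

theorem xi_X_hom (ε ε' : Bool) (c : ℤ → K) (n : ℤ) (i : Bool × ℕ) :
    (xi ε ε' c n (X i)).IsHomogeneous 1 := by
  unfold xi
  rw [mkDerivation_X]
  exact (smul_hom _ _ _ (crt_hom _ _)).add (smul_hom _ _ _ (crt_hom _ _))

theorem der_crt (x : Derivation K (R K) (R K)) (hx : ∀ i, (x (X i)).IsHomogeneous 1)
    (ε : Bool) (s : ℤ) : (x (crt K ε s)).IsHomogeneous 1 := by
  unfold crt
  split_ifs
  · exact hx _
  · rw [map_zero]; exact isHomogeneous_zero _ _ _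

theorem der_qq (x : Derivation K (R K) (R K)) (hx : ∀ i, (x (X i)).IsHomogeneous 1)
    (ε ε' : Bool) (c : ℤ → K) (n : ℤ) : (x (qq ε ε' c n)).IsHomogeneous 2 := by
  unfold qq
  rw [map_sum]
  refine IsHomogeneous.sum _ _ _ fun i _ => ?_
  rw [Derivation.map_smul, Derivation.leibniz]
  refine smul_hom _ _ _ (IsHomogeneous.add ?_ ?_)
  · exact (crt_hom ε _).mul (der_crt x hx ε' _)
  · exact (crt_hom ε' _).mul (der_crt x hx ε _)

theorem tau_neg (ε ε' : Bool) (c : ℤ → K) (P : R K) : tau ε ε' c (-2) P = 0 := by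
  unfold tau
  have : (-2 : ℤ).toNat = 0 := rfl
  rw [this, Finset.range_zero, Finset.sum_empty, LinearMap.zero_apply]

theorem ann_X (ε : Bool) (s : ℕ) (i : Bool × ℕ) :
    ann K ε s (X i) = C (if i.2 = s then om K ε i.1 else 0) := by
  unfold ann
  rw [mkDerivation_X]
  split_ifs
  · rfl
  · rw [map_zero]

theorem ann_C (ε : Bool) (s : ℕ) (r : K) : ann K ε s (C r) = 0 := by
  rw [← algebraMap_eq]
  exact Derivation.map_algebraMap _ _

/-- second derivatives of a quadratic monomial -/
theorem ann_ann (ε ε' : Bool) (s s' k l : ℕ) :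
    ann K ε s (ann K ε' s' (X (true, k) * X (false, l))) =
      C ((if k = s then om K ε true else 0) * (if l = s' then om K ε' false else 0) +
        (if l = s then om K ε false else 0) * (if k = s' then om K ε' true else 0)) := by
  rw [Derivation.leibniz, ann_X, ann_X, smul_eq_mul, smul_eq_mul, map_add, Derivation.leibniz,
    Derivation.leibniz, ann_C, ann_C, ann_X, ann_X, smul_zero, smul_zero, smul_eq_mul, smul_eq_mul,
    zero_add, zero_add, ← C_mul, ← C_mul, ← C_add]
  simp only
  congr 1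
  ring

theorem om_tt : om K true true = 0 := by simp [om]
theorem om_ff : om K false false = 0 := by simp [om]
theorem om_tf : om K true false = 1 := by simp [om]
theorem om_ft : om K false true = -1 := by simp [om]

/-- the quadratic polynomial of `DM` -/
theorem qD (h2 : (2 : K) ≠ 0) : qq true false (fun s : ℤ => 3 * ((s : K) + 3 / 2)) (-2) =
    (3 / 2 : K) • (X (true, 0) * X (false, 1)) + (-(3 / 2) : K) • (X (true, 1) * X (false, 0)) := by
  unfold qq
  have h : (-(-2 : ℤ)).toNat = 2 := rfl
  rw [h, Finset.sum_range_succ, Finset.sum_range_one]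
  have c1 : 3 * (((-((0 : ℕ) : ℤ) - 1 : ℤ) : K) + 3 / 2) = 3 / 2 := by
    push_cast; field_simp; ring
  have c2 : 3 * (((-((1 : ℕ) : ℤ) - 1 : ℤ) : K) + 3 / 2) = -(3 / 2) := by
    push_cast; field_simp; ring
  beta_reduce
  rw [c1, c2]
  have d0 : (-((0 : ℕ) : ℤ) - 1 : ℤ) = -1 := by norm_num
  have d1 : (-((1 : ℕ) : ℤ) - 1 : ℤ) = -2 := by norm_num
  have d2 : (-2 + ((0 : ℕ) : ℤ) : ℤ) = -2 := by norm_num
  have d3 : (-2 + ((1 : ℕ) : ℤ) : ℤ) = -1 := by norm_num
  rw [d0, d1, d2, d3]
  have x1 : ∀ ε : Bool, crt K ε (-1) = X (ε, 0) := fun ε => by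
    unfold crt
    rw [if_pos (by norm_num)]
    norm_num
  have x2 : ∀ ε : Bool, crt K ε (-2) = X (ε, 1) := fun ε => by
    unfold crt
    rw [if_pos (by norm_num)]
    norm_num
  rw [x1, x1, x2, x2]

theorem tau_tt (c : ℤ → K) (n : ℤ) (k l : ℕ) :
    tau true true c n (X (true, k) * X (false, l) : R K) = 0 := by
  unfold tau
  rw [LinearMap.sum_apply]
  refine Finset.sum_eq_zero fun s _ => ?_
  rw [LinearMap.smul_apply, LinearMap.comp_apply]
  have h := ann_ann (K := K) true true s (n - 1 - s).toNat k l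
  rw [om_tt] at h
  simp only [ite_self, zero_mul, mul_zero, add_zero, map_zero] at h
  change c s • ann K true s (ann K true _ _) = 0
  rw [h, smul_zero]

theorem tau_ff (c : ℤ → K) (n : ℤ) (k l : ℕ) :
    tau false false c n (X (true, k) * X (false, l) : R K) = 0 := by
  unfold tau
  rw [LinearMap.sum_apply]
  refine Finset.sum_eq_zero fun s _ => ?_
  rw [LinearMap.smul_apply, LinearMap.comp_apply]
  have h := ann_ann (K := K) false false s (n - 1 - s).toNat k l
  rw [om_ff] at h
  simp only [ite_self, zero_mul, mul_zero, add_zero, map_zero] at h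
  change c s • ann K false s (ann K false _ _) = 0
  rw [h, smul_zero]

theorem tau_tf (n : ℤ) (k l : ℕ) :
    tau true false (fun _ => (-1 : K)) n (X (true, k) * X (false, l) : R K) =
      C (if (k : ℤ) + l = n - 1 then 1 else 0) := by
  unfold tau
  rw [LinearMap.sum_apply]
  have h1 : ∀ s ∈ Finset.range n.toNat,
      ((-1 : K) • ((ann K true s).toLinearMap ∘ₗ (ann K false (n - 1 - s).toNat).toLinearMap))
        (X (true, k) * X (false, l) : R K) =
      if s = l then C (if (k : ℤ) + l = n - 1 then 1 else 0) else 0 := by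
    intro s hs
    rw [Finset.mem_range] at hs
    rw [LinearMap.smul_apply, LinearMap.comp_apply]
    have h := ann_ann (K := K) true false s (n - 1 - s).toNat k l
    rw [om_tt, om_ff, om_tf, om_ft] at h
    simp only [ite_self, zero_mul, zero_add] at h
    change (-1 : K) • ann K true s (ann K false _ _) = _
    rw [h, smul_eq_C_mul, ← C_mul]
    by_cases h2 : s = l
    · rw [if_pos h2, if_pos h2.symm]
      congr 1
      by_cases h3 : (k : ℤ) + l = n - 1
      · rw [if_pos h3, if_pos (by omega)]; ring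
      · rw [if_neg h3, if_neg (by omega)]; ring
    · rw [if_neg h2, if_neg (fun h => h2 h.symm), zero_mul, mul_zero, map_zero]
  rw [Finset.sum_congr rfl h1, Finset.sum_ite_eq']
  split_ifs with h4 h5
  · rfl
  · rfl
  · exfalso
    rw [Finset.mem_range] at h4
    omega
  · rw [map_zero]

end Red

open Red in
theorem t_RED (hB : S_BRU) (hS : S_SCA) : S_RED := by
  intro K _ p _ _ hp a b c n
  have h2 : (2 : K) ≠ 0 := by
    intro h0
    have h3 : p ∣ 2 := (CharP.cast_eq_zero_iff K p 2).1 (by exact_mod_cast h0)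
    have := Nat.le_of_dvd (by norm_num) h3
    omega
  have hh : (1 : K) * (1 / 2) + 1 * (1 / 2) = 1 := by field_simp; norm_num
  have hh' : (-1 : K) * -(1 / 2) + -1 * -(1 / 2) = 1 := by field_simp; norm_num
  -- commutators with the `u η t`
  have hXt : ∀ (m t : ℤ) (P : R K), XM a b c m (u K true t P) = u K true t (XM a b c m P) +
      b • u K true (m + t) P + c • u K false (m + t) P := by
    intro m t P
    have e1 := hB K true true true (fun _ => 1 / 2) m t P
    have e2 := hB K true false true (fun _ => -1) m t P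
    have e3 := hB K false false true (fun _ => -(1 / 2)) m t P
    rw [sub_eq_iff_eq_add] at e1 e2 e3
    rw [om_tt, zero_mul, zero_smul, zero_add, zero_add] at e1
    rw [om_tt, om_ft, zero_mul, zero_smul, add_zero] at e2
    rw [om_ft, ← add_smul, hh', one_smul] at e3
    rw [XM_apply, XM_apply, e1, e2, e3]
    simp only [map_add, map_smul]
    module
  have hXf : ∀ (m t : ℤ) (P : R K), XM a b c m (u K false t P) = u K false t (XM a b c m P) +
      a • u K true (m + t) P - b • u K false (m + t) P := by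
    intro m t P
    have e1 := hB K true true false (fun _ => 1 / 2) m t P
    have e2 := hB K true false false (fun _ => -1) m t P
    have e3 := hB K false false false (fun _ => -(1 / 2)) m t P
    rw [sub_eq_iff_eq_add] at e1 e2 e3
    rw [om_tf, ← add_smul, hh, one_smul] at e1
    rw [om_ff, om_tf, zero_mul, zero_smul, zero_add] at e2
    rw [om_ff, zero_mul, zero_smul, zero_add, zero_add] at e3
    rw [XM_apply, XM_apply, e1, e2, e3]
    simp only [map_add, map_smul]
    module
  have hDt : ∀ (t : ℤ) (P : R K), DM K (u K true t P) = u K true t (DM K P) +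
      (3 * (1 / 2 - (t : K))) • u K true (-2 + t) P := by
    intro t P
    have e := hB K true false true (fun s : ℤ => 3 * ((s : K) + 3 / 2)) (-2) t P
    rw [sub_eq_iff_eq_add, om_tt, om_ft, zero_mul, zero_smul, add_zero] at e
    have hc : (-1 : K) * (3 * (((-2 + t : ℤ) : K) + 3 / 2)) = 3 * (1 / 2 - (t : K)) := by
      push_cast; field_simp; ring
    rw [hc, add_comm] at e
    exact e
  have hDf : ∀ (t : ℤ) (P : R K), DM K (u K false t P) = u K false t (DM K P) +
      (3 * (1 / 2 - (t : K))) • u K false (-2 + t) P := by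
    intro t P
    have e := hB K true false false (fun s : ℤ => 3 * ((s : K) + 3 / 2)) (-2) t P
    rw [sub_eq_iff_eq_add, om_ff, om_tf, zero_mul, zero_smul, zero_add] at e
    have hc : (1 : K) * (3 * (((-t - 1 : ℤ) : K) + 3 / 2)) = 3 * (1 / 2 - (t : K)) := by
      push_cast; field_simp; ring
    rw [hc, add_comm] at e
    exact e
  obtain ⟨A, hA⟩ : ∃ A : R K →ₗ[K] R K, A = DM K ∘ₗ XM a b c n - XM a b c n ∘ₗ DM K +
    (3 * (n : K)) • XM a b c (n - 2) := ⟨_, rfl⟩
  have hA' : ∀ P, A P = DM K (XM a b c n P) - XM a b c n (DM K P) +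
      (3 * (n : K)) • XM a b c (n - 2) P := by
    intro P; rw [hA]; rfl
  have hcomm : ∀ η t P, A (u K η t P) = u K η t (A P) := by
    intro η t P
    rw [hA', hA']
    have i1 : n + (-2 + t) = -2 + (n + t) := by ring
    have i2 : n - 2 + t = -2 + (n + t) := by ring
    cases η
    · rw [hXf, hDf, hXf]
      simp only [map_add, map_sub, map_smul, hDt, hDf, hXf, i1, i2]
      push_cast
      module
    · rw [hXt, hDt, hXt]
      simp only [map_add, map_sub, map_smul, hDt, hDf, hXt, i1, i2]
      push_cast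
      module
  -- the value at `1`
  have hX1 : ∀ m : ℤ, XM a b c m (1 : R K) = a • qq true true (fun _ => 1 / 2) m +
      b • qq true false (fun _ => -1) m + c • qq false false (fun _ => -(1 / 2)) m := by
    intro m
    rw [XM_apply, Q_one, Q_one, Q_one]
  have hX1h : ∀ m : ℤ, (XM a b c m (1 : R K)).IsHomogeneous 2 := by
    intro m
    rw [hX1]
    exact ((smul_hom _ _ _ (qq_hom _ _ _ _)).add (smul_hom _ _ _ (qq_hom _ _ _ _))).add
      (smul_hom _ _ _ (qq_hom _ _ _ _))
  have hD1 : DM K (1 : R K) = qq true false (fun s : ℤ => 3 * ((s : K) + 3 / 2)) (-2) :=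
    Q_one _ _ _ _
  have hDq : DM K (XM a b c n 1) = DM K 1 * XM a b c n 1 +
      xi true false (fun s : ℤ => 3 * ((s : K) + 3 / 2)) (-2) (XM a b c n 1) := by
    rw [hD1]
    unfold DM
    rw [Q_apply, tau_neg, add_zero]
  have htau : ∀ (ε ε' : Bool) (d : ℤ → K) (m : ℤ), (tau ε ε' d m (DM K 1)) =
      (3 / 2 : K) • tau ε ε' d m (X (true, 0) * X (false, 1)) +
        (-(3 / 2) : K) • tau ε ε' d m (X (true, 1) * X (false, 0)) := by
    intro ε ε' d m
    rw [hD1, qD h2, map_add, map_smul, map_smul]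
  have hXD : XM a b c n (DM K 1) = XM a b c n 1 * DM K 1 +
      (a • xi true true (fun _ => 1 / 2) n (DM K 1) + b • xi true false (fun _ => -1) n (DM K 1) +
        c • xi false false (fun _ => -(1 / 2)) n (DM K 1)) := by
    rw [hX1, XM_apply, Q_apply, Q_apply, Q_apply, htau, htau, htau, tau_tt, tau_tt, tau_ff, tau_ff,
      tau_tf, tau_tf]
    have e : (((0 : ℕ) : ℤ) + ((1 : ℕ) : ℤ) = n - 1) = (((1 : ℕ) : ℤ) + ((0 : ℕ) : ℤ) = n - 1) := by
      simp
    simp only [e, smul_zero, add_zero, add_mul, smul_mul_assoc]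
    module
  have hDh : (DM K (1 : R K)).IsHomogeneous 2 := by rw [hD1]; exact qq_hom _ _ _ _
  have hA1 : (A 1).IsHomogeneous 2 := by
    rw [hA', hDq, hXD]
    have e : DM K 1 * XM a b c n 1 +
        xi true false (fun s : ℤ => 3 * ((s : K) + 3 / 2)) (-2) (XM a b c n 1) -
        (XM a b c n 1 * DM K 1 +
          (a • xi true true (fun _ => 1 / 2) n (DM K 1) +
            b • xi true false (fun _ => -1) n (DM K 1) +
            c • xi false false (fun _ => -(1 / 2)) n (DM K 1))) +
        (3 * (n : K)) • XM a b c (n - 2) (1 : R K) =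
      xi true false (fun s : ℤ => 3 * ((s : K) + 3 / 2)) (-2) (XM a b c n 1) -
        (a • xi true true (fun _ => 1 / 2) n (DM K 1) +
            b • xi true false (fun _ => -1) n (DM K 1) +
            c • xi false false (fun _ => -(1 / 2)) n (DM K 1)) +
        (3 * (n : K)) • XM a b c (n - 2) (1 : R K) := by
      rw [mul_comm (DM K 1)]
      abel
    rw [e]
    refine (IsHomogeneous.sub ?_ ?_).add (smul_hom _ _ _ (hX1h _))
    · rw [hX1, map_add, map_add, Derivation.map_smul, Derivation.map_smul, Derivation.map_smul]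
      exact ((smul_hom _ _ _ (der_qq _ (xi_X_hom _ _ _ _) _ _ _ _)).add
        (smul_hom _ _ _ (der_qq _ (xi_X_hom _ _ _ _) _ _ _ _))).add
        (smul_hom _ _ _ (der_qq _ (xi_X_hom _ _ _ _) _ _ _ _))
    · rw [hD1]
      exact ((smul_hom _ _ _ (der_qq _ (xi_X_hom _ _ _ _) _ _ _ _)).add
        (smul_hom _ _ _ (der_qq _ (xi_X_hom _ _ _ _) _ _ _ _))).add
        (smul_hom _ _ _ (der_qq _ (xi_X_hom _ _ _ _) _ _ _ _))
  intro P
  have hs := hS K p A hp hcomm hA1.totalDegree_le P
  have hc : constantCoeff (A 1) = 0 := by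
    rw [constantCoeff_eq]
    exact hA1.coeff_eq_zero (by simp)
  rw [hc, zero_smul, hA'] at hs
  rw [← sub_eq_zero, ← hs]
  abel

end Pool.Agent.PVA
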