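import Pool.Agent.PVA.Stm

/-!
# Project PVA (helper21), piece REP (helper4): the representation of level `-1/2`
-/

set_option autoImplicit false

open MvPolynomial

namespace Pool.Agent.PVA

noncomputable section

namespace REP4

variable {K : Type} [Field K]

lemma sm (x : K) (P : R K) : x • P = C x * P := MvPolynomial.smul_eq_C_mul P x

/-- the matrix of the adjoint action -/
def al (a b c : K) (η ζ : Bool) : K :=
  if η = true then (if ζ = true then b else c) else (if ζ = true then a else -b)

lemma com_XM (hB : S_BRU) (h2 : (2 : K) ≠ 0) (a b c : K) (n : ℤ) (η : Bool) (t : ℤ) (P : R K) :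
    XM a b c n (u K η t P) = u K η t (XM a b c n P) + al a b c η true • u K true (n + t) P +
      al a b c η false • u K false (n + t) P := by
  have e1 := hB K true true η (fun _ => 1 / 2) n t P
  have e2 := hB K true false η (fun _ => -1) n t P
  have e3 := hB K false false η (fun _ => -(1 / 2)) n t P
  have hh : (C (1 / 2 : K) : R K) * 2 = 1 := by
    have : (2 : R K) = C 2 := (map_ofNat C 2).symm
    rw [this, ← C_mul, one_div, inv_mul_cancel₀ h2, C_1]
  have hX : ∀ P : R K, XM a b c n P = C a * Q true true (fun _ => 1 / 2) n P +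
      C b * Q true false (fun _ => -1) n P + C c * Q false false (fun _ => -(1 / 2)) n P := by
    intro P
    rw [← sm, ← sm, ← sm]
    rfl
  have hu : ∀ (x : K) (P : R K), u K η t (C x * P) = C x * u K η t P := by
    intro x P
    rw [← sm, LinearMap.map_smul, sm]
  rw [hX, hX, LinearMap.map_add, LinearMap.map_add, hu, hu, hu]
  simp only [sm] at e1 e2 e3
  rw [sm, sm]
  cases η
  · have o1 : om K true false = 1 := by simp [om]
    have o2 : om K false false = 0 := by simp [om]
    rw [o1] at e1 e2
    rw [o2] at e2 e3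
    have a1 : al a b c false true = a := by simp [al]
    have a2 : al a b c false false = -b := by simp [al]
    rw [a1, a2]
    simp only [one_mul, zero_mul, map_zero, map_neg, add_zero, zero_add, C_1, mul_neg, neg_mul,
      mul_one] at e1 e2 e3 ⊢
    linear_combination C a * e1 + C b * e2 + C c * e3 + C a * (u K true (n + t)) P * hh
  · have o1 : om K true true = 0 := by simp [om]
    have o2 : om K false true = -1 := by simp [om]
    rw [o1] at e1 e2
    rw [o2] at e2 e3
    have a1 : al a b c true true = b := by simp [al]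
    have a2 : al a b c true false = c := by simp [al]
    rw [a1, a2]
    simp only [one_mul, zero_mul, map_zero, map_neg, add_zero, zero_add, C_1, mul_neg, neg_mul,
      mul_one, neg_neg] at e1 e2 e3 ⊢
    linear_combination C a * e1 + C b * e2 + C c * e3 + C c * (u K false (n + t)) P * hh

/-- the commutator commutes with the `u` -/
lemma com_T {A B D : R K →ₗ[K] R K} {α β γ : Bool → Bool → K} {m n : ℤ}
    (hA : ∀ η t P, A (u K η t P) = u K η t (A P) + α η true • u K true (m + t) P +
      α η false • u K false (m + t) P)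
    (hB : ∀ η t P, B (u K η t P) = u K η t (B P) + β η true • u K true (n + t) P +
      β η false • u K false (n + t) P)
    (hD : ∀ η t P, D (u K η t P) = u K η t (D P) + γ η true • u K true (m + n + t) P +
      γ η false • u K false (m + n + t) P)
    (h : ∀ η ξ, β η true * α true ξ + β η false * α false ξ -
      (α η true * β true ξ + α η false * β false ξ) = γ η ξ)
    (η : Bool) (t : ℤ) (P : R K) :
    A (B (u K η t P)) - B (A (u K η t P)) - D (u K η t P) =
      u K η t (A (B P) - B (A P) - D P) := by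
  have i1 : m + (n + t) = m + n + t := by ring
  have i2 : n + (m + t) = m + n + t := by ring
  rw [hB η t P, hA η t P, hD η t P]
  simp only [map_add, map_sub, map_smul]
  rw [hA η t (B P), hB η t (A P), hA true (n + t) P, hA false (n + t) P, hB true (m + t) P,
    hB false (m + t) P, i1, i2, ← h η true, ← h η false]
  simp only [MvPolynomial.smul_eq_C_mul, map_mul, map_add, map_sub]
  ring

lemma crt_hom (ε : Bool) (s : ℤ) : (crt K ε s).IsHomogeneous 1 := by
  unfold crt
  split_ifs
  · exact isHomogeneous_X _ _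
  · exact isHomogeneous_zero _ _ _

/-- the polynomial of `XM` -/
def qM (a b c : K) (n : ℤ) : R K :=
  a • qq true true (fun _ => 1 / 2) n + b • qq true false (fun _ => -1) n +
    c • qq false false (fun _ => -(1 / 2)) n

/-- the derivation of `XM` -/
def xM (a b c : K) (n : ℤ) (P : R K) : R K :=
  a • xi true true (fun _ => 1 / 2) n P + b • xi true false (fun _ => -1) n P +
    c • xi false false (fun _ => -(1 / 2)) n P

/-- the second order part of `XM` -/
def tM (a b c : K) (n : ℤ) (P : R K) : R K :=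
  a • tau true true (fun _ => 1 / 2) n P + b • tau true false (fun _ => -1) n P +
    c • tau false false (fun _ => -(1 / 2)) n P

lemma XM_eq (a b c : K) (n : ℤ) (P : R K) :
    XM a b c n P = qM a b c n * P + xM a b c n P + tM a b c n P := by
  unfold XM Q qM xM tM
  simp only [LinearMap.add_apply, LinearMap.smul_apply, LinearMap.mulLeft_apply,
    MvPolynomial.smul_eq_C_mul]
  change _ * (_ * P + (xi true true _ n) P + _) + _ * (_ * P + (xi true false _ n) P + _) +
    _ * (_ * P + (xi false false _ n) P + _) = _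
  ring

lemma xM_one (a b c : K) (n : ℤ) : xM a b c n 1 = 0 := by
  unfold xM
  simp

lemma tau_one (ε ε' : Bool) (c : ℤ → K) (n : ℤ) : tau ε ε' c n 1 = 0 := by
  unfold tau
  rw [LinearMap.sum_apply]
  refine Finset.sum_eq_zero fun s _ => ?_
  rw [LinearMap.smul_apply, LinearMap.comp_apply]
  change c s • (ann K ε s) ((ann K ε' _) 1) = 0
  rw [Derivation.map_one_eq_zero, map_zero, smul_zero]

lemma tM_one (a b c : K) (n : ℤ) : tM a b c n 1 = 0 := by
  unfold tM
  simp [tau_one]

lemma XM_one (a b c : K) (n : ℤ) : XM a b c n 1 = qM a b c n := by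
  rw [XM_eq, xM_one, tM_one, mul_one, add_zero, add_zero]

lemma ann_crt (ε η : Bool) (s : ℕ) (t : ℤ) :
    ann K ε s (crt K η t) = if t = -(s : ℤ) - 1 then C (om K ε η) else 0 := by
  unfold crt ann
  by_cases ht : t < 0
  · rw [if_pos ht, mkDerivation_X]
    simp only
    by_cases h : t = -(s : ℤ) - 1
    · rw [if_pos (by omega), if_pos h]
    · rw [if_neg (by omega), if_neg h]
  · rw [if_neg ht, map_zero, if_neg (by omega)]

/-- the second derivatives of a product -/
lemma ann_ann (ε ε' η η' : Bool) (s k : ℕ) (t t' : ℤ) :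
    ann K ε s (ann K ε' k (crt K η t * crt K η' t')) =
      C ((if t = -(k : ℤ) - 1 then om K ε' η else 0) * (if t' = -(s : ℤ) - 1 then om K ε η' else 0) +
        (if t' = -(k : ℤ) - 1 then om K ε' η' else 0) * (if t = -(s : ℤ) - 1 then om K ε η else 0)) := by
  have hC : ∀ (x : K) (P : R K), ann K ε s (P * C x) = ann K ε s P * C x := by
    intro x P
    rw [mul_comm, ← sm, Derivation.map_smul, sm, mul_comm]
  have e1 : ∀ (ε η : Bool) (s : ℕ) (t : ℤ), ann K ε s (crt K η t) =
      C (if t = -(s : ℤ) - 1 then om K ε η else 0) := by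
    intro ε η s t
    rw [ann_crt]
    split_ifs
    · rfl
    · rw [C_0]
  rw [Derivation.leibniz, map_add, smul_eq_mul, smul_eq_mul, e1, e1, hC, hC, e1, e1]
  simp only [map_add, map_mul]
  ring

lemma S2_C (x : K) : (C x : R K) ∈ restrictTotalDegree (Bool × ℕ) K 2 := by
  rw [mem_restrictTotalDegree, totalDegree_C]
  omega

lemma S2_hom {P : R K} (h : P.IsHomogeneous 2) : P ∈ restrictTotalDegree (Bool × ℕ) K 2 := by
  rw [mem_restrictTotalDegree]
  exact h.totalDegree_le

lemma hom_smul {P : R K} {d : ℕ} (x : K) (h : P.IsHomogeneous d) : (x • P).IsHomogeneous d := by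
  rw [MvPolynomial.smul_eq_C_mul]
  exact h.C_mul x

lemma qq_hom (ε ε' : Bool) (c : ℤ → K) (n : ℤ) : (qq ε ε' c n).IsHomogeneous 2 := by
  unfold qq
  refine IsHomogeneous.sum _ _ _ fun i _ => hom_smul _ ?_
  exact (crt_hom ε _).mul (crt_hom ε' _)

lemma xi_crt_hom (ε ε' η : Bool) (c : ℤ → K) (n t : ℤ) :
    (xi ε ε' c n (crt K η t)).IsHomogeneous 1 := by
  unfold crt
  split_ifs
  · unfold xi
    rw [mkDerivation_X]
    exact (hom_smul _ (crt_hom _ _)).add (hom_smul _ (crt_hom _ _))
  · rw [map_zero]
    exact isHomogeneous_zero _ _ _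

lemma xi_qq_hom (ε ε' η η' : Bool) (c d : ℤ → K) (m n : ℤ) :
    (xi ε ε' c m (qq η η' d n)).IsHomogeneous 2 := by
  unfold qq
  rw [map_sum]
  refine IsHomogeneous.sum _ _ _ fun i _ => ?_
  rw [Derivation.map_smul, Derivation.leibniz, smul_eq_mul, smul_eq_mul]
  exact hom_smul _ (((crt_hom _ _).mul (xi_crt_hom _ _ _ _ _ _)).add
    ((crt_hom _ _).mul (xi_crt_hom _ _ _ _ _ _)))

lemma tau_qq (ε ε' η η' : Bool) (c d : K) (m n : ℤ) :
    tau ε ε' (fun _ => c) m (qq η η' (fun _ => d) n) = C (if m + n = 0 then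
      (m.toNat : K) * (c * d * (om K ε' η * om K ε η' + om K ε' η' * om K ε η)) else 0) := by
  unfold tau qq
  rw [LinearMap.sum_apply]
  have h1 : ∀ s ∈ Finset.range m.toNat, ((c • ((ann K ε s).toLinearMap ∘ₗ
      (ann K ε' (m - 1 - s).toNat).toLinearMap)) : R K →ₗ[K] R K)
      (∑ i ∈ Finset.range (-n).toNat, d • (crt K η (-i - 1) * crt K η' (n + i))) =
      C (if m + n = 0 then
        (c * d * (om K ε' η * om K ε η' + om K ε' η' * om K ε η)) else 0) := by
    intro s hs
    have hs' := Finset.mem_range.1 hs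
    rw [LinearMap.smul_apply, LinearMap.comp_apply]
    change c • (ann K ε s) ((ann K ε' (m - 1 - s).toNat) _) = _
    rw [map_sum, map_sum]
    have h2 : ∀ i ∈ Finset.range (-n).toNat, (ann K ε s) ((ann K ε' (m - 1 - s).toNat)
        (d • (crt K η (-i - 1) * crt K η' (n + i)))) =
        C ((if m + n = 0 ∧ i = (m - 1 - s).toNat then d * (om K ε' η * om K ε η') else 0) +
          (if m + n = 0 ∧ i = s then d * (om K ε' η' * om K ε η) else 0)) := by
      intro i hi
      have hi' := Finset.mem_range.1 hi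
      rw [Derivation.map_smul, Derivation.map_smul, ann_ann, sm, ← C_mul]
      congr 1
      have j1 : ((-(i : ℤ) - 1 = -(((m - 1 - s).toNat : ℕ) : ℤ) - 1) ∧ (n + i = -(s : ℤ) - 1)) ↔
          (m + n = 0 ∧ i = (m - 1 - s).toNat) := by
        constructor <;> rintro ⟨h3, h4⟩ <;> constructor <;> omega
      have j2 : ((n + i = -(((m - 1 - s).toNat : ℕ) : ℤ) - 1) ∧ (-(i : ℤ) - 1 = -(s : ℤ) - 1)) ↔
          (m + n = 0 ∧ i = s) := by
        constructor <;> rintro ⟨h3, h4⟩ <;> constructor <;> omega
      rw [mul_add]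
      congr 1
      · by_cases h3 : m + n = 0 ∧ i = (m - 1 - s).toNat
        · rw [if_pos h3, if_pos (j1.2 h3).1, if_pos (j1.2 h3).2]
        · rw [if_neg h3]
          by_cases h4 : -(i : ℤ) - 1 = -(((m - 1 - s).toNat : ℕ) : ℤ) - 1
          · rw [if_neg (fun h5 => h3 (j1.1 ⟨h4, h5⟩)), mul_zero, mul_zero]
          · rw [if_neg h4, zero_mul, mul_zero]
      · by_cases h3 : m + n = 0 ∧ i = s
        · rw [if_pos h3, if_pos (j2.2 h3).1, if_pos (j2.2 h3).2]
        · rw [if_neg h3]
          by_cases h4 : n + i = -(((m - 1 - s).toNat : ℕ) : ℤ) - 1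
          · rw [if_neg (fun h5 => h3 (j2.1 ⟨h4, h5⟩)), mul_zero, mul_zero]
          · rw [if_neg h4, zero_mul, mul_zero]
    rw [Finset.sum_congr rfl h2, ← map_sum, sm, ← C_mul]
    congr 1
    by_cases h3 : m + n = 0
    · have k1 : (m - 1 - s).toNat ∈ Finset.range (-n).toNat := Finset.mem_range.2 (by omega)
      have k2 : s ∈ Finset.range (-n).toNat := Finset.mem_range.2 (by omega)
      simp only [h3, true_and, if_true]
      rw [Finset.sum_add_distrib, Finset.sum_ite_eq' , if_pos k1, Finset.sum_ite_eq', if_pos k2]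
      ring
    · simp only [h3, false_and, if_false, add_zero, Finset.sum_const_zero, mul_zero]
  rw [Finset.sum_congr rfl h1, Finset.sum_const, Finset.card_range]
  split_ifs
  · rw [← map_nsmul, nsmul_eq_mul]
  · simp

lemma tM_qM (h2 : (2 : K) ≠ 0) (a b c a' b' c' : K) (m n : ℤ) :
    tM a b c m (qM a' b' c' n) = C (if m + n = 0 then
      (m.toNat : K) * (-(1 / 2) * (a * c' + c * a' + 2 * (b * b'))) else 0) := by
  have t1 : ∀ (ε ε' : Bool) (x : K), tau ε ε' (fun _ => x) m (qM a' b' c' n) =
      C (a' * (if m + n = 0 then (m.toNat : K) * (x * (1 / 2) *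
          (om K ε' true * om K ε true + om K ε' true * om K ε true)) else 0) +
        b' * (if m + n = 0 then (m.toNat : K) * (x * (-1) *
          (om K ε' true * om K ε false + om K ε' false * om K ε true)) else 0) +
        c' * (if m + n = 0 then (m.toNat : K) * (x * (-(1 / 2)) *
          (om K ε' false * om K ε false + om K ε' false * om K ε false)) else 0)) := by
    intro ε ε' x
    unfold qM
    rw [LinearMap.map_add, LinearMap.map_add, LinearMap.map_smul, LinearMap.map_smul,
      LinearMap.map_smul, tau_qq, tau_qq, tau_qq, sm, sm, sm, ← C_mul, ← C_mul, ← C_mul, ← C_add,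
      ← C_add]
  unfold tM
  rw [t1, t1, t1, sm, sm, sm, ← C_mul, ← C_mul, ← C_mul, ← C_add, ← C_add]
  congr 1
  have o1 : om K true false = 1 := by simp [om]
  have o2 : om K false false = 0 := by simp [om]
  have o3 : om K true true = 0 := by simp [om]
  have o4 : om K false true = -1 := by simp [om]
  rw [o1, o2, o3, o4]
  by_cases h : m + n = 0
  · simp only [if_pos h]
    field_simp
    ring
  · simp only [if_neg h]
    ring

lemma xM_qM_hom (a b c a' b' c' : K) (m n : ℤ) : (xM a b c m (qM a' b' c' n)).IsHomogeneous 2 := by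
  have h1 : ∀ (ε ε' : Bool) (d : ℤ → K), (xi ε ε' d m (qM a' b' c' n)).IsHomogeneous 2 := by
    intro ε ε' d
    unfold qM
    rw [map_add, map_add, Derivation.map_smul, Derivation.map_smul, Derivation.map_smul]
    exact ((hom_smul _ (xi_qq_hom _ _ _ _ _ _ _ _)).add
      (hom_smul _ (xi_qq_hom _ _ _ _ _ _ _ _))).add (hom_smul _ (xi_qq_hom _ _ _ _ _ _ _ _))
  unfold xM
  exact ((hom_smul _ (h1 _ _ _)).add (hom_smul _ (h1 _ _ _))).add (hom_smul _ (h1 _ _ _))

lemma qM_hom (a b c : K) (n : ℤ) : (qM a b c n).IsHomogeneous 2 := by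
  unfold qM
  exact ((hom_smul _ (qq_hom _ _ _ _)).add (hom_smul _ (qq_hom _ _ _ _))).add
    (hom_smul _ (qq_hom _ _ _ _))

lemma cc_hom {P : R K} (h : P.IsHomogeneous 2) : constantCoeff P = 0 := by
  by_contra hne
  have h1 := h (d := 0) (by
    rw [constantCoeff_eq] at hne
    exact hne)
  simp at h1

end REP4

open REP4 in
theorem t_REP (hB : S_BRU) (hS : S_SCA) : S_REP := by
  intro K _ p _ _ hp a b c a' b' c' m n P
  have h2 : (2 : K) ≠ 0 := by
    intro h
    have h3 : ((2 : ℕ) : K) = 0 := by exact_mod_cast h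
    have h4 := (CharP.cast_eq_zero_iff K p 2).1 h3
    have := Nat.le_of_dvd (by norm_num) h4
    omega
  let A := XM a b c m
  let B := XM a' b' c' n
  let D := XM (2 * (b * a' - a * b')) (a * c' - c * a') (2 * (c * b' - b * c')) (m + n)
  let T : R K →ₗ[K] R K := A ∘ₗ B - B ∘ₗ A - D
  have hT : ∀ P, T P = A (B P) - B (A P) - D P := fun P => rfl
  have hcom : ∀ η t P, T (u K η t P) = u K η t (T P) := by
    intro η t P
    rw [hT, hT]
    refine com_T (com_XM hB h2 a b c m) (com_XM hB h2 a' b' c' n)
      (com_XM hB h2 _ _ _ (m + n)) ?_ η t P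
    intro η ξ
    cases η <;> cases ξ <;> simp [al] <;> ring
  have h1 : T 1 = (xM a b c m (qM a' b' c' n) - xM a' b' c' n (qM a b c m) -
      qM (2 * (b * a' - a * b')) (a * c' - c * a') (2 * (c * b' - b * c')) (m + n)) +
      (tM a b c m (qM a' b' c' n) - tM a' b' c' n (qM a b c m)) := by
    rw [hT]
    change XM a b c m (XM a' b' c' n 1) - XM a' b' c' n (XM a b c m 1) - XM _ _ _ (m + n) 1 = _
    rw [XM_one, XM_one, XM_one, XM_eq, XM_eq]
    ring
  have hom : (xM a b c m (qM a' b' c' n) - xM a' b' c' n (qM a b c m) -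
      qM (2 * (b * a' - a * b')) (a * c' - c * a') (2 * (c * b' - b * c')) (m + n)).IsHomogeneous 2 :=
    ((xM_qM_hom _ _ _ _ _ _ _ _).sub (xM_qM_hom _ _ _ _ _ _ _ _)).sub (qM_hom _ _ _ _)
  have hdeg : (T 1).totalDegree ≤ 2 := by
    rw [← mem_restrictTotalDegree, h1]
    refine add_mem (S2_hom hom) (sub_mem ?_ ?_)
    · rw [tM_qM h2]
      exact S2_C _
    · rw [tM_qM h2]
      exact S2_C _
  have hcc : constantCoeff (T 1) = if m + n = 0 then
      (m : K) * (a * c' + c * a' + 2 * (b * b')) * (-(1 / 2)) else 0 := by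
    rw [h1, map_add, cc_hom hom, zero_add, map_sub, tM_qM h2, tM_qM h2, constantCoeff_C,
      constantCoeff_C]
    by_cases h : m + n = 0
    · have h' : n + m = 0 := by omega
      rw [if_pos h, if_pos h', if_pos h]
      have e : (m : K) = (m.toNat : K) - (n.toNat : K) := by
        have : (m : ℤ) = (m.toNat : ℤ) - (n.toNat : ℤ) := by omega
        conv_lhs => rw [this]
        push_cast
        rfl
      rw [e]
      ring
    · have h' : ¬ n + m = 0 := by omega
      rw [if_neg h, if_neg h', if_neg h, sub_zero]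
  have key := hS K p T hp hcom hdeg P
  rw [hcc, hT] at key
  change XM a b c m (XM a' b' c' n P) - XM a' b' c' n (XM a b c m P) - XM _ _ _ (m + n) P = _ at key
  rw [sub_eq_iff_eq_add] at key
  rw [key, add_comm]

end

end Pool.Agent.PVA
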