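import Pool.Agent.PVA.Stm

/-!
# PVA, piece SCA (helper70)
-/

open MvPolynomial

namespace Pool.Agent.PVA

noncomputable section

namespace SCAP

variable {K : Type*} [Field K]

lemma u_neg (η : Bool) (k : ℕ) (P : R K) : u K η (-(k : ℤ) - 1) P = X (η, k) * P := by
  unfold u
  rw [if_pos (by omega), LinearMap.mulLeft_apply]
  unfold crt
  rw [if_pos (by omega)]
  have : (-(-(k : ℤ) - 1) - 1).toNat = k := by omega
  rw [this]

lemma u_nonneg (η : Bool) (k : ℕ) (P : R K) : u K η (k : ℤ) P = ann K η k P := by
  unfold u
  rw [if_neg (by omega), Int.toNat_natCast]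
  rfl

lemma ann_true (k : ℕ) : ann K true k = pderiv (false, k) := by
  refine MvPolynomial.derivation_ext fun i => ?_
  obtain ⟨b, m⟩ := i
  unfold ann
  rw [mkDerivation_X, pderiv_X]
  simp only
  by_cases hm : m = k
  · subst hm
    cases b
    · simp [om]
    · simp [om]
  · rw [if_neg hm, Pi.single_apply, if_neg]
    intro h
    exact hm (by have := congrArg Prod.snd h; exact this)

lemma ann_false (k : ℕ) : ann K false k = -pderiv (true, k) := by
  refine MvPolynomial.derivation_ext fun i => ?_
  obtain ⟨b, m⟩ := i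
  rw [Derivation.neg_apply]
  unfold ann
  rw [mkDerivation_X, pderiv_X]
  simp only
  by_cases hm : m = k
  · subst hm
    cases b
    · simp [om]
    · simp [om]
  · rw [if_neg hm, Pi.single_apply, if_neg, neg_zero]
    intro h
    exact hm (by have := congrArg Prod.snd h; exact this)

lemma const_of (p : ℕ) [Fact p.Prime] [CharP K p] (hp : 3 ≤ p) (f : R K)
    (hf : ∀ i, pderiv i f = 0) (hd : f.totalDegree ≤ 2) : f = C (constantCoeff f) := by
  ext d
  rw [coeff_C]
  by_cases h0 : d = 0
  · subst h0
    rw [if_pos rfl]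
    rfl
  · rw [if_neg (Ne.symm h0)]
    by_contra hne
    obtain ⟨i, hi⟩ : ∃ i, d i ≠ 0 := by
      by_contra hall
      push Not at hall
      exact h0 (Finsupp.ext hall)
    have h1 : d.degree ≤ 2 := (MvPolynomial.le_totalDegree (MvPolynomial.mem_support_iff.2 hne)).trans hd
    have h2 : d i ≤ d.degree := Finsupp.le_degree i d
    have h3 := congrArg (coeff (d - Finsupp.single i 1)) (hf i)
    rw [coeff_pderiv, coeff_zero] at h3
    have h4 : d - Finsupp.single i 1 + Finsupp.single i 1 = d := by
      ext j
      by_cases hj : j = i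
      · subst hj
        simp only [Finsupp.add_apply, Finsupp.tsub_apply, Finsupp.single_eq_same]
        omega
      · simp [Ne.symm hj]
    rw [h4] at h3
    set d' : Bool × ℕ →₀ ℕ := d - Finsupp.single i 1 with hd'
    have h5 : ((d' i : ℕ) : K) + 1 ≠ 0 := by
      have h6 : d' i + 1 = d i := by
        rw [hd', Finsupp.tsub_apply, Finsupp.single_eq_same]
        omega
      have h7 : ((d' i : ℕ) : K) + 1 = ((d i : ℕ) : K) := by
        rw [← h6]
        push_cast
        rfl
      rw [h7, Ne, CharP.cast_eq_zero_iff K p]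
      intro hdvd
      have := Nat.le_of_dvd (by omega) hdvd
      omega
    rcases mul_eq_zero.1 h3 with h | h
    · exact hne h
    · exact h5 h

end SCAP

open SCAP in
theorem t_SCA : S_SCA := by
  intro K _ p _ _ A hp hcomm hdeg P
  have h1 : ∀ P, A P = P * A 1 := by
    intro P
    induction P using MvPolynomial.induction_on with
    | C a =>
      have : (C a : R K) = a • 1 := by rw [smul_eq_C_mul, mul_one]
      rw [this, map_smul, smul_mul_assoc, one_mul]
    | add P Q hP hQ => rw [map_add, hP, hQ, add_mul]
    | mul_X P i hP =>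
      obtain ⟨η, k⟩ := i
      have := hcomm η (-(k : ℤ) - 1) P
      rw [u_neg, u_neg, hP] at this
      rw [mul_comm P, this]
      ring
  have h2 : ∀ η k, ann K η k (A 1) = 0 := by
    intro η k
    have := hcomm η (k : ℤ) 1
    rw [u_nonneg, u_nonneg, Derivation.map_one_eq_zero, map_zero] at this
    exact this.symm
  have h3 : ∀ i, pderiv i (A 1) = 0 := by
    rintro ⟨b, k⟩
    cases b
    · rw [← ann_true]
      exact h2 _ _
    · have := h2 false k
      rw [ann_false, Derivation.neg_apply, neg_eq_zero] at this
      exact this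
  have h4 := const_of p hp (A 1) h3 hdeg
  rw [h1 P, smul_eq_C_mul, mul_comm, ← h4]

end

end Pool.Agent.PVA
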