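import Pool.Agent.PVA.Stm

/-!
Piece TOP of project PVA (helper45).
-/

set_option autoImplicit false

open MvPolynomial

namespace Pool.Agent.PVA

noncomputable section

variable {K : Type} [Field K]

/-- the polynomials all of whose monomials have degree in `T` -/
def topW (K : Type) [Field K] (T : Set ℕ) : Submodule K (R K) where
  carrier := {f | ∀ d : Bool × ℕ →₀ ℕ, coeff d f ≠ 0 → d.degree ∈ T}
  add_mem' := by
    intro f g hf hg d hd
    by_cases h : coeff d f = 0
    · refine hg d (fun h' => hd ?_)
      rw [coeff_add, h, h', add_zero]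
    · exact hf d h
  zero_mem' := by
    intro d hd
    exact absurd (coeff_zero d) hd
  smul_mem' := by
    intro c f hf d hd
    refine hf d (fun h => hd ?_)
    rw [coeff_smul, h, smul_zero]

theorem topW_mono {T T' : Set ℕ} (h : T ⊆ T') {f : R K} (hf : f ∈ topW K T) : f ∈ topW K T' :=
  fun d hd => h (hf d hd)

theorem topW_hom {T : Set ℕ} {n : ℕ} (hn : n ∈ T) {f : R K} (hf : f.IsHomogeneous n) : f ∈ topW K T := by
  intro d hd
  have h : Finsupp.weight (1 : Bool × ℕ → ℕ) d = n := hf hd
  have h1 : d.degree = Finsupp.weight (1 : Bool × ℕ → ℕ) d := by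
    rw [Finsupp.degree_eq_weight_one]
    rfl
  rw [h1, h]
  exact hn

theorem top_x_hom (x : Derivation K (R K) (R K)) (hx : ∀ i, (x (X i)).IsHomogeneous 1) (s : Bool × ℕ →₀ ℕ) (r : K) :
    (x (monomial s r)).IsHomogeneous s.degree := by
  have e : x = mkDerivation K (fun i => x (X i)) := by
    apply MvPolynomial.derivation_ext
    intro i
    rw [mkDerivation_X]
  rw [e, mkDerivation_monomial]
  have h1 : (s.sum fun i k => (monomial (s - Finsupp.single i 1)) (k : K) • x (X i)).IsHomogeneous s.degree := by
    apply IsHomogeneous.sum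
    intro i hi
    change ((monomial (s - Finsupp.single i 1)) ((s i : ℕ) : K) • x (X i)).IsHomogeneous s.degree
    rw [smul_eq_mul]
    have hs : (s - Finsupp.single i 1).degree + 1 = s.degree := by
      have h2 : s - Finsupp.single i 1 + Finsupp.single i 1 = s := by
        apply tsub_add_cancel_of_le
        rw [Finsupp.single_le_iff]
        exact Nat.one_le_iff_ne_zero.2 (Finsupp.mem_support_iff.1 hi)
      conv_rhs => rw [← h2]
      rw [map_add, Finsupp.degree_single]
    rw [← hs]
    exact (isHomogeneous_monomial _ rfl).mul (hx i)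
  rw [MvPolynomial.smul_eq_C_mul]
  have h3 := (isHomogeneous_C (Bool × ℕ) r).mul h1
  rw [zero_add] at h3
  exact h3

theorem topW_x (x : Derivation K (R K) (R K)) (hx : ∀ i, (x (X i)).IsHomogeneous 1) {T : Set ℕ} {f : R K}
    (hf : f ∈ topW K T) : x f ∈ topW K T := by
  rw [← support_sum_monomial_coeff f, map_sum]
  refine Submodule.sum_mem _ (fun d hd => ?_)
  exact topW_hom (hf d (mem_support_iff.1 hd)) (top_x_hom x hx d _)

theorem topW_q (q : R K) (hq : q.IsHomogeneous 2) {T T' : Set ℕ} (hT : ∀ m ∈ T, 2 + m ∈ T') {f : R K}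
    (hf : f ∈ topW K T) : q * f ∈ topW K T' := by
  rw [← support_sum_monomial_coeff f, Finset.mul_sum]
  refine Submodule.sum_mem _ (fun d hd => ?_)
  exact topW_hom (hT _ (hf d (mem_support_iff.1 hd))) (hq.mul (isHomogeneous_monomial _ rfl))

theorem t_TOP : S_TOP := by
  intro K _ q x hq hx k hk
  have main : ((LinearMap.mulLeft K q + x.toLinearMap) ^ k) 1 - q ^ k ∈
      topW K {m | Even m ∧ 2 ≤ m ∧ m < 2 * k} := by
    induction k, hk using Nat.le_induction with
    | base =>
      rw [pow_one, pow_one]
      have e : (LinearMap.mulLeft K q + x.toLinearMap) 1 - q = 0 := by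
        change (LinearMap.mulLeft K q) 1 + x 1 - q = 0
        rw [LinearMap.mulLeft_apply, mul_one, Derivation.map_one_eq_zero, add_zero, sub_self]
      rw [e]
      exact Submodule.zero_mem _
    | succ k hk ih =>
      set P := ((LinearMap.mulLeft K q + x.toLinearMap) ^ k) 1 - q ^ k with hP
      have e0 : ((LinearMap.mulLeft K q + x.toLinearMap) ^ k) 1 = q ^ k + P := by
        rw [hP]
        ring
      have e : ((LinearMap.mulLeft K q + x.toLinearMap) ^ (k + 1)) 1 - q ^ (k + 1) =
          q * P + x (q ^ k) + x P := by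
        rw [pow_succ', Module.End.mul_apply, e0]
        change (LinearMap.mulLeft K q) (q ^ k + P) + x (q ^ k + P) - q ^ (k + 1) = _
        rw [LinearMap.mulLeft_apply, map_add]
        ring
      rw [e]
      refine Submodule.add_mem _ (Submodule.add_mem _ ?_ ?_) ?_
      · refine topW_q q hq ?_ ih
        rintro m ⟨h1, h2, h3⟩
        refine ⟨?_, by omega, by omega⟩
        exact even_two.add h1
      · refine topW_x x hx (topW_hom (n := 2 * k) ?_ (hq.pow k))
        exact ⟨even_two_mul k, by omega, by omega⟩
      · refine topW_x x hx (topW_mono ?_ ih)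
        rintro m ⟨h1, h2, h3⟩
        exact ⟨h1, h2, by omega⟩
  intro d hd
  exact main d hd

end

end Pool.Agent.PVA
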