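import Pool.Agent.PVA.Stm

/-!
# Project PVA, piece ZAL (helper55): `ell p` vanishes on the image of the `p`-centre
-/

open MvPolynomial

namespace Pool.Agent.PVA

namespace ZALx

variable {K : Type} [Field K]

/-- The property carried through the induction. -/
def Good (p : ℕ) (A : Module.End K (R K)) : Prop :=
  (∀ P, A P = P * A 1) ∧ (∀ d : Bool × ℕ →₀ ℕ, d ≠ 0 → d.degree < 2 * p → coeff d (A 1) = 0) ∧
    ell K p (A 1) = 0

theorem ell_add (p : ℕ) (P Q : R K) : ell K p (P + Q) = ell K p P + ell K p Q := by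
  unfold ell
  rw [coeff_add, coeff_add]
  ring

theorem coeff_mul_top {p : ℕ} (g g' : R K)
    (hg : ∀ d : Bool × ℕ →₀ ℕ, d ≠ 0 → d.degree < 2 * p → coeff d g = 0)
    (_ : ∀ d : Bool × ℕ →₀ ℕ, d ≠ 0 → d.degree < 2 * p → coeff d g' = 0)
    (d : Bool × ℕ →₀ ℕ) (hd0 : d ≠ 0) (hd : d.degree ≤ 2 * p) :
    coeff d (g * g') = coeff 0 g * coeff d g' + coeff d g * coeff 0 g' := by
  classical
  rw [coeff_mul, ← Finset.sum_subset (s₁ := {(0, d), (d, 0)})]
  · rw [Finset.sum_pair]
    intro h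
    exact hd0 (Prod.ext_iff.mp h).2
  · intro x hx
    rw [Finset.mem_insert, Finset.mem_singleton] at hx
    rw [Finset.HasAntidiagonal.mem_antidiagonal]
    rcases hx with rfl | rfl <;> simp
  · intro x hx hx'
    rw [Finset.HasAntidiagonal.mem_antidiagonal] at hx
    rw [Finset.mem_insert, Finset.mem_singleton] at hx'
    obtain ⟨a, b⟩ := x
    simp only at hx ⊢
    have ha : a ≠ 0 := by
      rintro rfl
      rw [zero_add] at hx
      exact hx' (Or.inl (by rw [hx]))
    have hb : b ≠ 0 := by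
      rintro rfl
      rw [add_zero] at hx
      exact hx' (Or.inr (by rw [hx]))
    have hbd : 0 < b.degree := by
      rw [Nat.pos_iff_ne_zero]
      intro h0
      exact hb (Finsupp.degree_eq_zero_iff b |>.mp h0)
    have hab : a.degree + b.degree ≤ 2 * p := by
      rw [← map_add, hx]; exact hd
    rw [hg a ha (by omega), zero_mul]

theorem good_one (p : ℕ) (hp : 1 ≤ p) (r : K) :
    Good p (algebraMap K (Module.End K (R K)) r) := by
  have h1 : (algebraMap K (Module.End K (R K)) r) 1 = C r := by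
    rw [Module.algebraMap_end_apply, smul_eq_C_mul, mul_one]
  refine ⟨fun P => ?_, fun d hd _ => ?_, ?_⟩
  · rw [h1, Module.algebraMap_end_apply, smul_eq_C_mul, mul_comm]
  · rw [h1, coeff_C, if_neg hd.symm]
  · unfold ell
    have h2 : ∀ i j : Bool × ℕ, (0 : Bool × ℕ →₀ ℕ) ≠ Finsupp.single i p + Finsupp.single j p := by
      intro i j h0
      have := congrArg Finsupp.degree h0
      rw [map_add, Finsupp.degree_single, Finsupp.degree_single, map_zero] at this
      omega
    rw [h1, coeff_C, coeff_C, if_neg (h2 _ _), if_neg (h2 _ _), sub_zero]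

theorem good_add {p : ℕ} {A B : Module.End K (R K)} (hA : Good p A) (hB : Good p B) :
    Good p (A + B) := by
  obtain ⟨a1, a2, a3⟩ := hA
  obtain ⟨b1, b2, b3⟩ := hB
  refine ⟨fun P => ?_, fun d hd hd' => ?_, ?_⟩
  · rw [LinearMap.add_apply, LinearMap.add_apply, a1 P, b1 P]
    ring
  · rw [LinearMap.add_apply, coeff_add, a2 d hd hd', b2 d hd hd', add_zero]
  · rw [LinearMap.add_apply, ell_add, a3, b3, add_zero]

theorem good_mul {p : ℕ} (hp : 1 ≤ p) {A B : Module.End K (R K)} (hA : Good p A)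
    (hB : Good p B) : Good p (A * B) := by
  obtain ⟨a1, a2, a3⟩ := hA
  obtain ⟨b1, b2, b3⟩ := hB
  have h1 : (A * B) 1 = A 1 * B 1 := by
    rw [Module.End.mul_apply, a1 (B 1), mul_comm]
  refine ⟨fun P => ?_, fun d hd hd' => ?_, ?_⟩
  · rw [h1, Module.End.mul_apply, a1 (B P), b1 P]
    ring
  · rw [h1, coeff_mul_top _ _ a2 b2 d hd hd'.le, a2 d hd hd', b2 d hd hd']
    ring
  · have h2 : ∀ i j : Bool × ℕ, Finsupp.single i p + Finsupp.single j p ≠ 0 := by
      intro i j h0
      have := congrArg Finsupp.degree h0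
      rw [map_add, Finsupp.degree_single, Finsupp.degree_single, map_zero] at this
      omega
    have h3 : ∀ i j : Bool × ℕ, (Finsupp.single i p + Finsupp.single j p).degree ≤ 2 * p := by
      intro i j
      rw [map_add, Finsupp.degree_single, Finsupp.degree_single]
      omega
    unfold ell at a3 b3 ⊢
    rw [h1, coeff_mul_top _ _ a2 b2 _ (h2 _ _) (h3 _ _),
      coeff_mul_top _ _ a2 b2 _ (h2 _ _) (h3 _ _)]
    linear_combination (coeff 0 (A 1)) * b3 + (coeff 0 (B 1)) * a3

end ZALx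

open ZALx in
theorem t_ZAL (h1 : S_ZMU) (h2 : S_ZCO) : S_ZAL := by
  intro K _ p _ _ hp Φ hΦ z hz
  suffices h : Good p (Φ z) from h.2.2
  unfold Z0 at hz
  induction hz using Algebra.adjoin_induction with
  | mem u hu =>
    obtain ⟨a, b, c, n, rfl⟩ := hu
    obtain ⟨M, hM⟩ : ∃ M : Matrix (Fin 2) (Fin 2) K, M = !![b, a; c, -b] ^ p := ⟨_, rfl⟩
    have hA : (Φ (xx a b c n ^ p - pmap p a b c n) : R K →ₗ[K] R K) =
        XM a b c n ^ p - XM (M 0 1) (M 0 0) (M 1 0) (p * n) := by
      rw [map_sub, map_pow, hΦ]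
      unfold pmap
      rw [hΦ, hM]
    obtain ⟨-, h3, -⟩ := h1 K p hp a b c n M hM _ hA
    obtain ⟨h4, h5⟩ := h2 K p hp a b c n M hM _ hA
    exact ⟨h3, fun d _ hd => h4 d hd, h5⟩
  | algebraMap r =>
    rw [AlgHom.commutes]
    exact good_one p (by omega) r
  | add x y _ _ hx hy =>
    rw [map_add]
    exact good_add hx hy
  | mul x y _ _ hx hy =>
    rw [map_mul]
    exact good_mul (by omega) hx hy

end Pool.Agent.PVA
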