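import Pool.Agent.PVA.Stm

/-!
# Project PVA, piece ZCO (helper23)
-/

set_option autoImplicit false

open MvPolynomial

namespace Pool.Agent.PVA

variable {K : Type} [Field K]

/-- the polynomial part of `Q` as a sum of monomials -/
theorem ZCO.qq_eq (ε ε' : Bool) (c : ℤ → K) (n : ℤ) :
    qq ε ε' c n = ∑ i ∈ Finset.range (-n).toNat,
      monomial (Finsupp.single (ε, i) 1 + Finsupp.single (ε', (-n).toNat - 1 - i) 1)
        (c (-i - 1)) := by
  unfold qq
  apply Finset.sum_congr rfl
  intro i hi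
  rw [Finset.mem_range] at hi
  have h1 : crt K ε (-i - 1) = X (ε, i) := by
    unfold crt
    rw [if_pos (by omega)]
    congr 2
    omega
  have h2 : crt K ε' (n + i) = X (ε', (-n).toNat - 1 - i) := by
    unfold crt
    rw [if_pos (by omega)]
    congr 2
    omega
  rw [h1, h2, X, X, monomial_mul, one_mul, smul_monomial, smul_eq_mul, mul_one]

theorem ZCO.qq_hom (ε ε' : Bool) (c : ℤ → K) (n : ℤ) : (qq ε ε' c n).IsHomogeneous 2 := by
  rw [ZCO.qq_eq]
  apply IsHomogeneous.sum
  intro i _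
  apply isHomogeneous_monomial
  simp [Finsupp.degree_single]

theorem ZCO.crt_hom (ε : Bool) (s : ℤ) : (crt K ε s).IsHomogeneous 1 := by
  unfold crt
  split_ifs
  · exact isHomogeneous_X _ _
  · exact isHomogeneous_zero _ _ _

theorem ZCO.smul_hom {a : K} {P : R K} {d : ℕ} (h : P.IsHomogeneous d) :
    (a • P).IsHomogeneous d := by
  rw [smul_eq_C_mul]
  exact h.C_mul a

theorem ZCO.xi_hom (ε ε' : Bool) (c : ℤ → K) (n : ℤ) (i : Bool × ℕ) :
    (xi ε ε' c n (X i)).IsHomogeneous 1 := by
  unfold xi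
  rw [mkDerivation_X]
  exact (ZCO.smul_hom (ZCO.crt_hom _ _)).add (ZCO.smul_hom (ZCO.crt_hom _ _))

/-- the polynomial part of `XM` -/
noncomputable def ZCO.qX (a b c : K) (n : ℤ) : R K :=
  a • qq true true (fun _ => 1 / 2) n + b • qq true false (fun _ => -1) n +
    c • qq false false (fun _ => -(1 / 2)) n

/-- the derivation of `XM` -/
noncomputable def ZCO.xX (a b c : K) (n : ℤ) : Derivation K (R K) (R K) :=
  a • xi true true (fun _ => 1 / 2) n + b • xi true false (fun _ => -1) n +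
    c • xi false false (fun _ => -(1 / 2)) n

theorem ZCO.qX_hom (a b c : K) (n : ℤ) : (ZCO.qX a b c n).IsHomogeneous 2 :=
  ((ZCO.smul_hom (ZCO.qq_hom _ _ _ _)).add (ZCO.smul_hom (ZCO.qq_hom _ _ _ _))).add
    (ZCO.smul_hom (ZCO.qq_hom _ _ _ _))

theorem ZCO.xX_hom (a b c : K) (n : ℤ) (i : Bool × ℕ) :
    (ZCO.xX a b c n (X i)).IsHomogeneous 1 :=
  ((ZCO.smul_hom (ZCO.xi_hom _ _ _ _ _)).add (ZCO.smul_hom (ZCO.xi_hom _ _ _ _ _))).add
    (ZCO.smul_hom (ZCO.xi_hom _ _ _ _ _))

theorem ZCO.tau_neg (ε ε' : Bool) (c : ℤ → K) {n : ℤ} (hn : n < 0) : tau ε ε' c n = 0 := by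
  unfold tau
  have : n.toNat = 0 := by omega
  rw [this, Finset.range_zero, Finset.sum_empty]

theorem ZCO.XM_neg (a b c : K) {n : ℤ} (hn : n < 0) :
    XM a b c n = LinearMap.mulLeft K (ZCO.qX a b c n) + (ZCO.xX a b c n).toLinearMap := by
  apply LinearMap.ext
  intro P
  simp only [XM, Q, ZCO.tau_neg _ _ _ hn, ZCO.qX, ZCO.xX, LinearMap.add_apply, LinearMap.smul_apply,
    LinearMap.mulLeft_apply, add_zero, Derivation.coeFn_coe, Derivation.add_apply,
    Derivation.smul_apply, add_mul, smul_mul_assoc, smul_add]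
  abel

theorem ZCO.ann_one (ε : Bool) (s : ℕ) : ann K ε s 1 = 0 := Derivation.map_one_eq_zero _

theorem ZCO.Q_one (ε ε' : Bool) (c : ℤ → K) (n : ℤ) : Q ε ε' c n 1 = qq ε ε' c n := by
  simp only [Q, tau, LinearMap.add_apply, LinearMap.mulLeft_apply, mul_one, Derivation.coeFn_coe,
    Derivation.map_one_eq_zero, add_zero, LinearMap.sum_apply, LinearMap.smul_apply,
    LinearMap.comp_apply, map_zero, smul_zero, Finset.sum_const_zero]

theorem ZCO.XM_one (a b c : K) (n : ℤ) : XM a b c n 1 = ZCO.qX a b c n := by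
  simp only [XM, LinearMap.add_apply, LinearMap.smul_apply, ZCO.Q_one, ZCO.qX]

theorem ZCO.XM_one_nonneg (a b c : K) {n : ℤ} (hn : 0 ≤ n) : XM a b c n 1 = 0 := by
  have h : (-n).toNat = 0 := by omega
  rw [ZCO.XM_one, ZCO.qX, ZCO.qq_eq, ZCO.qq_eq, ZCO.qq_eq, h]
  simp

theorem ZCO.ann_true (k : ℕ) : ann K true k = pderiv (false, k) := by
  apply derivation_ext
  rintro ⟨ε, j⟩
  rw [ann, mkDerivation_X, pderiv_X]
  by_cases h : j = k
  · subst h
    cases ε <;> simp [om]
  · rw [if_neg h, Pi.single_apply, if_neg]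
    intro h'
    apply h
    exact (congrArg Prod.snd h')

theorem ZCO.ann_false (k : ℕ) : ann K false k = -pderiv (true, k) := by
  apply derivation_ext
  rintro ⟨ε, j⟩
  rw [ann, mkDerivation_X, Derivation.neg_apply, pderiv_X]
  by_cases h : j = k
  · subst h
    cases ε <;> simp [om]
  · rw [if_neg h, Pi.single_apply, if_neg, neg_zero]
    intro h'
    apply h
    exact (congrArg Prod.snd h')

theorem ZCO.pd {P : R K} (h : ∀ η k, ann K η k P = 0) (i : Bool × ℕ) : pderiv i P = 0 := by
  obtain ⟨ε, k⟩ := i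
  cases ε
  · rw [← ZCO.ann_true]
    exact h _ _
  · have := h false k
    rw [ZCO.ann_false, Derivation.neg_apply, neg_eq_zero] at this
    exact this

theorem ZCO.dvd {p : ℕ} [CharP K p] {P : R K} (h : ∀ i, pderiv i P = 0) {d : Bool × ℕ →₀ ℕ}
    (hd : coeff d P ≠ 0) (i : Bool × ℕ) : p ∣ d i := by
  by_cases h0 : d i = 0
  · rw [h0]
    exact dvd_zero p
  have h1 := coeff_pderiv (i := i) P (d - Finsupp.single i 1)
  have h2 : d - Finsupp.single i 1 + Finsupp.single i 1 = d := by
    apply tsub_add_cancel_of_le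
    rw [Finsupp.single_le_iff]
    omega
  rw [h i, coeff_zero, h2] at h1
  have h3 := (mul_eq_zero.mp h1.symm).resolve_left hd
  rw [Finsupp.tsub_apply, Finsupp.single_eq_same] at h3
  have h4 : ((d i : ℕ) : K) = 0 := by
    rw [← h3]
    have : d i = (d i - 1) + 1 := by omega
    conv_lhs => rw [this]
    push_cast
    rfl
  exact (CharP.cast_eq_zero_iff K p (d i)).mp h4

theorem ZCO.coeff_pow {p : ℕ} [hp : Fact p.Prime] [CharP K p] (q : R K) (d : Bool × ℕ →₀ ℕ) :
    coeff (p • d) (q ^ p) = coeff d q ^ p := by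
  have : ExpChar K p := ExpChar.prime hp.out
  rw [← map_frobenius_expand, coeff_map, coeff_expand_smul p hp.out.ne_zero, frobenius_def]

theorem ZCO.single_ne {x y : Bool × ℕ} {a b : ℕ} (ε : Bool) (hx : x.1 = ε) (hy : y.1 = ε)
    (h : Finsupp.single x 1 + Finsupp.single y 1 =
      (Finsupp.single (true, a) 1 + Finsupp.single (false, b) 1 : Bool × ℕ →₀ ℕ)) : False := by
  cases ε
  · have := DFunLike.congr_fun h (true, a)
    have hx' : x ≠ (true, a) := by rintro rfl; simp at hx
    have hy' : y ≠ (true, a) := by rintro rfl; simp at hy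
    simp [hx', hy'] at this
  · have := DFunLike.congr_fun h (false, b)
    have hx' : x ≠ (false, b) := by rintro rfl; simp at hx
    have hy' : y ≠ (false, b) := by rintro rfl; simp at hy
    simp [hx', hy'] at this

theorem ZCO.coeff_same (ε : Bool) (c : ℤ → K) (n : ℤ) (a b : ℕ) :
    coeff (Finsupp.single (true, a) 1 + Finsupp.single (false, b) 1) (qq ε ε c n) = 0 := by
  classical
  rw [ZCO.qq_eq, coeff_sum]
  apply Finset.sum_eq_zero
  intro i _
  rw [coeff_monomial, if_neg]
  exact fun h => ZCO.single_ne ε rfl rfl h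

theorem ZCO.single_iff {i j a b : ℕ} :
    (Finsupp.single (true, i) 1 + Finsupp.single (false, j) 1 : Bool × ℕ →₀ ℕ) =
      Finsupp.single (true, a) 1 + Finsupp.single (false, b) 1 ↔ i = a ∧ j = b := by
  constructor
  · intro h
    constructor
    · have := DFunLike.congr_fun h (true, a)
      simp only [Finsupp.add_apply, Finsupp.single_apply] at this
      by_contra hne
      simp [hne] at this
    · have := DFunLike.congr_fun h (false, b)
      simp only [Finsupp.add_apply, Finsupp.single_apply] at this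
      by_contra hne
      simp [hne] at this
  · rintro ⟨rfl, rfl⟩
    rfl

theorem ZCO.coeff_mixed (n : ℤ) (a b : ℕ) :
    coeff (Finsupp.single (true, a) 1 + Finsupp.single (false, b) 1)
      (qq (K := K) true false (fun _ => -1) n) = if (-n).toNat = a + b + 1 then -1 else 0 := by
  classical
  rw [ZCO.qq_eq, coeff_sum]
  simp only [coeff_monomial, ZCO.single_iff]
  split_ifs with h
  · rw [Finset.sum_eq_single a]
    · rw [if_pos ⟨rfl, by omega⟩]
    · intro i _ hi
      rw [if_neg fun h' => hi h'.1]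
    · intro h'
      exact absurd (Finset.mem_range.mpr (by omega)) h'
  · apply Finset.sum_eq_zero
    intro i hi
    rw [Finset.mem_range] at hi
    rw [if_neg]
    rintro ⟨rfl, h2⟩
    omega

theorem ZCO.coeff_qX (a b c : K) (n : ℤ) :
    coeff (Finsupp.single (true, 1) 1 + Finsupp.single (false, 0) 1) (ZCO.qX a b c n) =
      coeff (Finsupp.single (true, 0) 1 + Finsupp.single (false, 1) 1) (ZCO.qX a b c n) := by
  unfold ZCO.qX
  simp only [coeff_add, coeff_smul, ZCO.coeff_same, ZCO.coeff_mixed]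

theorem ZCO.deg {p a b : ℕ} :
    (Finsupp.single (true, a) p + Finsupp.single (false, b) p : Bool × ℕ →₀ ℕ).degree =
      2 * p := by
  rw [map_add, Finsupp.degree_single, Finsupp.degree_single]
  ring

theorem t_ZCO (h1 : S_TOP) (h2 : S_ZMU) : S_ZCO := by
  intro K _ p hp hc hp3 a b c n M hM A hA
  obtain ⟨-, -, hann⟩ := h2 K p hp3 a b c n M hM A hA
  have hp0 : 0 < p := hp.out.pos
  have hA1 : A 1 = (XM a b c n ^ p) 1 - ZCO.qX (M 0 1) (M 0 0) (M 1 0) (p * n) := by
    rw [hA, LinearMap.sub_apply, ZCO.XM_one]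
  by_cases hn : 0 ≤ n
  · have hz : A 1 = 0 := by
      rw [hA1, ← ZCO.XM_one, ZCO.XM_one_nonneg _ _ _ (by positivity)]
      obtain ⟨k, rfl⟩ : ∃ k, p = k + 1 := ⟨p - 1, by omega⟩
      rw [pow_succ, Module.End.mul_apply, ZCO.XM_one_nonneg _ _ _ hn, map_zero, sub_zero]
    rw [hz]
    simp [ell]
  push Not at hn
  have hpn : (p : ℤ) * n < 0 := mul_neg_of_pos_of_neg (by exact_mod_cast hp0) hn
  have hq := ZCO.qX_hom a b c n
  have hq' := ZCO.qX_hom (M 0 1) (M 0 0) (M 1 0) (p * n)
  have hqp : (ZCO.qX a b c n ^ p).IsHomogeneous (2 * p) := hq.pow p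
  have hT := h1 K (ZCO.qX a b c n) (ZCO.xX a b c n) hq (ZCO.xX_hom a b c n) p hp0
  rw [← ZCO.XM_neg a b c hn] at hT
  -- coefficients of `A 1`
  have hco : ∀ d : Bool × ℕ →₀ ℕ, coeff d (A 1) =
      coeff d ((XM a b c n ^ p) 1 - ZCO.qX a b c n ^ p) + coeff d (ZCO.qX a b c n ^ p) -
        coeff d (ZCO.qX (M 0 1) (M 0 0) (M 1 0) (p * n)) := by
    intro d
    rw [hA1, coeff_sub, coeff_sub]
    ring
  have hpd := ZCO.pd hann
  constructor
  · intro d hd
    by_contra hne
    have hdv := ZCO.dvd (p := p) hpd hne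
    have hdeg : p ∣ d.degree := by
      rw [Finsupp.degree_apply]
      exact Finset.dvd_sum fun i _ => hdv i
    have h3 : coeff d (ZCO.qX a b c n ^ p) = 0 := hqp.coeff_eq_zero (by omega)
    have h4 : Even d.degree ∧ 2 ≤ d.degree := by
      by_cases h5 : coeff d ((XM a b c n ^ p) 1 - ZCO.qX a b c n ^ p) = 0
      · have h6 : coeff d (ZCO.qX (M 0 1) (M 0 0) (M 1 0) (p * n)) ≠ 0 := by
          intro h7
          apply hne
          rw [hco, h3, h5, h7]
          simp
        have h8 : d.degree = 2 := by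
          by_contra h9
          exact h6 (hq'.coeff_eq_zero h9)
        rw [h8]
        exact ⟨even_two, le_refl _⟩
      · exact ⟨(hT d h5).1, (hT d h5).2.1⟩
    have h5 : 2 * p ∣ d.degree := by
      apply Nat.Coprime.mul_dvd_of_dvd_of_dvd _ h4.1.two_dvd hdeg
      rw [Nat.coprime_primes Nat.prime_two hp.out]
      omega
    have h6 := Nat.le_of_dvd (by omega) h5
    omega
  · have h3 : ∀ x y : ℕ, coeff (Finsupp.single (true, x) p + Finsupp.single (false, y) p) (A 1) =
        coeff (Finsupp.single (true, x) 1 + Finsupp.single (false, y) 1) (ZCO.qX a b c n) ^ p := by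
      intro x y
      have hdg := ZCO.deg (p := p) (a := x) (b := y)
      have h4 : coeff (Finsupp.single (true, x) p + Finsupp.single (false, y) p)
          ((XM a b c n ^ p) 1 - ZCO.qX a b c n ^ p) = 0 := by
        by_contra h5
        have := (hT _ h5).2.2
        omega
      have h5 : coeff (Finsupp.single (true, x) p + Finsupp.single (false, y) p)
          (ZCO.qX (M 0 1) (M 0 0) (M 1 0) (p * n)) = 0 := hq'.coeff_eq_zero (by omega)
      rw [hco, h4, h5, zero_add, sub_zero, ← ZCO.coeff_pow]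
      congr 1
      rw [smul_add, Finsupp.smul_single, Finsupp.smul_single]
      simp
    unfold ell
    rw [h3, h3, ZCO.coeff_qX, sub_self]

end Pool.Agent.PVA
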