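import Pool.Agent.PVA.Stm

/-!
# Piece ZMU (helper63)
-/

set_option autoImplicit false

open MvPolynomial

namespace Pool.Agent.PVA

namespace ZMUP

variable {K : Type} [Field K]

/-- `v₀ u(true, t) + v₁ u(false, t)` -/
noncomputable def UU (x y : K) (t : ℤ) : R K →ₗ[K] R K := x • u K true t + y • u K false t

theorem two_ne (p : ℕ) [Fact p.Prime] [CharP K p] (hp : 3 ≤ p) : (2 : K) ≠ 0 := by
  intro h
  have h2 : ((2 : ℕ) : K) = 0 := by exact_mod_cast h
  rw [CharP.cast_eq_zero_iff K p] at h2
  have := Nat.le_of_dvd (by norm_num) h2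
  omega

theorem br_true (hB : S_BRU) (h2 : (2 : K) ≠ 0) (a b c : K) (n t : ℤ) (P : R K) :
    XM a b c n (u K true t P) - u K true t (XM a b c n P) = UU b c (n + t) P := by
  have e1 := hB K true true true (fun _ => 1 / 2) n t P
  have e2 := hB K true false true (fun _ => -1) n t P
  have e3 := hB K false false true (fun _ => -(1 / 2)) n t P
  have hh : (1 / 2 : K) + 1 / 2 = 1 := by field_simp; norm_num
  simp only [om, if_true, zero_mul, zero_smul, add_zero, Bool.false_eq_true, if_false,
    one_mul, mul_neg, neg_neg, neg_mul, neg_zero] at e1 e2 e3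
  rw [← add_smul, hh, one_smul] at e3
  rw [one_smul] at e2
  simp only [XM, UU, LinearMap.add_apply, LinearMap.smul_apply, map_add, map_smul]
  rw [← e2, ← e3]
  have e1' : Q true true (fun _ => (1 / 2 : K)) n (u K true t P) =
      u K true t (Q true true (fun _ => (1 / 2 : K)) n P) := sub_eq_zero.1 e1
  rw [e1']
  module

theorem br_false (hB : S_BRU) (h2 : (2 : K) ≠ 0) (a b c : K) (n t : ℤ) (P : R K) :
    XM a b c n (u K false t P) - u K false t (XM a b c n P) = UU a (-b) (n + t) P := by
  have e1 := hB K true true false (fun _ => 1 / 2) n t P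
  have e2 := hB K true false false (fun _ => -1) n t P
  have e3 := hB K false false false (fun _ => -(1 / 2)) n t P
  have hh : (1 / 2 : K) + 1 / 2 = 1 := by field_simp; norm_num
  simp only [om, if_true, zero_mul, zero_smul, add_zero, Bool.true_eq_false, if_false,
    one_mul, zero_add] at e1 e2 e3
  rw [← add_smul, hh, one_smul] at e1
  simp only [XM, UU, LinearMap.add_apply, LinearMap.smul_apply, map_add, map_smul]
  have e3' : Q false false (fun _ => -(1 / 2 : K)) n (u K false t P) =
      u K false t (Q false false (fun _ => -(1 / 2 : K)) n P) := sub_eq_zero.1 e3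
  rw [← e1, e3']
  have e2' : u K false (n + t) P = -(Q true false (fun _ => (-1 : K)) n (u K false t P) -
      u K false t (Q true false (fun _ => (-1 : K)) n P)) := by
    rw [e2]
    module
  rw [e2']
  module

theorem br (hB : S_BRU) (h2 : (2 : K) ≠ 0) (a b c : K) (n t : ℤ) (x y : K) :
    XM a b c n * UU x y t - UU x y t * XM a b c n =
      UU (b * x + a * y) (c * x - b * y) (n + t) := by
  refine LinearMap.ext fun P => ?_
  have e1 := br_true hB h2 a b c n t P
  have e2 := br_false hB h2 a b c n t P
  have e : (XM a b c n * UU x y t - UU x y t * XM a b c n) P =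
      x • (XM a b c n (u K true t P) - u K true t (XM a b c n P)) +
        y • (XM a b c n (u K false t P) - u K false t (XM a b c n P)) := by
    simp only [UU, LinearMap.sub_apply, Module.End.mul_apply, LinearMap.add_apply,
      LinearMap.smul_apply, map_add, map_smul]
    module
  rw [e, e1, e2]
  simp only [UU, LinearMap.add_apply, LinearMap.smul_apply]
  module

/-- the adjoint operator -/
noncomputable def ad (A : Module.End K (R K)) : Module.End K (Module.End K (R K)) :=
  LinearMap.mulLeft K A - LinearMap.mulRight K A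

theorem ad_apply (A B : Module.End K (R K)) : ad A B = A * B - B * A := rfl

theorem ad_pow (p : ℕ) [Fact p.Prime] [CharP K p] (A B : Module.End K (R K)) :
    (ad A ^ p) B = A ^ p * B - B * A ^ p := by
  have : CharP (Module.End K (Module.End K (R K))) p :=
    charP_of_injective_algebraMap (algebraMap K (Module.End K (Module.End K (R K)))).injective p
  have h := sub_pow_char_of_commute (R := Module.End K (Module.End K (R K))) (p := p)
    (LinearMap.commute_mulLeft_right (R := K) (A := Module.End K (R K)) A A)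
  have e : ad A = LinearMap.mulLeft K A - LinearMap.mulRight K A := rfl
  rw [e, h, LinearMap.pow_mulLeft, LinearMap.pow_mulRight]
  rfl

/-- iterated bracket -/
theorem ad_iter (hB : S_BRU) (h2 : (2 : K) ≠ 0) (a b c : K) (n t : ℤ) (x y : K) (k : ℕ) :
    (ad (XM a b c n) ^ k) (UU x y t) =
      UU ((!![b, a; c, -b] ^ k) 0 0 * x + (!![b, a; c, -b] ^ k) 0 1 * y)
        ((!![b, a; c, -b] ^ k) 1 0 * x + (!![b, a; c, -b] ^ k) 1 1 * y) (k * n + t) := by
  induction k with
  | zero => simp
  | succ k ih =>
    rw [pow_succ', Module.End.mul_apply, ih, ad_apply, br hB h2]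
    have e : (!![b, a; c, -b] ^ (k + 1) : Matrix (Fin 2) (Fin 2) K) =
        !![b, a; c, -b] * !![b, a; c, -b] ^ k := pow_succ' _ _
    rw [e]
    simp only [Matrix.mul_apply, Fin.sum_univ_two, Matrix.of_apply, Matrix.cons_val_zero,
      Matrix.cons_val_one, Matrix.cons_val', Matrix.cons_val_fin_one]
    congr 1
    · ring
    · ring
    · push_cast
      ring

theorem trace_pow (a b c : K) (k : ℕ) :
    (!![b, a; c, -b] ^ (2 * k + 1) : Matrix (Fin 2) (Fin 2) K) 1 1 =
      -(!![b, a; c, -b] ^ (2 * k + 1) : Matrix (Fin 2) (Fin 2) K) 0 0 := by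
  have h : (!![b, a; c, -b] ^ 2 : Matrix (Fin 2) (Fin 2) K) = (b ^ 2 + a * c) • 1 := by
    rw [sq]
    ext i j
    fin_cases i <;> fin_cases j <;> simp [Matrix.mul_apply, Fin.sum_univ_two] <;> ring
  rw [pow_succ, pow_mul, h, smul_pow, one_pow, Matrix.smul_mul, Matrix.one_mul]
  simp

end ZMUP

open ZMUP in
theorem t_ZMU (hB : S_BRU) : S_ZMU := by
  intro K _ p _ _ hp a b c n M hM A hA
  have h2 : (2 : K) ≠ 0 := two_ne p hp
  have hodd : ∃ j, p = 2 * j + 1 := by
    have := (Fact.out : p.Prime).eq_two_or_odd'
    rcases this with h | h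
    · omega
    · exact h
  obtain ⟨j, hj⟩ := hodd
  have hM11 : M 1 1 = - M 0 0 := by
    rw [hM, hj]
    exact trace_pow a b c j
  have hcomm : ∀ x y : K, ∀ t : ℤ, A * UU x y t = UU x y t * A := by
    intro x y t
    have e1 := ad_pow p (XM a b c n) (UU x y t)
    rw [ad_iter hB h2, ← hM] at e1
    have e2 := br hB h2 (M 0 1) (M 0 0) (M 1 0) (p * n) t x y
    have e3 : M 1 0 * x + M 1 1 * y = M 1 0 * x - M 0 0 * y := by
      rw [hM11]
      ring
    rw [e3, ← e2] at e1
    rw [hA, sub_mul, mul_sub, sub_eq_sub_iff_sub_eq_sub]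
    exact e1.symm
  have h1 : ∀ η t P, A (u K η t P) = u K η t (A P) := by
    intro η t P
    cases η with
    | true =>
      have := LinearMap.congr_fun (hcomm 1 0 t) P
      simpa [UU] using this
    | false =>
      have := LinearMap.congr_fun (hcomm 0 1 t) P
      simpa [UU] using this
  have hX : ∀ (i : Bool × ℕ) (P : R K), u K i.1 (-(i.2 : ℤ) - 1) P = X i * P := by
    intro i P
    have hneg : -(i.2 : ℤ) - 1 < 0 := by omega
    have e : (-(-(i.2 : ℤ) - 1) - 1).toNat = i.2 := by
      have : -(-(i.2 : ℤ) - 1) - 1 = (i.2 : ℤ) := by ring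
      rw [this, Int.toNat_natCast]
    unfold u crt
    rw [if_pos hneg, if_pos hneg, e]
    rfl
  refine ⟨h1, ?_, ?_⟩
  · intro P
    induction P using MvPolynomial.induction_on with
    | C r =>
      have e : (C r : R K) = r • (1 : R K) := by
        rw [smul_eq_C_mul, mul_one]
      rw [e, map_smul, smul_mul_assoc, one_mul]
    | add P Q hP hQ => rw [map_add, hP, hQ, add_mul]
    | mul_X P i hP =>
      have e := h1 i.1 (-(i.2 : ℤ) - 1) P
      rw [hX, hX, hP] at e
      rw [mul_comm P (X i), e, mul_assoc]
  · intro η k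
    have e := h1 η (k : ℤ) 1
    have hk : ¬ ((k : ℤ) < 0) := by omega
    have eu : ∀ P, u K η (k : ℤ) P = ann K η k P := by
      intro P
      unfold u
      rw [if_neg hk, Int.toNat_natCast]
      rfl
    rw [eu, eu, Derivation.map_one_eq_zero, map_zero] at e
    exact e.symm

end Pool.Agent.PVA
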