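import Pool.Agent.PVA.BRU
import Pool.Agent.PVA.CEN
import Pool.Agent.PVA.DM1
import Pool.Agent.PVA.DMP
import Pool.Agent.PVA.FIN
import Pool.Agent.PVA.INV
import Pool.Agent.PVA.PHI
import Pool.Agent.PVA.RED
import Pool.Agent.PVA.REP
import Pool.Agent.PVA.SCA
import Pool.Agent.PVA.TOP
import Pool.Agent.PVA.ZAL
import Pool.Agent.PVA.ZCO
import Pool.Agent.PVA.ZMU

/-!
# The centre of the affine vertex algebra of `sl_2` at the level `-1/2` in characteristic `p ≥ 5`
-/

namespace Pool.Agent.PVA.OldNonCriticalCentre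

open Pool.Agent.PVA

/-- For every prime `p ≥ 5`, every field `K` of characteristic `p` and the noncritical level
`κ = -1/2` (the critical level is `-2`), the centre of the affine vertex algebra `V^κ(sl_2)`
contains a vector outside its `p`-centre. -/
theorem old_result : ∀ (p : ℕ) [Fact p.Prime], 5 ≤ p → ∀ (K : Type) [Field K] [CharP K p],
    (-(1 / 2) : K) ≠ -2 ∧
      ∃ v ∈ centre (-(1 / 2) : K), v ∉ pCentre p (-(1 / 2) : K) := by
  intro p _ hp K _ _
  exact t_FIN t_CEN t_INV (t_PHI (t_REP t_BRU t_SCA)) (t_RED t_BRU t_SCA) t_DM1 (t_DMP t_TOP)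
    (t_ZAL (t_ZMU t_BRU) (t_ZCO t_TOP (t_ZMU t_BRU))) K p hp

end Pool.Agent.PVA.OldNonCriticalCentre
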