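import Pool.Agent.PVA.Stm2
import Pool.Agent.PVA.SUG

/-!
# Piece SPN: the vacuum module is spanned by the products of negative modes applied to the vacuum
-/

namespace Pool.Agent.PVA

namespace SPN

noncomputable section

variable {K : Type} [Field K] (κ : K)

/-- the subspaces which contain the vacuum and are stable under the negative modes -/
def Good (M : Submodule K (V κ)) : Prop :=
  vac κ ∈ M ∧ ∀ (a b c : K) (n : ℤ) (v : V κ), n < 0 → v ∈ M → xx a b c n • v ∈ M

/-- the smallest one -/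
def N : Submodule K (V κ) := sInf {M | Good κ M}

theorem good_N : Good κ (N κ) := by
  refine ⟨?_, fun a b c n v hn hv => ?_⟩
  · unfold N
    rw [Submodule.mem_sInf]
    exact fun M hM => hM.1
  · unfold N at hv ⊢
    rw [Submodule.mem_sInf] at hv ⊢
    exact fun M hM => hM.2 a b c n v hn (hv M hM)

theorem N_le {M : Submodule K (V κ)} (hM : Good κ M) : N κ ≤ M := sInf_le hM

/-- the vectors of `N` which all modes map into `N` -/
def N' : Submodule K (V κ) where
  carrier := {v | v ∈ N κ ∧ ∀ (a b c : K) (n : ℤ), xx a b c n • v ∈ N κ}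
  add_mem' := by
    rintro v w ⟨h1, h2⟩ ⟨h3, h4⟩
    refine ⟨(N κ).add_mem h1 h3, fun a b c n => ?_⟩
    rw [smul_add]
    exact (N κ).add_mem (h2 a b c n) (h4 a b c n)
  zero_mem' := ⟨(N κ).zero_mem, fun a b c n => by rw [smul_zero]; exact (N κ).zero_mem⟩
  smul_mem' := by
    rintro r v ⟨h1, h2⟩
    refine ⟨(N κ).smul_mem r h1, fun a b c n => ?_⟩
    rw [smul_swap]
    exact (N κ).smul_mem r (h2 a b c n)

theorem good_N' : Good κ (N' κ) := by
  have hN := good_N κ
  refine ⟨⟨hN.1, fun a b c n => ?_⟩, fun a b c n v hn hv => ⟨hN.2 a b c n v hn hv.1,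
    fun a' b' c' m => ?_⟩⟩
  · by_cases h : n < 0
    · exact hN.2 a b c n _ h hN.1
    · rw [xx_vac κ a b c n (not_lt.1 h)]
      exact (N κ).zero_mem
  · rw [xx_comm κ a' b' c' a b c m n v]
    exact (N κ).add_mem ((N κ).add_mem (hN.2 _ _ _ _ _ hn (hv.2 _ _ _ _)) (hv.2 _ _ _ _))
      ((N κ).smul_mem _ hv.1)

theorem stable (a b c : K) (n : ℤ) (v : V κ) (hv : v ∈ N κ) : xx a b c n • v ∈ N κ :=
  (N_le κ (good_N' κ) hv).2 a b c n

theorem stable_all (z : U K) : ∀ v : V κ, v ∈ N κ → z • v ∈ N κ := by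
  refine uea_ind (P := fun z => ∀ v : V κ, v ∈ N κ → z • v ∈ N κ) ?_ ?_ ?_ ?_ z
  · intro x
    refine Aff.ind (P := fun x => ∀ v : V κ, v ∈ N κ → UniversalEnvelopingAlgebra.ι K x • v ∈ N κ)
      ?_ ?_ ?_ x
    · intro x y hx hy v hv
      rw [map_add, add_smul]
      exact (N κ).add_mem (hx v hv) (hy v hv)
    · intro a b c n v hv
      exact stable κ a b c n v hv
    · intro r v hv
      rw [map_smul, smul_assoc]
      refine (N κ).smul_mem r ?_
      have h : cc K • v = κ • v := cc_smul κ v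
      change cc K • v ∈ N κ
      rw [h]
      exact (N κ).smul_mem κ hv
  · intro r v hv
    rw [algebraMap_smul]
    exact (N κ).smul_mem r hv
  · intro x y hx hy v hv
    rw [add_smul]
    exact (N κ).add_mem (hx v hv) (hy v hv)
  · intro x y hx hy v hv
    rw [mul_smul]
    exact hx _ (hy v hv)

end

end SPN

theorem t_SPN : S_SPN := by
  intro K _ κ M h1 h2
  rw [eq_top_iff]
  intro v _
  apply SPN.N_le κ ⟨h1, h2⟩
  obtain ⟨z, rfl⟩ := Submodule.Quotient.mk_surjective _ v
  have h : (Submodule.Quotient.mk z : V κ) = z • vac κ := by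
    unfold vac
    rw [← Submodule.Quotient.mk_smul, smul_eq_mul, mul_one]
  rw [h]
  exact SPN.stable_all κ z _ (SPN.good_N κ).1

end Pool.Agent.PVA
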