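import Pool.Agent.PVA.Defs

/-!
# Pieces of the disproof of MP_4bfeea_al

Counterexample to Q1 (centre of the vertex algebra `V^κ(g)` = `p`-centre at noncritical levels):
`g = sl_2`, `p ≥ 5`, `κ = -1/2`, vector `D^p |0>` where `D = 2 (κ + 2) L_(-2)`.

Module `R` = Fock space of one beta-gamma system: polynomial ring in `X (true, k) = β_(-k-1)`,
`X (false, k) = γ_(-k-1)` (`k ≥ 0`); operators `u ε s` (`s ∈ ℤ`) with
`[u ε s, u η t] = om ε η` if `s + t + 1 = 0`, else `0`.
-/

open MvPolynomial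

namespace Pool.Agent.PVA

noncomputable section

variable {K : Type*} [Field K]

/-- The Fock space. -/
abbrev R (K : Type*) [Field K] := MvPolynomial (Bool × ℕ) K

/-- The symplectic form on the two labels. -/
def om (K : Type*) [Field K] (ε η : Bool) : K :=
  if ε = η then 0 else if ε = true then 1 else -1

/-- The creation part: `X (ε, -s-1)` for `s < 0`, zero for `s ≥ 0`. -/
def crt (K : Type*) [Field K] (ε : Bool) (s : ℤ) : R K :=
  if s < 0 then X (ε, (-s - 1).toNat) else 0

/-- The annihilation operators: derivation with `X (η, k) ↦ om ε η` if `k = s`, else `0`. -/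
def ann (K : Type*) [Field K] (ε : Bool) (s : ℕ) : Derivation K (R K) (R K) :=
  mkDerivation K fun i => if i.2 = s then C (om K ε i.1) else 0

/-- The operator `u ε s`: multiplication by the creation part for `s < 0`, annihilation for
`s ≥ 0`. -/
def u (K : Type*) [Field K] (ε : Bool) (s : ℤ) : R K →ₗ[K] R K :=
  if s < 0 then LinearMap.mulLeft K (crt K ε s) else (ann K ε s.toNat).toLinearMap

/-- The polynomial part of `Q`. -/
def qq (ε ε' : Bool) (c : ℤ → K) (n : ℤ) : R K :=
  ∑ i ∈ Finset.range (-n).toNat, c (-i - 1) • (crt K ε (-i - 1) * crt K ε' (n + i))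

/-- The first order part of `Q`. -/
def xi (ε ε' : Bool) (c : ℤ → K) (n : ℤ) : Derivation K (R K) (R K) :=
  mkDerivation K fun i =>
    (om K ε' i.1 * c (n - i.2 - 1)) • crt K ε (n - i.2 - 1) +
      (om K ε i.1 * c i.2) • crt K ε' (n - i.2 - 1)

/-- The second order part of `Q`. -/
def tau (ε ε' : Bool) (c : ℤ → K) (n : ℤ) : R K →ₗ[K] R K :=
  ∑ s ∈ Finset.range n.toNat,
    c s • ((ann K ε s).toLinearMap ∘ₗ (ann K ε' (n - 1 - s).toNat).toLinearMap)

/-- The quadratic operator `Q = ∑_s c_s : u_(ε,s) u_(ε',n-1-s) :`. -/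
def Q (ε ε' : Bool) (c : ℤ → K) (n : ℤ) : R K →ₗ[K] R K :=
  LinearMap.mulLeft K (qq ε ε' c n) + (xi ε ε' c n).toLinearMap + tau ε ε' c n

/-- The operator of `x_n`, `x = a e + b h + c f`, on the Fock space. -/
def XM (a b c : K) (n : ℤ) : R K →ₗ[K] R K :=
  a • Q true true (fun _ => 1 / 2) n + b • Q true false (fun _ => -1) n +
    c • Q false false (fun _ => -(1 / 2)) n

/-- The operator `3 L_(-2)` on the Fock space. -/
def DM (K : Type*) [Field K] : R K →ₗ[K] R K :=
  Q true false (fun s => 3 * (s + 3 / 2)) (-2)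

/-- The Sugawara element `e_(-1) f_(-1) + f_(-1) e_(-1) + h_(-1)^2 / 2`. -/
def sug (K : Type*) [Field K] : U K :=
  xx 1 0 0 (-1) * xx 0 0 1 (-1) + xx 0 0 1 (-1) * xx 1 0 0 (-1) +
    (1 / 2 : K) • (xx 0 1 0 (-1) * xx 0 1 0 (-1))

/-- `IsD κ D`: the operator `D = 2 (κ + 2) L_(-2)` of `V^κ`. -/
def IsD (κ : K) (D : V κ →ₗ[K] V κ) : Prop :=
  D (vac κ) = sug K • vac κ ∧ ∀ (a b c : K) (n : ℤ) (v : V κ),
    D (xx a b c n • v) = xx a b c n • D v - (2 * (κ + 2) * n) • (xx a b c (n - 2) • v)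

/-- A linear functional: the difference of the coefficients of `X(true,1)^p X(false,0)^p` and
of `X(true,0)^p X(false,1)^p`. -/
def ell (K : Type*) [Field K] (p : ℕ) (P : R K) : K :=
  coeff (Finsupp.single (true, 1) p + Finsupp.single (false, 0) p) P -
    coeff (Finsupp.single (true, 0) p + Finsupp.single (false, 1) p) P

/-! ## Pieces -/

/-- **Piece SUG** (100 lines). Existence of `D` on `V^κ`.
Proof. Put `δ : Aff K →ₗ Aff K`, `δ(e,h,f,z) = -2(κ+2) (T^(-2) θ e, T^(-2) θ h, T^(-2) θ f, 0)`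
(so `δ (mono a b c n) = (-2 (κ+2) n) • mono a b c (n-2)`); it is a derivation of the Lie algebra
`Aff K` (by `Aff.ind` twice and `lie_mono`, or directly with `theta_mul`, `ct_theta`:
the central coordinate is `-2(κ+2) ct (θ (T^(-2) θ x) y + θ x T^(-2) θ y) = ct (θ ...) = 0`).
Then `W = V κ × V κ` carries the representation `ρ x (a, b) = (x a, x b + δ(x) a)`, a Lie
homomorphism `Aff K → Module.End K W`; lift it to `Φ : U K →ₐ[K] Module.End K W`
(`UniversalEnvelopingAlgebra.lift`).  The linear map `U K → W`, `z ↦ Φ z (vac, sug • vac)` kills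
`lid κ` because `x_n (vac, sug • vac) = (0, x_n sug vac + δ(x_n) vac) = 0` for `n ≥ 0`, that is
`x_n sug vac = 2 (κ+2) n x_(n-2) vac` (`n = 0, 1, 2` and `n ≥ 3` separately: commute `x_n` to the
right with `lie_mono`), and `(c - κ)(vac, sug vac) = 0`; `D (z • vac)` is the second coordinate. -/
def S_SUG : Prop := ∀ (K : Type) [Field K] (κ : K), (2 : K) ≠ 0 → ∃ D : V κ →ₗ[K] V κ, IsD κ D

/-- **Piece CEN** (50 lines). Proof: `D^k (x_n v) = ∑_j C(k,j) (∏_(i<j) (-2(κ+2)(n-2i)))
x_(n-2j) D^(k-j) v` by induction on `k`; for `k = p` the terms `0 < j < p` vanish by `p ∣ C(p,j)` and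
the term `j = p` because some `n - 2i ≡ 0 mod p` (`p` odd). So `D^p (x_n v) = x_n D^p v`; for
`v = vac`, `n ≥ 0` use `x_n vac = 0`. -/
def S_CEN : Prop := ∀ (K : Type) [Field K] (p : ℕ) [Fact p.Prime] [CharP K p] (κ : K)
  (D : V κ →ₗ[K] V κ), 3 ≤ p → IsD κ D → ∀ (a b c : K) (n : ℤ), 0 ≤ n →
    xx a b c n • ((D ^ p) (vac κ)) = 0

/-- **Piece INV** (30 lines). Proof: induction on `StateField`. -/
def S_INV : Prop := ∀ (K : Type) [Field K] (κ : K) (v : V κ),
  (∀ (a b c : K) (n : ℤ), 0 ≤ n → xx a b c n • v = 0) → v ∈ centre κ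

/-- **Piece BRU** (120 lines). The bracket of `Q` with the `u η t`.
Proof: two cases `t < 0` (`u` is the multiplication by a variable; use the Leibniz rule) and
`t ≥ 0` (`u` is the derivation `ann η t`; the commutator of two derivations is a derivation,
compare on variables, `MvPolynomial.derivation_ext`), subcases `n + t < 0`, `n + t ≥ 0`. -/
def S_BRU : Prop := ∀ (K : Type) [Field K] (ε ε' η : Bool) (c : ℤ → K) (n t : ℤ) (P : R K),
  Q ε ε' c n (u K η t P) - u K η t (Q ε ε' c n P) =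
    (om K ε' η * c (n + t)) • u K ε (n + t) P + (om K ε η * c (-t - 1)) • u K ε' (n + t) P

/-- **Piece SCA** (60 lines). An operator commuting with all `u η t` and with
`totalDegree (A 1) ≤ 2` is a scalar.
Proof: commuting with the `u η t`, `t < 0` gives `A P = P * A 1` (induction on `P`); commuting
with the `u η t`, `t ≥ 0` gives `ann η k (A 1) = 0`, all partial derivatives of `A 1` are `0`; a
monomial of degree `1` or `2` has an exponent `1` or `2`, nonzero in `K` (`p ≥ 3`), so its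
coefficient in `A 1` is zero. -/
def S_SCA : Prop := ∀ (K : Type) [Field K] (p : ℕ) [Fact p.Prime] [CharP K p]
  (A : R K →ₗ[K] R K), 3 ≤ p → (∀ η t P, A (u K η t P) = u K η t (A P)) →
    (A 1).totalDegree ≤ 2 → ∀ P, A P = constantCoeff (A 1) • P

/-- **Piece REP** (120 lines; uses BRU and SCA). The representation of level `-1/2`.
Proof: the difference of the two sides commutes with all `u η t` by BRU
(`[XM a b c n, u true t] = b u true (n+t) + c u false (n+t)`,
`[XM a b c n, u false t] = a u true (n+t) - b u false (n+t)`, Jacobi identity for commutators of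
operators), its value at `1` has total degree at most `2` (`Q ε ε' c n 1 = qq ε ε' c n` of degree
`≤ 2`, and `Q` maps polynomials of degree `≤ 2` to degree `≤ 4`: here the degree `4` parts
`qq * qq'` of `A B 1` and `B A 1` cancel); by SCA it is the constant
`constantCoeff`, which is computed from `tau (m) (qq (n))` (zero unless `m + n = 0`). -/
def S_REP : Prop := ∀ (K : Type) [Field K] (p : ℕ) [Fact p.Prime] [CharP K p], 3 ≤ p →
  ∀ (a b c a' b' c' : K) (m n : ℤ) (P : R K),
    XM a b c m (XM a' b' c' n P) - XM a' b' c' n (XM a b c m P) =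
      XM (2 * (b * a' - a * b')) (a * c' - c * a') (2 * (c * b' - b * c')) (m + n) P +
        (if m + n = 0 then (m : K) * (a * c' + c * a' + 2 * (b * b')) * (-(1 / 2)) else 0) • P

/-- **Piece RED** (100 lines; uses BRU and SCA). Commutator of `DM` with the representation, as
REP: the difference commutes with all `u η t`
(`[DM, u η t] = 3 (1/2 - t) u η (t-2)`), total degree, constant coefficient
(for `n = 2`, `b`: the two contributions `3 (-2 + 3/2)` and `3 (-1 + 3/2)` cancel). -/
def S_RED : Prop := ∀ (K : Type) [Field K] (p : ℕ) [Fact p.Prime] [CharP K p], 3 ≤ p →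
  ∀ (a b c : K) (n : ℤ) (P : R K),
    DM K (XM a b c n P) = XM a b c n (DM K P) - (3 * (n : K)) • XM a b c (n - 2) P

/-- **Piece DM1** (20 lines). The Sugawara vector in the Fock space (direct computation). -/
def S_DM1 : Prop := ∀ (K : Type) [Field K], (2 : K) ≠ 0 →
  DM K 1 = XM 1 0 0 (-1) (XM 0 0 1 (-1) 1) + XM 0 0 1 (-1) (XM 1 0 0 (-1) 1) +
    (1 / 2 : K) • XM 0 1 0 (-1) (XM 0 1 0 (-1) 1)

/-- **Piece PHI** (60 lines; uses REP). The algebra map `U K → End R` and the map `V^(-1/2) → R`.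
Proof: `ρ : Aff K →ₗ[K] End R`, `ρ (e,h,f,z) = ∑ ...` is defined with
`(AddMonoidAlgebra.basis ℤ K).constr K` on each coordinate; it is a Lie homomorphism by `Aff.ind`
twice, `lie_mono` and REP; lift to `U K`.  `z ↦ Φ z 1` kills `lid (-1/2)` since
`XM a b c n 1 = 0` for `n ≥ 0`. -/
def S_PHI : Prop := ∀ (K : Type) [Field K] (p : ℕ) [Fact p.Prime] [CharP K p], 3 ≤ p →
  ∃ (Φ : U K →ₐ[K] Module.End K (R K)) (φ : V (-(1 / 2) : K) →ₗ[K] R K),
    (∀ a b c n, Φ (xx a b c n) = XM a b c n) ∧ φ (vac _) = 1 ∧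
      ∀ (z : U K) (v : V (-(1 / 2) : K)), φ (z • v) = Φ z (φ v)

/-- **Piece TOP** (70 lines). Powers of `multiplication + derivation`: if `q` is homogeneous of
degree `2` and the derivation `x` maps variables to homogeneous polynomials of degree `1`, then
`(q + x)^k 1 = q^k + P` with `P` a sum of homogeneous polynomials of even degrees
`2 ≤ 2 j ≤ 2 k - 2`. Proof: induction on `k`. -/
def S_TOP : Prop := ∀ (K : Type) [Field K] (q : R K) (x : Derivation K (R K) (R K)),
  q.IsHomogeneous 2 → (∀ i, (x (X i)).IsHomogeneous 1) → ∀ k : ℕ, 1 ≤ k →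
    ∀ d : Bool × ℕ →₀ ℕ, coeff d (((LinearMap.mulLeft K q + x.toLinearMap) ^ k) 1 - q ^ k) ≠ 0 →
      Even d.degree ∧ 2 ≤ d.degree ∧ d.degree < 2 * k

/-- **Piece ZMU** (80 lines; uses BRU). The elements `(x_n)^p - (x_n)^[p]` act on the Fock space
by multiplication with a polynomial killed by all partial derivatives.
Proof: `A = XM a b c n`, `[A, u v t] = u (M v) (n + t)` for the matrix `M = !![b, a; c, -b]`
(`[A, u true t] = b u true (n+t) + c u false (n+t)`, `[A, u false t] = a u true - b u false`), so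
`[A^p, u v t] = (ad A)^p (u v t) = u (M^p v) (p n + t) = [B, u v t]`, where `B` is the `XM` of the
entries of `M^p` (trace zero: `M^2 = (b^2+ac)`, `p` odd). So `A^p - B` commutes with all `u η t`
and, as in SCA, it is multiplication by `(A^p - B) 1`. In characteristic `p`,
`(ad A)^p = ad (A^p)` (`sub_pow_char_of_commute` for left and right multiplication). -/
def S_ZMU : Prop := ∀ (K : Type) [Field K] (p : ℕ) [Fact p.Prime] [CharP K p], 3 ≤ p →
  ∀ (a b c : K) (n : ℤ) (M : Matrix (Fin 2) (Fin 2) K), M = !![b, a; c, -b] ^ p →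
    ∀ A : R K →ₗ[K] R K, A = XM a b c n ^ p - XM (M 0 1) (M 0 0) (M 1 0) (p * n) →
      (∀ η t P, A (u K η t P) = u K η t (A P)) ∧ (∀ P, A P = P * A 1) ∧
        ∀ η k, ann K η k (A 1) = 0

/-- **Piece ZCO** (80 lines; uses TOP, ZMU). For `A` as in ZMU, all monomials of `A 1` of degree
`< 2 p` have coefficient `0`, and `ell p (A 1) = 0`.
Proof: for `n ≥ 0`, `A 1 = 0`.  For `n < 0`, `XM a b c n = q + x` is as in TOP (`tau = 0`), so
`A 1 = q^p + P - q'` with `q' = XM .. (p n) 1` homogeneous of degree `2` (here `2 < 2 p`); all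
exponents of monomials of `A 1` are divisible by `p` (as `ann η k (A 1) = 0`), and the degrees
`< 2 p` occurring are even, `≥ 2`, so not `0`, `p`: none occurs. `ell (A 1) = ell (q^p)` and
`coeff (p d) (q^p) = (coeff d q)^p` (Frobenius: `MvPolynomial.expand`/ `q^p` = sum of `p`-th
powers of the monomials), and the coefficients of `X(true,1) X(false,0)` and
`X(true,0) X(false,1)` in `q = XM a b c n 1` are equal (`-b` both if `n = -2`, else `0`). -/
def S_ZCO : Prop := ∀ (K : Type) [Field K] (p : ℕ) [Fact p.Prime] [CharP K p], 3 ≤ p →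
  ∀ (a b c : K) (n : ℤ) (M : Matrix (Fin 2) (Fin 2) K), M = !![b, a; c, -b] ^ p →
    ∀ A : R K →ₗ[K] R K, A = XM a b c n ^ p - XM (M 0 1) (M 0 0) (M 1 0) (p * n) →
      (∀ d : Bool × ℕ →₀ ℕ, d.degree < 2 * p → coeff d (A 1) = 0) ∧ ell K p (A 1) = 0

/-- **Piece DMP** (50 lines; uses TOP). `ell (DM^p 1) ≠ 0` for `p ≥ 5`.
Proof: `DM = q + x` as in TOP with
`q = 3 (1/2) X(true,0) X(false,1) + 3 (-1/2) X(true,1) X(false,0)` (`qq true false c (-2)`:
`i = 0`: `c (-1) = 3/2`; `i = 1`: `c (-2) = -3/2`); the coefficients of degree `2 p` of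
`DM^p 1` are those of `q^p = (3/2)^p (X(true,0)^p X(false,1)^p - X(true,1)^p X(false,0)^p)`, so
`ell = - 2 (3/2)^p ≠ 0`. -/
def S_DMP : Prop := ∀ (K : Type) [Field K] (p : ℕ) [Fact p.Prime] [CharP K p], 5 ≤ p →
  ell K p ((DM K ^ p) 1) ≠ 0

/-- **Piece ZAL** (60 lines; uses ZMU, ZCO). For every `z ∈ Z0 K p` and every algebra map `Φ` with
`Φ (xx a b c n) = XM a b c n`: `ell p (Φ z 1) = 0`.
Proof: `Algebra.adjoin_induction` for the property: `Φ z` is the multiplication by `g = Φ z 1` and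
`g` has coefficient `0` at all monomials `d` with `0 < deg d < 2 p`, and `ell g = 0`; this is
closed under products (`g h`: in degree `2 p` only `g_0 h + g h_0`). -/
def S_ZAL : Prop := ∀ (K : Type) [Field K] (p : ℕ) [Fact p.Prime] [CharP K p], 3 ≤ p →
  ∀ Φ : U K →ₐ[K] Module.End K (R K), (∀ a b c n, Φ (xx a b c n) = XM a b c n) →
    ∀ z ∈ Z0 K p, ell K p (Φ z 1) = 0

/-- **Piece FIN** (60 lines; uses SUG, CEN, INV, PHI, RED, DM1, DMP, ZAL). The theorem. Proof:
`v = D^p vac` is central by CEN and INV; `φ (D v) = DM (φ v)` for all `v` (`V` is spanned by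
products of `x_n` applied to `vac`, `UniversalEnvelopingAlgebra` induction; RED, DM1), so
`φ (D^p vac) = DM^p 1`; if `v = z • vac`, `z ∈ Z0`, then `ell (DM^p 1) = ell (Φ z 1) = 0`. -/
def S_FIN : Prop := ∀ (K : Type) [Field K] (p : ℕ) [Fact p.Prime] [CharP K p], 5 ≤ p →
  (-(1 / 2) : K) ≠ -2 ∧ ∃ v ∈ centre (-(1 / 2) : K), v ∉ pCentre p (-(1 / 2) : K)

end

end Pool.Agent.PVA
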