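import Pool.Agent.PVA.Stm2

/-!
# Piece THE (helper46): the map `V^κ → K[X] × K[X]`
-/

set_option autoImplicit false

namespace Pool.Agent.PVA

namespace THE

open scoped Polynomial LaurentPolynomial
open LaurentPolynomial (T)

noncomputable section

variable {K : Type} [Field K]

/-- the negative part of a Laurent polynomial -/
def pr (K : Type) [Field K] : K[T;T⁻¹] →ₗ[K] K[T;T⁻¹] :=
  (AddMonoidAlgebra.basis ℤ K).constr K fun n => if n < 0 then (T n : K[T;T⁻¹]) else 0

theorem pr_T (n : ℤ) : pr K (T n) = if n < 0 then T n else 0 := by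
  have := (AddMonoidAlgebra.basis ℤ K).constr_basis K
    (fun n : ℤ => if n < 0 then (T n : K[T;T⁻¹]) else 0) n
  rw [← this]
  rfl

/-- the nonnegative part of a Laurent polynomial -/
def pn (K : Type) [Field K] : K[T;T⁻¹] →ₗ[K] K[T;T⁻¹] :=
  (AddMonoidAlgebra.basis ℤ K).constr K fun n => if n < 0 then 0 else (T n : K[T;T⁻¹])

theorem pn_T (n : ℤ) : pn K (T n) = if n < 0 then 0 else T n := by
  have := (AddMonoidAlgebra.basis ℤ K).constr_basis K
    (fun n : ℤ => if n < 0 then 0 else (T n : K[T;T⁻¹])) n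
  rw [← this]
  rfl

theorem pn_of {a : K[T;T⁻¹]} (ha : pr K a = 0) : pn K a = a := by
  have h : pn K + pr K = LinearMap.id := lin_ext fun n => by
    rw [LinearMap.add_apply, pn_T, pr_T, LinearMap.id_apply]
    split_ifs
    · rw [zero_add]
    · rw [add_zero]
  have h1 := LinearMap.congr_fun h a
  rw [LinearMap.add_apply, ha, add_zero, LinearMap.id_apply] at h1
  exact h1

/-- the coefficient of `T ^ k` -/
def cf (K : Type) [Field K] (k : ℤ) : K[T;T⁻¹] →ₗ[K] K where
  toFun a := a.coeff k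
  map_add' _ _ := rfl
  map_smul' _ _ := rfl

theorem cf_T (k n : ℤ) : cf K k (T n) = if n = k then 1 else 0 := by
  change (T n : K[T;T⁻¹]).coeff k = _
  simp

/-- bilinear maps `L (p a * q b)` -/
def bl {M : Type} [AddCommGroup M] [Module K M] (p q : K[T;T⁻¹] →ₗ[K] K[T;T⁻¹])
    (L : K[T;T⁻¹] →ₗ[K] M) : K[T;T⁻¹] →ₗ[K] K[T;T⁻¹] →ₗ[K] M :=
  ((LinearMap.mul K K[T;T⁻¹]).compl₁₂ p q).compr₂ L

theorem bl_eq {M : Type} [AddCommGroup M] [Module K M] (p q : K[T;T⁻¹] →ₗ[K] K[T;T⁻¹])
    (L : K[T;T⁻¹] →ₗ[K] M) (f : K[T;T⁻¹] →ₗ[K] K[T;T⁻¹] →ₗ[K] M)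
    (h : ∀ n m : ℤ, L (p (T n) * q (T m)) = f (T n) (T m)) (a b : K[T;T⁻¹]) :
    L (p a * q b) = f a b := by
  have h1 : bl p q L = f := lin_ext fun n => lin_ext fun m => h n m
  exact LinearMap.congr_fun (LinearMap.congr_fun h1 a) b

theorem A1 {a b : K[T;T⁻¹]} (ha : pr K a = a) (hb : pr K b = b) : pr K (a * b) = a * b := by
  have h := bl_eq (pr K) (pr K) (pr K) (bl (pr K) (pr K) LinearMap.id) (fun n m => by
    show pr K (pr K (T n) * pr K (T m)) = pr K (T n) * pr K (T m)
    rw [pr_T, pr_T]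
    split_ifs with h1 h2 h2
    · rw [← LaurentPolynomial.T_add, pr_T, if_pos (by omega)]
    · rw [mul_zero, map_zero]
    · rw [zero_mul, map_zero]
    · rw [zero_mul, map_zero]) a b
  have h' : pr K (pr K a * pr K b) = pr K a * pr K b := h
  rwa [ha, hb] at h'

theorem B1 {a b : K[T;T⁻¹]} (ha : pr K a = 0) (hb : pr K b = 0) : pr K (a * b) = 0 := by
  have h := bl_eq (pn K) (pn K) (pr K) 0 (fun n m => by
    rw [pn_T, pn_T, LinearMap.zero_apply, LinearMap.zero_apply]
    split_ifs with h1 h2 h2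
    · rw [zero_mul, map_zero]
    · rw [zero_mul, map_zero]
    · rw [mul_zero, map_zero]
    · rw [← LaurentPolynomial.T_add, pr_T, if_neg (by omega)]) a b
  rw [LinearMap.zero_apply, LinearMap.zero_apply, pn_of ha, pn_of hb] at h
  exact h

theorem A3 {a b : K[T;T⁻¹]} (ha : pr K a = a) (hb : pr K b = b) : ct K (theta K a * b) = 0 := by
  have h := bl_eq (theta K ∘ₗ pr K) (pr K) (ct K) 0 (fun n m => by
    show ct K (theta K (pr K (T n)) * pr K (T m)) = 0
    rw [pr_T, pr_T]
    split_ifs with h1 h2 h2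
    · rw [theta_T, smul_mul_assoc, ← LaurentPolynomial.T_add, map_smul, ct_T, if_neg (by omega),
        smul_zero]
    · rw [mul_zero, map_zero]
    · rw [map_zero, zero_mul, map_zero]
    · rw [map_zero, zero_mul, map_zero]) a b
  have h' : ct K (theta K (pr K a) * pr K b) = 0 := h
  rwa [ha, hb] at h'

theorem B3 {a b : K[T;T⁻¹]} (ha : pr K a = 0) (hb : pr K b = 0) : ct K (theta K a * b) = 0 := by
  have h := bl_eq (theta K ∘ₗ pn K) (pn K) (ct K) 0 (fun n m => by
    rw [LinearMap.comp_apply, pn_T, pn_T, LinearMap.zero_apply, LinearMap.zero_apply]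
    split_ifs with h1 h2 h2
    · rw [map_zero, zero_mul, map_zero]
    · rw [map_zero, zero_mul, map_zero]
    · rw [mul_zero, map_zero]
    · rw [theta_T, smul_mul_assoc, ← LaurentPolynomial.T_add, map_smul, ct_T]
      by_cases h3 : n + m = 0
      · have h4 : n = 0 := by omega
        rw [h4, Int.cast_zero, zero_smul]
      · rw [if_neg h3, smul_zero]) a b
  rw [LinearMap.comp_apply, LinearMap.zero_apply, LinearMap.zero_apply, pn_of ha, pn_of hb] at h
  exact h

theorem A5 {a b : K[T;T⁻¹]} (ha : pr K a = a) (hb : pr K b = b) : cf K (-1) (a * b) = 0 := by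
  have h := bl_eq (pr K) (pr K) (cf K (-1)) 0 (fun n m => by
    show cf K (-1) (pr K (T n) * pr K (T m)) = 0
    rw [pr_T, pr_T]
    split_ifs with h1 h2 h2
    · rw [← LaurentPolynomial.T_add, cf_T, if_neg (by omega)]
    · rw [mul_zero, map_zero]
    · rw [zero_mul, map_zero]
    · rw [zero_mul, map_zero]) a b
  have h' : cf K (-1) (pr K a * pr K b) = 0 := h
  rwa [ha, hb] at h'

theorem A6 {a b : K[T;T⁻¹]} (ha : pr K a = a) (hb : pr K b = b) :
    cf K (-2) (a * b) = cf K (-1) a * cf K (-1) b := by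
  have h := bl_eq (pr K) (pr K) (cf K (-2))
    ((LinearMap.mul K K).compl₁₂ (cf K (-1) ∘ₗ pr K) (cf K (-1) ∘ₗ pr K)) (fun n m => by
    show cf K (-2) (pr K (T n) * pr K (T m)) = cf K (-1) (pr K (T n)) * cf K (-1) (pr K (T m))
    rw [pr_T, pr_T]
    split_ifs with h1 h2 h2
    · rw [← LaurentPolynomial.T_add, cf_T, cf_T, cf_T]
      by_cases h3 : n = -1
      · by_cases h4 : m = -1
        · rw [if_pos (by omega), if_pos h3, if_pos h4, one_mul]
        · rw [if_neg (by omega), if_neg h4, mul_zero]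
      · rw [if_neg (by omega), if_neg h3, zero_mul]
    · rw [mul_zero, map_zero, map_zero, mul_zero]
    · rw [zero_mul, map_zero, map_zero, zero_mul]
    · rw [zero_mul, map_zero, map_zero, zero_mul]) a b
  have h' : cf K (-2) (pr K a * pr K b) = cf K (-1) (pr K a) * cf K (-1) (pr K b) := h
  rwa [ha, hb] at h'

theorem lin_two {M : Type} [AddCommGroup M] [Module K M] (L : K[T;T⁻¹] →ₗ[K] M) (a : K[T;T⁻¹]) :
    L (2 * a) = L a + L a := by
  rw [two_mul, map_add]

theorem pr_pr (a : K[T;T⁻¹]) : pr K (pr K a) = pr K a := by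
  have h : (pr K) ∘ₗ (pr K) = pr K := lin_ext fun n => by
    rw [LinearMap.comp_apply, pr_T]
    split_ifs with h1
    · rw [pr_T, if_pos h1]
    · rw [map_zero]
  exact LinearMap.congr_fun h a

/-- the negative part of the affine Lie algebra -/
def subA (K : Type) [Field K] : LieSubalgebra K (Aff K) where
  carrier := {x | pr K x.e = x.e ∧ pr K x.h = x.h ∧ pr K x.f = x.f ∧ x.z = 0}
  add_mem' := by
    rintro x y ⟨h1, h2, h3, h4⟩ ⟨h1', h2', h3', h4'⟩
    refine ⟨?_, ?_, ?_, ?_⟩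
    · rw [Aff.add_e, map_add, h1, h1']
    · rw [Aff.add_h, map_add, h2, h2']
    · rw [Aff.add_f, map_add, h3, h3']
    · rw [Aff.add_z, h4, h4', add_zero]
  zero_mem' := ⟨map_zero _, map_zero _, map_zero _, rfl⟩
  smul_mem' := by
    rintro r x ⟨h1, h2, h3, h4⟩
    refine ⟨?_, ?_, ?_, ?_⟩
    · rw [Aff.smul_e, map_smul, h1]
    · rw [Aff.smul_h, map_smul, h2]
    · rw [Aff.smul_f, map_smul, h3]
    · rw [Aff.smul_z, h4, smul_zero]
  lie_mem' := by
    rintro x y ⟨h1, h2, h3, h4⟩ ⟨h1', h2', h3', h4'⟩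
    refine ⟨?_, ?_, ?_, ?_⟩
    · rw [Aff.lie_e, lin_two, map_sub, A1 h2 h1', A1 h1 h2', two_mul]
    · rw [Aff.lie_h, map_sub, A1 h1 h3', A1 h3 h1']
    · rw [Aff.lie_f, lin_two, map_sub, A1 h3 h2', A1 h2 h3', two_mul]
    · rw [Aff.lie_z, map_add, map_add, lin_two, A3 h1 h3', A3 h3 h1', A3 h2 h2']
      simp

/-- the nonnegative part of the affine Lie algebra -/
def subB (K : Type) [Field K] : LieSubalgebra K (Aff K) where
  carrier := {x | pr K x.e = 0 ∧ pr K x.h = 0 ∧ pr K x.f = 0}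
  add_mem' := by
    rintro x y ⟨h1, h2, h3⟩ ⟨h1', h2', h3'⟩
    refine ⟨?_, ?_, ?_⟩
    · rw [Aff.add_e, map_add, h1, h1', add_zero]
    · rw [Aff.add_h, map_add, h2, h2', add_zero]
    · rw [Aff.add_f, map_add, h3, h3', add_zero]
  zero_mem' := ⟨map_zero _, map_zero _, map_zero _⟩
  smul_mem' := by
    rintro r x ⟨h1, h2, h3⟩
    refine ⟨?_, ?_, ?_⟩
    · rw [Aff.smul_e, map_smul, h1, smul_zero]
    · rw [Aff.smul_h, map_smul, h2, smul_zero]
    · rw [Aff.smul_f, map_smul, h3, smul_zero]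
  lie_mem' := by
    rintro x y ⟨h1, h2, h3⟩ ⟨h1', h2', h3'⟩
    refine ⟨?_, ?_, ?_⟩
    · rw [Aff.lie_e, lin_two, map_sub, B1 h2 h1', B1 h1 h2']
      simp
    · rw [Aff.lie_h, map_sub, B1 h1 h3', B1 h3 h1', sub_zero]
    · rw [Aff.lie_f, lin_two, map_sub, B1 h3 h2', B1 h2 h3']
      simp

theorem compl : IsCompl (subA K).toSubmodule (subB K).toSubmodule := by
  refine IsCompl.of_eq ?_ ?_
  · rw [Submodule.eq_bot_iff]
    rintro x ⟨⟨h1, h2, h3, h4⟩, h1', h2', h3'⟩
    ext1
    · rw [← h1, h1']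
      rfl
    · rw [← h2, h2']
      rfl
    · rw [← h3, h3']
      rfl
    · exact h4
  · rw [Submodule.eq_top_iff']
    intro x
    refine Submodule.mem_sup.2 ⟨⟨pr K x.e, pr K x.h, pr K x.f, 0⟩, ?_,
      ⟨x.e - pr K x.e, x.h - pr K x.h, x.f - pr K x.f, x.z⟩, ?_, ?_⟩
    · exact ⟨pr_pr _, pr_pr _, pr_pr _, rfl⟩
    · refine ⟨?_, ?_, ?_⟩
      · show pr K (x.e - pr K x.e) = 0
        rw [map_sub, pr_pr, sub_self]
      · show pr K (x.h - pr K x.h) = 0
        rw [map_sub, pr_pr, sub_self]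
      · show pr K (x.f - pr K x.f) = 0
        rw [map_sub, pr_pr, sub_self]
    · ext1
      · show pr K x.e + (x.e - pr K x.e) = x.e
        ring
      · show pr K x.h + (x.h - pr K x.h) = x.h
        ring
      · show pr K x.f + (x.f - pr K x.f) = x.f
        ring
      · show 0 + x.z = x.z
        rw [zero_add]

/-- the operator of an element -/
def ps (x : Aff K) : Module.End K K[X] :=
  cf K (-1) x.e • Polynomial.derivative + cf K (-1) x.f • LinearMap.mulLeft K (Polynomial.X : K[X]) +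
    cf K (-2) x.h • LinearMap.id

theorem ps_apply (x : Aff K) (g : K[X]) : ps x g = Polynomial.C (cf K (-1) x.e) * Polynomial.derivative g +
    Polynomial.C (cf K (-1) x.f) * (Polynomial.X * g) + Polynomial.C (cf K (-2) x.h) * g := by
  unfold ps
  simp only [LinearMap.add_apply, LinearMap.smul_apply, LinearMap.mulLeft_apply, LinearMap.id_apply,
    Polynomial.smul_eq_C_mul]

theorem ps_add (x y : Aff K) : ps (x + y) = ps x + ps y := by
  refine LinearMap.ext fun g => ?_
  rw [LinearMap.add_apply, ps_apply, ps_apply, ps_apply, Aff.add_e, Aff.add_f, Aff.add_h, map_add,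
    map_add, map_add, map_add, map_add, map_add]
  ring

theorem ps_smul (r : K) (x : Aff K) : ps (r • x) = r • ps x := by
  refine LinearMap.ext fun g => ?_
  have e : ∀ (k : ℤ) (a : K[T;T⁻¹]), cf K k (r • a) = r * cf K k a := fun k a =>
    (cf K k).map_smul r a
  rw [LinearMap.smul_apply, ps_apply, ps_apply, Aff.smul_e, Aff.smul_f, Aff.smul_h, e, e, e,
    Polynomial.smul_eq_C_mul, Polynomial.C_mul, Polynomial.C_mul, Polynomial.C_mul]
  ring

theorem ps_lie {x y : Aff K} (hx : x ∈ subA K) (hy : y ∈ subA K) (g : K[X]) :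
    ps ⁅x, y⁆ g = ps x (ps y g) - ps y (ps x g) := by
  obtain ⟨h1, h2, h3, h4⟩ := hx
  obtain ⟨h1', h2', h3', h4'⟩ := hy
  have e1 : cf K (-1) ⁅x, y⁆.e = 0 := by
    rw [Aff.lie_e, lin_two, map_sub, A5 h2 h1', A5 h1 h2']
    simp
  have e2 : cf K (-1) ⁅x, y⁆.f = 0 := by
    rw [Aff.lie_f, lin_two, map_sub, A5 h3 h2', A5 h2 h3']
    simp
  have e3 : cf K (-2) ⁅x, y⁆.h = cf K (-1) x.e * cf K (-1) y.f - cf K (-1) x.f * cf K (-1) y.e := by
    rw [Aff.lie_h, map_sub, A6 h1 h3', A6 h3 h1']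
  rw [ps_apply ⁅x, y⁆, e1, e2, e3, ps_apply x, ps_apply y, ps_apply y, ps_apply x]
  simp only [Polynomial.derivative_add, Polynomial.derivative_mul, Polynomial.derivative_C,
    Polynomial.derivative_X, map_sub, map_mul, map_zero]
  ring

attribute [local instance 100] LieRing.ofAssociativeRing

/-- the representation of the negative part -/
def ph (K : Type) [Field K] : subA K →ₗ⁅K⁆ Module.End K (K[X] × K[X]) where
  toFun x := (ps x.1).prodMap (ps x.1)
  map_add' x y := by
    show (ps (x.1 + y.1)).prodMap (ps (x.1 + y.1)) = _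
    rw [ps_add]
    rfl
  map_smul' r x := by
    show (ps (r • x.1)).prodMap (ps (r • x.1)) = _
    rw [ps_smul]
    rfl
  map_lie' := by
    intro x y
    refine LinearMap.ext fun v => ?_
    rw [LieRing.of_associative_ring_bracket]
    refine Prod.ext ?_ ?_
    · exact ps_lie x.2 y.2 v.1
    · exact ps_lie x.2 y.2 v.2

/-- the character of the nonnegative part -/
def chi (κ : K) : subB K →ₗ⁅K⁆ K where
  toFun x := κ * x.1.z
  map_add' x y := by
    show κ * (x.1.z + y.1.z) = _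
    ring
  map_smul' r x := by
    show κ * (r * x.1.z) = r * (κ * x.1.z)
    ring
  map_lie' := by
    intro x y
    obtain ⟨h1, h2, h3⟩ := x.2
    obtain ⟨h1', h2', h3'⟩ := y.2
    have h : ⁅x.1, y.1⁆.z = 0 := by
      rw [Aff.lie_z, map_add, map_add, lin_two, B3 h1 h3', B3 h3 h1', B3 h2 h2']
      simp
    show κ * ⁅x.1, y.1⁆.z = _
    rw [h, mul_zero, LieRing.of_associative_ring_bracket, mul_comm, sub_self]

theorem mono_A (a b c : K) (n : ℤ) (hn : n < 0) : Aff.mono a b c n ∈ subA K := by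
  refine ⟨?_, ?_, ?_, rfl⟩
  · show pr K (a • T n) = a • T n
    rw [map_smul, pr_T, if_pos hn]
  · show pr K (b • T n) = b • T n
    rw [map_smul, pr_T, if_pos hn]
  · show pr K (c • T n) = c • T n
    rw [map_smul, pr_T, if_pos hn]

theorem mono_B (a b c : K) (n : ℤ) (hn : 0 ≤ n) : Aff.mono a b c n ∈ subB K := by
  refine ⟨?_, ?_, ?_⟩
  · show pr K (a • T n) = 0
    rw [map_smul, pr_T, if_neg (by omega), smul_zero]
  · show pr K (b • T n) = 0
    rw [map_smul, pr_T, if_neg (by omega), smul_zero]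
  · show pr K (c • T n) = 0
    rw [map_smul, pr_T, if_neg (by omega), smul_zero]

theorem cen_B : Aff.cen K ∈ subB K := ⟨map_zero _, map_zero _, map_zero _⟩

theorem ps_mono (a b c : K) (n : ℤ) : ps (Aff.mono a b c n) = op K a b c n := by
  have e1 : ∀ (r : K) (k : ℤ), cf K k (r • T n) = if n = k then r else 0 := by
    intro r k
    rw [map_smul, cf_T, smul_eq_mul]
    split_ifs
    · rw [mul_one]
    · rw [mul_zero]
  have e2 : cf K (-1) (Aff.mono a b c n).e = if n = -1 then a else 0 := e1 a (-1)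
  have e3 : cf K (-1) (Aff.mono a b c n).f = if n = -1 then c else 0 := e1 c (-1)
  have e4 : cf K (-2) (Aff.mono a b c n).h = if n = -2 then b else 0 := e1 b (-2)
  unfold ps op
  rw [e2, e3, e4]
  by_cases h1 : n = -1
  · have h2 : n ≠ -2 := by omega
    simp only [if_pos h1, if_neg h2, zero_smul, add_zero]
  · by_cases h2 : n = -2
    · simp only [if_neg h1, if_pos h2, zero_smul, add_zero, zero_add]
    · simp only [if_neg h1, if_neg h2, zero_smul, add_zero]

end

end THE

attribute [local instance 100] LieRing.ofAssociativeRing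

open THE in
theorem t_THE (h1 : S_MUL) : S_THE := by
  intro K _ κ w
  obtain ⟨F, hF1, hFA, hFB⟩ := h1 K (Aff K) (subA K) (subB K) compl
    (UniversalEnvelopingAlgebra.lift K (chi κ)) _ (UniversalEnvelopingAlgebra.lift K (ph K)) w
  have hker : ∀ u ∈ lid κ, ∀ r : U K, F (r * u) = 0 := by
    intro u hu
    refine Submodule.span_induction ?_ ?_ ?_ ?_ hu
    · rintro x (⟨a, b, c, n, hn, rfl⟩ | hx) r
      · have h2 := hFB ⟨Aff.mono a b c n, mono_B a b c n hn⟩ r
        rw [UniversalEnvelopingAlgebra.lift_ι_apply] at h2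
        have h3 : F (r * xx a b c n) = (κ * 0) • F r := h2
        rw [h3, mul_zero, zero_smul]
      · rw [Set.mem_singleton_iff] at hx
        have h2 := hFB ⟨Aff.cen K, cen_B⟩ r
        rw [UniversalEnvelopingAlgebra.lift_ι_apply] at h2
        have h3 : F (r * cc K) = (κ * 1) • F r := h2
        rw [hx, mul_sub, map_sub, h3, mul_one, ← Algebra.commutes, ← Algebra.smul_def, map_smul,
          sub_self]
    · intro r
      rw [mul_zero, map_zero]
    · intro x y _ _ hx hy r
      rw [mul_add, map_add, hx, hy, add_zero]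
    · intro s x _ hx r
      rw [smul_eq_mul, ← mul_assoc]
      exact hx _
  obtain ⟨θ, hθ⟩ : ∃ θ : V κ →ₗ[K] Polynomial K × Polynomial K,
      ∀ u : U K, θ (Submodule.Quotient.mk u) = F u := by
    refine ⟨(Submodule.liftQ ((lid κ).restrictScalars K) F ?_) ∘ₗ
      (Submodule.Quotient.restrictScalarsEquiv K (lid κ)).symm.toLinearMap, fun u => rfl⟩
    intro u hu
    have h2 := hker u hu 1
    rw [one_mul] at h2
    exact h2
  refine ⟨θ, ?_, ?_⟩
  · exact (hθ 1).trans hF1
  · intro a b c n v hn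
    obtain ⟨u, rfl⟩ := Submodule.Quotient.mk_surjective _ v
    have h2 := hFA ⟨Aff.mono a b c n, mono_A a b c n hn⟩ u
    rw [UniversalEnvelopingAlgebra.lift_ι_apply] at h2
    have h3 : θ (xx a b c n • (Submodule.Quotient.mk u : V κ)) = F (xx a b c n * u) := hθ _
    rw [h3, hθ]
    have h4 : F (xx a b c n * u) =
        (ps (Aff.mono a b c n) (F u).1, ps (Aff.mono a b c n) (F u).2) := h2
    rw [h4, ps_mono a b c n]

end Pool.Agent.PVA
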