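import Pool.Agent.PVA.Stm2

/-!
# Piece ZDI: the values of `θ` on the `p`-centre
-/

open Polynomial

namespace Pool.Agent.PVA

noncomputable section

theorem zdi_pow {K : Type} [Field K] (T : K[X] →ₗ[K] K[X]) (a : K)
    (hT : ∀ f : K[X], T (X * f) = X * T f + a • f) (k : ℕ) (f : K[X]) :
    (T ^ (k + 1)) (X * f) = X * (T ^ (k + 1)) f + (((k + 1 : ℕ) : K) * a) • (T ^ k) f := by
  induction k with
  | zero =>
    rw [zero_add, pow_one, pow_zero, hT, Nat.cast_one, one_mul]
    rfl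
  | succ k ih =>
    have h1 : (T ^ (k + 1 + 1)) (X * f) = T ((T ^ (k + 1)) (X * f)) := by
      rw [pow_succ']; rfl
    have h2 : (T ^ (k + 1 + 1)) f = T ((T ^ (k + 1)) f) := by
      rw [pow_succ']; rfl
    have h3 : (T ^ (k + 1)) f = T ((T ^ k) f) := by
      rw [pow_succ']; rfl
    rw [h1, ih, map_add, map_smul, hT, h2, ← h3, Nat.cast_succ (k + 1), add_mul, add_smul, one_mul]
    abel

theorem zdi_op {K : Type} [Field K] (a b c : K) (n : ℤ) :
    ∃ a' : K, ∀ f : K[X], op K a b c n (X * f) = X * op K a b c n f + a' • f := by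
  unfold op
  by_cases h1 : n = -1
  · refine ⟨a, fun f => ?_⟩
    rw [if_pos h1]
    simp only [LinearMap.add_apply, LinearMap.smul_apply, Polynomial.derivative_mul,
      Polynomial.derivative_X, LinearMap.mulLeft_apply, one_mul, smul_add, mul_add,
      mul_smul_comm]
    abel
  · by_cases h2 : n = -2
    · refine ⟨0, fun f => ?_⟩
      rw [if_neg h1, if_pos h2]
      simp
    · refine ⟨0, fun f => ?_⟩
      rw [if_neg h1, if_neg h2]
      simp

theorem zdi_comm {K : Type} [Field K] (p : ℕ) [Fact p.Prime] [CharP K p] (a b c : K) (n : ℤ)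
    (f : K[X]) : (op K a b c n ^ p) (X * f) = X * (op K a b c n ^ p) f := by
  obtain ⟨a', ha'⟩ := zdi_op a b c n
  obtain ⟨k, hk⟩ : ∃ k, p = k + 1 := ⟨p - 1, by have := (Fact.out : p.Prime).pos; omega⟩
  have h := zdi_pow (op K a b c n) a' ha' k f
  rw [← hk, CharP.cast_eq_zero, zero_mul, zero_smul, add_zero] at h
  exact h

theorem zdi_theta_pow {K : Type} [Field K] {κ : K} (θ : V κ →ₗ[K] K[X] × K[X])
    (hθ : ∀ (a b c : K) (n : ℤ) (v : V κ), n < 0 →
      θ (xx a b c n • v) = (op K a b c n (θ v).1, op K a b c n (θ v).2))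
    (a b c : K) (n : ℤ) (hn : n < 0) (k : ℕ) (v : V κ) :
    θ (xx a b c n ^ k • v) = ((op K a b c n ^ k) (θ v).1, (op K a b c n ^ k) (θ v).2) := by
  induction k with
  | zero =>
    rw [pow_zero, pow_zero, one_smul]
    rfl
  | succ k ih =>
    rw [pow_succ', mul_smul, hθ a b c n _ hn, ih, pow_succ']
    rfl

theorem zdi_xx_vac {K : Type} [Field K] (κ : K) (a b c : K) (n : ℤ) (hn : 0 ≤ n) :
    xx a b c n • vac κ = 0 := by
  unfold vac
  rw [← Submodule.Quotient.mk_smul, Submodule.Quotient.mk_eq_zero, smul_eq_mul, mul_one]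
  exact Submodule.subset_span (Or.inl ⟨a, b, c, n, hn, rfl⟩)

theorem t_ZDI (h1 : S_CEZ) : S_ZDI := by
  intro K _ p _ _ hp κ θ hvac hθ z hz
  have hp0 : p ≠ 0 := by omega
  suffices H : ∀ v : V κ, ((θ v).2 = X * (θ v).1 ∧ ∀ (a b c : K) (n : ℤ), 0 ≤ n →
      (xx a b c n ^ p - pmap p a b c n) • v = 0) →
      ((θ (z • v)).2 = X * (θ (z • v)).1 ∧ ∀ (a b c : K) (n : ℤ), 0 ≤ n →
      (xx a b c n ^ p - pmap p a b c n) • (z • v) = 0) by
    refine (H (vac κ) ⟨by rw [hvac, mul_one], fun a b c n hn => ?_⟩).1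
    rw [sub_smul]
    obtain ⟨k, hk⟩ : ∃ k, p = k + 1 := ⟨p - 1, by omega⟩
    have e1 : xx a b c n ^ p • vac κ = 0 := by
      rw [hk, pow_succ, mul_smul, zdi_xx_vac κ a b c n hn, smul_zero]
    have e2 : pmap p a b c n • vac κ = 0 := by
      unfold pmap
      exact zdi_xx_vac κ _ _ _ _ (by positivity)
    rw [e1, e2, sub_zero]
  unfold Z0 at hz
  induction hz using Algebra.adjoin_induction with
  | mem u hu =>
    obtain ⟨a, b, c, n, rfl⟩ := hu
    rintro v ⟨hv1, hv2⟩
    refine ⟨?_, fun a' b' c' n' hn' => ?_⟩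
    · rcases lt_or_ge n 0 with hn | hn
      · have e2 : θ (pmap p a b c n • v) = 0 := by
          unfold pmap
          have hpn : (p : ℤ) * n ≤ -3 := by
            have h3 : (3 : ℤ) ≤ p := by exact_mod_cast hp
            nlinarith
          rw [hθ _ _ _ _ _ (by linarith)]
          unfold op
          rw [if_neg (by omega), if_neg (by omega)]
          rfl
        rw [sub_smul, map_sub, e2, sub_zero, zdi_theta_pow θ hθ a b c n hn]
        change (op K a b c n ^ p) (θ v).2 = X * (op K a b c n ^ p) (θ v).1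
        rw [hv1, zdi_comm]
      · rw [hv2 a b c n hn, map_zero]
        simp
    · rw [smul_smul, ← h1 K p hp a' b' c' n', mul_smul, hv2 a' b' c' n' hn', smul_zero]
  | algebraMap r =>
    rintro v ⟨hv1, hv2⟩
    refine ⟨?_, fun a' b' c' n' hn' => ?_⟩
    · rw [algebraMap_smul, map_smul, Prod.smul_snd, Prod.smul_fst, hv1, mul_smul_comm]
    · rw [smul_smul, ← h1 K p hp a' b' c' n', mul_smul, hv2 a' b' c' n' hn', smul_zero]
  | add x y _ _ hx hy =>
    intro v hv
    obtain ⟨hx1, hx2⟩ := hx v hv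
    obtain ⟨hy1, hy2⟩ := hy v hv
    refine ⟨?_, fun a' b' c' n' hn' => ?_⟩
    · rw [add_smul, map_add, Prod.snd_add, Prod.fst_add, hx1, hy1, mul_add]
    · rw [add_smul, smul_add, hx2 a' b' c' n' hn', hy2 a' b' c' n' hn', add_zero]
  | mul x y _ _ hx hy =>
    intro v hv
    have h := hx (y • v) (hy v hv)
    rw [← mul_smul] at h
    exact h

end

end Pool.Agent.PVA
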